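import Mathlib

/-!
# Smoothed complexity of greedy, steepest-edge and random pivoting: definitions

Linear programs: maximise `c · x` subject to `a_i · x ≤ b_i` (`i : Fin m`) in `ℝ^n`.
-/

open scoped ENNReal NNReal
open MeasureTheory ProbabilityTheory

namespace Pool.Agent.Lib.MP_ab1b6f_lc

/-- Euclidean space `ℝ^n`. -/
abbrev Pt (n : ℕ) := EuclideanSpace ℝ (Fin n)

/-- Data of a linear program with `m` constraints in `n` variables: the row `i` is `(a_i, b_i)`. -/
abbrev Data (m n : ℕ) := Fin m → Fin (n + 1) → ℝ

/-- The left hand side `a_i · x` of the constraint `i`. -/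
def lhs {m n : ℕ} (D : Data m n) (i : Fin m) (x : Pt n) : ℝ :=
  ∑ j : Fin n, D i j.castSucc * x j

/-- The polyhedron `{x : a_i · x ≤ b_i for all i}`. -/
def poly {m n : ℕ} (D : Data m n) : Set (Pt n) :=
  {x | ∀ i, lhs D i x ≤ D i (Fin.last n)}

section Rules

variable {n : ℕ}

/-- `w` is a vertex of `P` adjacent to the vertex `v` (the segment from `v` to `w` is an edge, i.e. a
face of `P`) and the objective `c` is larger at `w` than at `v`. -/
def BetterNbr (P : Set (Pt n)) (c v w : Pt n) : Prop :=
  v ≠ w ∧ v ∈ P.extremePoints ℝ ∧ w ∈ P.extremePoints ℝ ∧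
    IsExtreme ℝ P (segment ℝ v w) ∧ 0 < inner ℝ c (w - v)

/-- `d` is a unit vector, the half-line from the vertex `v` in direction `d` is an (unbounded) edge of
`P`, and the objective `c` increases along it. -/
def BetterRay (P : Set (Pt n)) (c v d : Pt n) : Prop :=
  ‖d‖ = 1 ∧ v ∈ P.extremePoints ℝ ∧ IsExtreme ℝ P {x | ∃ t : ℝ, 0 ≤ t ∧ x = v + t • d} ∧
    0 < inner ℝ c d

/-- `p v w` is the probability that the next vertex after `v` is `w`. Greedy rule: `w` is an improving
neighbour with the largest gain `c · (w - v)`; an improving unbounded edge has infinite gain, so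
the path stops if there is one. Ties are broken in an arbitrary (possibly random) way. -/
structure Greedy (P : Set (Pt n)) (c : Pt n) (p : Pt n → Pt n → ℝ≥0∞) : Prop where
  mass : ∀ v, ∑' w, p v w ≤ 1
  step : ∀ v w, p v w ≠ 0 → BetterNbr P c v w ∧ (∀ d, ¬ BetterRay P c v d) ∧
    ∀ w', BetterNbr P c v w' → inner ℝ c (w' - v) ≤ inner ℝ c (w - v)

/-- Steepest-edge rule: `w` is an improving neighbour of largest slope `c · (w - v) / |w - v|`, and no
improving unbounded edge has a larger slope (else the path stops). Ties are broken in an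
arbitrary (possibly random) way. -/
structure Steepest (P : Set (Pt n)) (c : Pt n) (p : Pt n → Pt n → ℝ≥0∞) : Prop where
  mass : ∀ v, ∑' w, p v w ≤ 1
  step : ∀ v w, p v w ≠ 0 → BetterNbr P c v w ∧
    (∀ d, BetterRay P c v d → inner ℝ c d ≤ inner ℝ c (w - v) / ‖w - v‖) ∧
    ∀ w', BetterNbr P c v w' → inner ℝ c (w' - v) / ‖w' - v‖ ≤ inner ℝ c (w - v) / ‖w - v‖

open Classical in
/-- Random (random-edge) rule: an improving edge is drawn uniformly at random among all improving
edges at `v`, bounded or not; the path stops if the chosen edge is unbounded. -/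
def Random (P : Set (Pt n)) (c : Pt n) (p : Pt n → Pt n → ℝ≥0∞) : Prop :=
  ∀ v w, p v w = if BetterNbr P c v w then
    (((Set.encard {w' | BetterNbr P c v w'} + Set.encard {d | BetterRay P c v d} : ℕ∞) :
      ℝ≥0∞))⁻¹ else 0

/-- The expected number of steps, among the first `k` ones, of the path started at `v` with
transition probabilities `p` (the path stops at `v` with probability `1 - ∑ w, p v w`). -/
noncomputable def steps (p : Pt n → Pt n → ℝ≥0∞) : ℕ → Pt n → ℝ≥0∞
  | 0, _ => 0
  | k + 1, v => ∑' w, p v w * (1 + steps p k w)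

/-- The expected number of pivot steps of the path started at `v`. -/
noncomputable def pathLen (p : Pt n → Pt n → ℝ≥0∞) (v : Pt n) : ℝ≥0∞ := ⨆ k, steps p k v

end Rules

/-- The law of the perturbed data: the entries of `(A, b)` are independent Gaussian variables of
variance `σ ^ 2` centred at the entries of `Dbar`. -/
noncomputable def law {m n : ℕ} (Dbar : Data m n) (σ : ℝ≥0) : Measure (Data m n) :=
  Measure.pi fun i => Measure.pi fun j => gaussianReal (Dbar i j) (σ ^ 2)

end Pool.Agent.Lib.MP_ab1b6f_lc
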