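import Mathlib
import Pool.Agent.Lib.MP_ab1b6f_lc.Defs

/-!
# Bounds for the expected number of steps  (JOB Chain)
-/

open scoped ENNReal

namespace Pool.Agent.Lib.MP_ab1b6f_lc

variable {n : ℕ}

/-- Every transition goes to an element of the finite set `V` with a larger value of `f`. Induction
on `k` for the stronger bound `steps p k v ≤ #{w ∈ V | f v < f w}`: if `p v w ≠ 0` then
`1 + #{u ∈ V | f w < f u} ≤ #{u ∈ V | f v < f u}`. -/
theorem steps_le_card {p : Pt n → Pt n → ℝ≥0∞} {V : Finset (Pt n)} {f : Pt n → ℝ}
    (hmass : ∀ v, ∑' w, p v w ≤ 1) (h : ∀ v w, p v w ≠ 0 → w ∈ V ∧ f v < f w)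
    (k : ℕ) (v : Pt n) : steps p k v ≤ V.card := by
  classical
  have key : ∀ k v, steps p k v ≤ ((V.filter (fun w => f v < f w)).card : ℝ≥0∞) := by
    intro k
    induction k with
    | zero =>
      intro v
      simp [steps]
    | succ k ih =>
      intro v
      rw [steps]
      have h1 : ∀ w, p v w * (1 + steps p k w) ≤
          p v w * ((V.filter (fun w => f v < f w)).card : ℝ≥0∞) := by
        intro w
        by_cases hw : p v w = 0
        · rw [hw, zero_mul, zero_mul]
        obtain ⟨hwV, hvw⟩ := h v w hw
        refine mul_le_mul_right (le_trans (add_le_add_right (ih w) 1) ?_) _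
        have h2 : 1 + (V.filter (fun u => f w < f u)).card ≤
            (V.filter (fun u => f v < f u)).card := by
          have h3 : insert w (V.filter (fun u => f w < f u)) ⊆ V.filter (fun u => f v < f u) := by
            intro u hu
            rw [Finset.mem_insert, Finset.mem_filter] at hu
            rw [Finset.mem_filter]
            rcases hu with rfl | ⟨h4, h5⟩
            · exact ⟨hwV, hvw⟩
            · exact ⟨h4, hvw.trans h5⟩
          have h6 : w ∉ V.filter (fun u => f w < f u) := by simp
          have h7 := Finset.card_le_card h3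
          rw [Finset.card_insert_of_notMem h6] at h7
          omega
        exact_mod_cast h2
      refine (ENNReal.tsum_le_tsum h1).trans ?_
      rw [ENNReal.tsum_mul_right]
      exact (mul_le_mul_left (hmass v) _).trans (by rw [one_mul])
  refine (key k v).trans ?_
  exact_mod_cast Finset.card_filter_le _ _

/-- Potential argument. `L` bounds the number of steps of a walk all of whose points are bad.
Prove simultaneously by induction on `k`: for good `v`, `steps p k v ≤ (L + 2) Φ v`; for bad `v` which
is the end `x l` of a walk `x 0, ..., x l` of bad points, `steps p k v ≤ (L + 2) Φ v + (L - l) + 1`.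
Good `v`: each `w` with `p v w ≠ 0` has `1 + steps p k w ≤ (L + 2) (1 + Φ w)` (a bad `w` is the end of the
walk with `l = 0`). Bad `v`: `1 + steps p k w ≤ 1 + (L + 2) Φ w + (L - (l + 1)) + 1` if `w` is bad (here
`l + 1 ≤ L` by `hbad`) and `1 + (L + 2) Φ w` if `w` is good; use `Φ w ≤ Φ v` and the mass `≤ 1`. -/
theorem steps_le_potential {p : Pt n → Pt n → ℝ≥0∞} {good : Pt n → Prop} {Φ : Pt n → ℝ≥0∞} {L : ℕ}
    (hmass : ∀ v, ∑' w, p v w ≤ 1)
    (hmono : ∀ v w, p v w ≠ 0 → Φ w ≤ Φ v)
    (hgood : ∀ v, good v → ∑' w, p v w * (1 + Φ w) ≤ Φ v)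
    (hbad : ∀ (x : ℕ → Pt n) (l : ℕ), (∀ i ≤ l, ¬ good (x i)) →
      (∀ i < l, p (x i) (x (i + 1)) ≠ 0) → l ≤ L)
    (k : ℕ) (v : Pt n) : steps p k v ≤ (L + 2) * Φ v + (L + 1) := by
  classical
  have key : ∀ k, (∀ v, good v → steps p k v ≤ (L + 2) * Φ v) ∧
      (∀ (x : ℕ → Pt n) (l : ℕ), (∀ i ≤ l, ¬ good (x i)) →
        (∀ i < l, p (x i) (x (i + 1)) ≠ 0) →
        steps p k (x l) ≤ (L + 2) * Φ (x l) + ((L - l : ℕ) + 1)) := by
    intro k
    induction k with
    | zero =>
      refine ⟨fun v _ => ?_, fun x l _ _ => ?_⟩ <;> simp [steps]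
    | succ k ih =>
      obtain ⟨ihA, ihB⟩ := ih
      refine ⟨fun v hv => ?_, fun x l hx hp => ?_⟩
      · rw [steps]
        have h1 : ∀ w, p v w * (1 + steps p k w) ≤ (L + 2) * (p v w * (1 + Φ w)) := by
          intro w
          rw [mul_left_comm]
          refine mul_le_mul_right ?_ _
          by_cases hw : good w
          · refine (add_le_add_right (ihA w hw) 1).trans ?_
            rw [mul_add, mul_one]
            refine add_le_add_left ?_ _
            exact le_add_left one_le_two
          · have h2 := ihB (fun _ => w) 0 (fun _ _ => hw) (fun i hi => absurd hi (Nat.not_lt_zero i))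
            rw [Nat.sub_zero] at h2
            refine (add_le_add_right h2 1).trans (le_of_eq ?_)
            ring
        refine (ENNReal.tsum_le_tsum h1).trans ?_
        rw [ENNReal.tsum_mul_left]
        exact mul_le_mul_right (hgood v hv) _
      · rw [steps]
        have h1 : ∀ w, p (x l) w * (1 + steps p k w) ≤
            p (x l) w * ((L + 2) * Φ (x l) + ((L - l : ℕ) + 1)) := by
          intro w
          by_cases hw : p (x l) w = 0
          · rw [hw, zero_mul, zero_mul]
          refine mul_le_mul_right ?_ _
          have hΦ : ((L : ℝ≥0∞) + 2) * Φ w ≤ (L + 2) * Φ (x l) :=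
            mul_le_mul_right (hmono _ _ hw) _
          by_cases hg : good w
          · refine (add_le_add_right (ihA w hg) 1).trans ?_
            rw [add_comm]
            exact add_le_add hΦ (le_add_left le_rfl)
          · have hx' : ∀ i ≤ l + 1, ¬ good ((fun i => if i ≤ l then x i else w) i) := by
              intro i hi
              by_cases h2 : i ≤ l
              · simp only [h2, if_true]
                exact hx i h2
              · simp only [h2, if_false]
                exact hg
            have hp' : ∀ i < l + 1, p ((fun i => if i ≤ l then x i else w) i)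
                ((fun i => if i ≤ l then x i else w) (i + 1)) ≠ 0 := by
              intro i hi
              have h2 : i ≤ l := Nat.lt_succ_iff.1 hi
              simp only [h2, if_true]
              by_cases h3 : i + 1 ≤ l
              · simp only [h3, if_true]
                exact hp i h3
              · have h4 : i = l := by omega
                subst h4
                simp only [h3, if_false]
                exact hw
            have h5 := hbad _ (l + 1) hx' hp'
            have h6 := ihB _ (l + 1) hx' hp'
            have h7 : ¬ (l + 1 ≤ l) := by omega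
            simp only [h7, if_false] at h6
            refine (add_le_add_right h6 1).trans ?_
            have h8 : ((L - l : ℕ) : ℝ≥0∞) = (L - (l + 1) : ℕ) + 1 := by
              have h9 : L - l = (L - (l + 1)) + 1 := by omega
              exact_mod_cast congrArg (Nat.cast : ℕ → ℝ≥0∞) h9
            rw [h8]
            have h10 : 1 + ((L + 2) * Φ w + (((L - (l + 1) : ℕ) : ℝ≥0∞) + 1)) =
                (L + 2) * Φ w + (((L - (l + 1) : ℕ) : ℝ≥0∞) + 1 + 1) := by ring
            rw [h10]
            exact add_le_add_left hΦ _
        refine (ENNReal.tsum_le_tsum h1).trans ?_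
        rw [ENNReal.tsum_mul_right]
        exact (mul_le_mul_left (hmass _) _).trans (by rw [one_mul])
  by_cases hv : good v
  · exact ((key k).1 v hv).trans le_self_add
  · have h1 := (key k).2 (fun _ => v) 0 (fun _ _ => hv) (fun i hi => absurd hi (Nat.not_lt_zero i))
    rw [Nat.sub_zero] at h1
    exact h1

/-- The transition probabilities of the random rule have mass at most one (the sum is over a
set `A` of improving neighbours, each with weight `(|A| + |R|)⁻¹`; `0` if `A` is infinite). -/
theorem Random.mass {P : Set (Pt n)} {c : Pt n} {p : Pt n → Pt n → ℝ≥0∞} (h : Random P c p)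
    (v : Pt n) : ∑' w, p v w ≤ 1 := by
  classical
  set A : Set (Pt n) := {w' | BetterNbr P c v w'} with hA
  set R : Set (Pt n) := {d | BetterRay P c v d} with hR
  set a : ℝ≥0∞ := (((Set.encard A + Set.encard R : ℕ∞) : ℝ≥0∞))⁻¹ with ha
  have h1 : ∑' w, p v w = ∑' w : A, a := by
    rw [tsum_subtype A (fun _ => a)]
    refine tsum_congr fun w => ?_
    rw [h v w]
    by_cases hw : w ∈ A
    · have hw' : BetterNbr P c v w := hw
      rw [Set.indicator_of_mem hw, if_pos hw']
    · have hw' : ¬ BetterNbr P c v w := hw
      rw [Set.indicator_of_notMem hw, if_neg hw']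
  rw [h1, ENNReal.tsum_set_const, ha, ← div_eq_mul_inv]
  refine ENNReal.div_le_of_le_mul ?_
  rw [one_mul]
  exact_mod_cast (le_self_add : A.encard ≤ A.encard + R.encard)

end Pool.Agent.Lib.MP_ab1b6f_lc
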