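import Mathlib

/-!
# `θ`-independent families of vectors  (JOB Lin)

All proofs are elementary. `dst w a W` is the distance from `w a` to the span of the `w k`, `k ∈ W`,
written as an infimum over coefficient vectors; `Ind w S θ` says that each coefficient of a
combination of norm `r` is at most `r / θ`.
-/

namespace Pool.Agent.Lib.MP_ab1b6f_lc

variable {ι V : Type*} [DecidableEq ι] [NormedAddCommGroup V] [NormedSpace ℝ V]

/-- The vectors `w k`, `k ∈ S`, are `θ`-independent. -/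
def Ind (w : ι → V) (S : Finset ι) (θ : ℝ) : Prop :=
  ∀ l : ι → ℝ, ∀ i ∈ S, θ * |l i| ≤ ‖∑ k ∈ S, l k • w k‖

/-- The distance from `w a` to the span of the `w k`, `k ∈ W`. -/
noncomputable def dst (w : ι → V) (a : ι) (W : Finset ι) : ℝ :=
  ⨅ l : ι → ℝ, ‖w a - ∑ k ∈ W, l k • w k‖

/-- (infimum of nonnegative numbers) -/
theorem dst_nonneg (w : ι → V) (a : ι) (W : Finset ι) : 0 ≤ dst w a W :=
  Real.iInf_nonneg fun _ => norm_nonneg _

theorem dst_le (w : ι → V) (a : ι) (W : Finset ι) (l : ι → ℝ) :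
    dst w a W ≤ ‖w a - ∑ k ∈ W, l k • w k‖ :=
  ciInf_le ⟨0, by rintro _ ⟨l, rfl⟩; exact norm_nonneg _⟩ l

theorem le_dst {w : ι → V} {a : ι} {W : Finset ι} {r : ℝ}
    (h : ∀ l : ι → ℝ, r ≤ ‖w a - ∑ k ∈ W, l k • w k‖) : r ≤ dst w a W :=
  le_ciInf h

/-- (coefficients `0`) -/
theorem dst_le_norm (w : ι → V) (a : ι) (W : Finset ι) : dst w a W ≤ ‖w a‖ := by
  have := dst_le w a W (fun _ => 0)
  simpa using this

theorem Ind.mono {w : ι → V} {S : Finset ι} {θ θ' : ℝ} (h : Ind w S θ) (hθ : θ' ≤ θ) :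
    Ind w S θ' := fun l i hi =>
  (mul_le_mul_of_nonneg_right hθ (abs_nonneg _)).trans (h l i hi)

/-- (extend the coefficients by `0`) -/
theorem Ind.subset {w : ι → V} {S T : Finset ι} {θ : ℝ} (h : Ind w S θ) (hT : T ⊆ S) :
    Ind w T θ := by
  intro l i hi
  have h1 := h (fun k => if k ∈ T then l k else 0) i (hT hi)
  have h2 : ∑ k ∈ S, (if k ∈ T then l k else 0) • w k = ∑ k ∈ T, l k • w k := by
    rw [← Finset.sum_subset hT]
    · exact Finset.sum_congr rfl fun k hk => by rw [if_pos hk]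
    · intro k _ hk
      rw [if_neg hk, zero_smul]
  simp only [if_pos hi] at h1
  rwa [h2] at h1

/-- The lower bound for one coefficient. -/
private theorem lin_coef {w : ι → V} {S : Finset ι} {i : ι} (hi : i ∈ S) (l : ι → ℝ) :
    dst w i (S.erase i) * |l i| ≤ ‖∑ k ∈ S, l k • w k‖ := by
  by_cases h0 : l i = 0
  · rw [h0, abs_zero, mul_zero]
    exact norm_nonneg _
  · have h1 := dst_le w i (S.erase i) (fun k => -(l k / l i))
    have h2 : ∑ k ∈ S, l k • w k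
        = l i • (w i - ∑ k ∈ S.erase i, (-(l k / l i)) • w k) := by
      rw [← Finset.add_sum_erase S _ hi, smul_sub, sub_eq_add_neg, Finset.smul_sum,
        ← Finset.sum_neg_distrib]
      congr 1
      refine Finset.sum_congr rfl fun k _ => ?_
      rw [smul_smul, ← neg_smul]
      congr 1
      field_simp
    rw [h2, norm_smul, Real.norm_eq_abs, mul_comm]
    exact mul_le_mul_of_nonneg_left h1 (abs_nonneg _)

/-- If `l i ≠ 0` then `‖∑ l k w k‖ = |l i| ‖w i - ∑_{k ≠ i} (- l k / l i) w k‖`. -/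
theorem ind_of_dst {w : ι → V} {S : Finset ι} {θ : ℝ} (h : ∀ i ∈ S, θ ≤ dst w i (S.erase i)) :
    Ind w S θ := fun l i hi =>
  (mul_le_mul_of_nonneg_right (h i hi) (abs_nonneg _)).trans (lin_coef hi l)

/-- Coefficient `1` at `i`. -/
theorem Ind.le_dst {w : ι → V} {S : Finset ι} {θ : ℝ} (h : Ind w S θ) {i : ι} (hi : i ∈ S) :
    θ ≤ dst w i (S.erase i) := by
  refine Pool.Agent.Lib.MP_ab1b6f_lc.le_dst fun l => ?_
  have h1 := h (fun k => if k = i then 1 else - l k) i hi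
  have h2 : ∑ k ∈ S, (if k = i then 1 else - l k) • w k
      = w i - ∑ k ∈ S.erase i, l k • w k := by
    rw [← Finset.add_sum_erase S _ hi, sub_eq_add_neg, ← Finset.sum_neg_distrib]
    congr 1
    · simp
    · refine Finset.sum_congr rfl fun k hk => ?_
      rw [if_neg (Finset.ne_of_mem_erase hk), neg_smul]
  simp only [if_true, abs_one, mul_one] at h1
  rwa [h2] at h1

/-- Adding one vector. Let `v = ∑_{k ∈ O} l k w k + l a w a`, `D = dst w a O ≤ R`. Then `‖v‖ ≥ |l a| D`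
(case `l a ≠ 0`, divide by `l a`) and `‖v‖ ≥ θ |l i| - |l a| R` for `i ∈ O`. If
`|l a| R ≤ θ |l i| / 2` the second gives `‖v‖ ≥ θ |l i| / 2 ≥ θ D |l i| / (2R)`, else the first gives
`‖v‖ ≥ |l a| D ≥ θ D |l i| / (2R)`. For the index `a` itself use `θ ≤ 2R`. -/
theorem Ind.insert {w : ι → V} {O : Finset ι} {θ R : ℝ} {a : ι} (h : Ind w O θ) (ha : a ∉ O)
    (hθ : 0 ≤ θ) (hR : 0 < R) (hθR : θ ≤ 2 * R) (hw : ‖w a‖ ≤ R) :
    Ind w (insert a O) (θ * dst w a O / (2 * R)) := by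
  intro l i hi
  have hD0 : 0 ≤ dst w a O := dst_nonneg w a O
  have hDR : dst w a O ≤ R := (dst_le_norm w a O).trans hw
  have h1 : dst w a O * |l a| ≤ ‖∑ k ∈ Insert.insert a O, l k • w k‖ := by
    have := lin_coef (w := w) (Finset.mem_insert_self a O) l
    rwa [Finset.erase_insert ha] at this
  have h2 : ∑ k ∈ Insert.insert a O, l k • w k = l a • w a + ∑ k ∈ O, l k • w k :=
    Finset.sum_insert ha
  set v := ∑ k ∈ Insert.insert a O, l k • w k with hv
  have hR2 : (0 : ℝ) < 2 * R := by linarith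
  rcases Finset.mem_insert.1 hi with rfl | hi
  · calc θ * dst w i O / (2 * R) * |l i| = (θ / (2 * R)) * (dst w i O * |l i|) := by ring
      _ ≤ 1 * (dst w i O * |l i|) := by
          refine mul_le_mul_of_nonneg_right ?_ (mul_nonneg hD0 (abs_nonneg _))
          rwa [div_le_one hR2]
      _ = dst w i O * |l i| := one_mul _
      _ ≤ ‖v‖ := h1
  · have h3 : θ * |l i| ≤ ‖∑ k ∈ O, l k • w k‖ := h l i hi
    have h4 : ‖∑ k ∈ O, l k • w k‖ ≤ ‖v‖ + |l a| * R := by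
      have h5 : ∑ k ∈ O, l k • w k = v - l a • w a := by rw [h2]; abel
      rw [h5]
      refine (norm_sub_le _ _).trans ?_
      rw [norm_smul, Real.norm_eq_abs]
      gcongr
    have h6 : 0 ≤ |l i| := abs_nonneg _
    have h7 : 0 ≤ |l a| := abs_nonneg _
    rw [div_mul_eq_mul_div, div_le_iff₀ hR2]
    rcases le_or_gt (|l a| * R) (θ * |l i| / 2) with h8 | h8
    · have h9 : θ * |l i| / 2 ≤ ‖v‖ := by linarith
      have h10 : θ * |l i| * dst w a O ≤ θ * |l i| * R :=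
        mul_le_mul_of_nonneg_left hDR (mul_nonneg hθ h6)
      nlinarith
    · have h9 : dst w a O * (θ * |l i| / 2) ≤ dst w a O * (|l a| * R) :=
        mul_le_mul_of_nonneg_left h8.le hD0
      have h10 : dst w a O * |l a| * R ≤ ‖v‖ * R := mul_le_mul_of_nonneg_right h1 hR.le
      nlinarith

/-- Passing from the non-fixed indices to all indices. `F` is the set of fixed indices, on which the
family is `1`-independent. Let `v = ∑_{k ∈ S} l k w k`. For `i ∈ S \ F`: `‖v‖ ≥ θ |l i|`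
(as in `ind_of_dst`). For `f ∈ S ∩ F`: `|l f| ≤ ‖∑_{k ∈ S ∩ F} l k w k‖ ≤ ‖v‖ + ∑_{i ∈ S \ F} |l i| R
≤ ‖v‖ (1 + N R / θ) ≤ ‖v‖ 2 N R / θ`. -/
theorem ind_of_fixed {w : ι → V} {S F : Finset ι} {θ R : ℝ} {N : ℕ} (hN : S.card ≤ N)
    (hR : 1 ≤ R) (hθ : 0 < θ) (hθN : θ ≤ N * R)
    (hF : Ind w (S ∩ F) 1) (hw : ∀ i ∈ S \ F, ‖w i‖ ≤ R)
    (h : ∀ i ∈ S \ F, θ ≤ dst w i (S.erase i)) :
    Ind w S (θ / (2 * N * R)) := by
  intro l i hi
  set v := ∑ k ∈ S, l k • w k with hv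
  have hNR : 0 < (N : ℝ) * R := lt_of_lt_of_le hθ hθN
  have hNR2 : 0 < 2 * (N : ℝ) * R := by linarith
  have h1 : ∀ j ∈ S \ F, θ * |l j| ≤ ‖v‖ := fun j hj =>
    (mul_le_mul_of_nonneg_right (h j hj) (abs_nonneg _)).trans
      (lin_coef (Finset.mem_sdiff.1 hj).1 l)
  rw [div_mul_eq_mul_div, div_le_iff₀ hNR2]
  have hv0 : 0 ≤ ‖v‖ := norm_nonneg _
  by_cases hiF : i ∈ F
  · have h2 : 1 * |l i| ≤ ‖∑ k ∈ S ∩ F, l k • w k‖ := hF l i (Finset.mem_inter.2 ⟨hi, hiF⟩)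
    have h3 : v = ∑ k ∈ S ∩ F, l k • w k + ∑ k ∈ S \ F, l k • w k := by
      rw [hv, Finset.sum_inter_add_sum_sdiff]
    have h4 : ∑ k ∈ S ∩ F, l k • w k = v - ∑ k ∈ S \ F, l k • w k := by
      rw [h3]; abel
    have h5 : ‖∑ k ∈ S \ F, l k • w k‖ ≤ N * (‖v‖ / θ * R) := by
      refine (norm_sum_le _ _).trans ?_
      have h6 : ∀ k ∈ S \ F, ‖l k • w k‖ ≤ ‖v‖ / θ * R := by
        intro k hk
        rw [norm_smul, Real.norm_eq_abs]
        have h7 : |l k| ≤ ‖v‖ / θ := by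
          rw [le_div_iff₀ hθ, mul_comm]
          exact h1 k hk
        exact mul_le_mul h7 (hw k hk) (norm_nonneg _) (div_nonneg hv0 hθ.le)
      refine (Finset.sum_le_card_nsmul _ _ _ h6).trans ?_
      rw [nsmul_eq_mul]
      refine mul_le_mul_of_nonneg_right ?_
        (mul_nonneg (div_nonneg hv0 hθ.le) (zero_le_one.trans hR))
      exact_mod_cast (Finset.card_le_card Finset.sdiff_subset).trans hN
    have h6 : |l i| ≤ ‖v‖ + N * (‖v‖ / θ * R) := by
      rw [one_mul, h4] at h2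
      exact h2.trans ((norm_sub_le _ _).trans (by linarith))
    have h7 : θ * |l i| ≤ θ * (‖v‖ + N * (‖v‖ / θ * R)) := mul_le_mul_of_nonneg_left h6 hθ.le
    have h8 : θ * (‖v‖ + N * (‖v‖ / θ * R)) = θ * ‖v‖ + ‖v‖ * (N * R) := by
      field_simp
    have h9 : θ * ‖v‖ ≤ N * R * ‖v‖ := mul_le_mul_of_nonneg_right hθN hv0
    calc θ * |l i| ≤ θ * ‖v‖ + ‖v‖ * (N * R) := h7.trans h8.le
      _ ≤ N * R * ‖v‖ + ‖v‖ * (N * R) := by linarith
      _ = ‖v‖ * (2 * N * R) := by ring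
  · have h2 := h1 i (Finset.mem_sdiff.2 ⟨hi, hiF⟩)
    have hcard : 1 ≤ (N : ℝ) := by
      have : 0 < S.card := Finset.card_pos.2 ⟨i, hi⟩
      exact_mod_cast this.trans_le hN
    have h3 : 1 ≤ 2 * (N : ℝ) * R := by nlinarith
    calc θ * |l i| ≤ ‖v‖ * 1 := by linarith
      _ ≤ ‖v‖ * (2 * N * R) := mul_le_mul_of_nonneg_left h3 hv0

end Pool.Agent.Lib.MP_ab1b6f_lc
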