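import Mathlib
import Pool.Agent.Lib.MP_ab1b6f_lc.Lin

/-!
# Cores and reachable sets  (JOB Core)
-/

namespace Pool.Agent.Lib.MP_ab1b6f_lc

variable {ι V : Type*} [DecidableEq ι] [NormedAddCommGroup V] [NormedSpace ℝ V]

/-- The threshold `θ_s = b ^ ((N - s) κ - K)` for sets of size `s ≤ N`. -/
noncomputable def th (b : ℝ) (N K κ s : ℕ) : ℝ := b ^ ((N - s) * κ) / b ^ K

/-- `Reach w rnd S0 Q n k U p`: the set `U` is obtained from `S0` by adding successively `k` elements
`a` of `rnd`, for each of which a subset `W` of the set already reached is chosen, of size at most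
`n`, whose complement in the set already reached has at most `Q` elements; `p` is the product
of the distances `dst w a W`. -/
inductive Reach (w : ι → V) (rnd S0 : Finset ι) (Q n : ℕ) : ℕ → Finset ι → ℝ → Prop
  | zero : Reach w rnd S0 Q n 0 S0 1
  | succ {k : ℕ} {U : Finset ι} {p : ℝ} {a : ι} {W : Finset ι} (h : Reach w rnd S0 Q n k U p)
      (ha : a ∈ rnd) (haU : a ∉ U) (hW : W ⊆ U) (hQ : (U \ W).card ≤ Q) (hn : W.card ≤ n) :
      Reach w rnd S0 Q n (k + 1) (insert a U) (p * dst w a W)

theorem Reach.nonneg {w : ι → V} {rnd S0 : Finset ι} {Q n k : ℕ} {U : Finset ι} {p : ℝ}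
    (h : Reach w rnd S0 Q n k U p) : 0 ≤ p := by
  induction h with
  | zero => exact zero_le_one
  | succ h ha haU hW hQ hn ih => exact mul_nonneg ih (dst_nonneg _ _ _)

theorem Reach.subset {w : ι → V} {rnd S0 : Finset ι} {Q n k : ℕ} {U : Finset ι} {p : ℝ}
    (h : Reach w rnd S0 Q n k U p) : S0 ⊆ U := by
  induction h with
  | zero => exact Finset.Subset.refl _
  | succ h ha haU hW hQ hn ih => exact ih.trans (Finset.subset_insert _ _)

theorem Reach.card {w : ι → V} {rnd S0 : Finset ι} {Q n k : ℕ} {U : Finset ι} {p : ℝ}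
    (h : Reach w rnd S0 Q n k U p) : U.card = S0.card + k := by
  induction h with
  | zero => rfl
  | succ h ha haU hW hQ hn ih => rw [Finset.card_insert_of_notMem haU, ih]; omega

/-- A minimal bad subset: take `C ⊆ J` of smallest cardinality with `N ≤ |C| + 2δ + 2` and
`¬ Ind w C θ_{|C|}` (the set `J` is a candidate). -/
theorem exists_core {w : ι → V} {J : Finset ι} {b : ℝ} {N K κ δ : ℕ} (hJ : J.card = N)
    (h : ¬ Ind w J (th b N K κ N)) :
    ∃ C ⊆ J, N ≤ C.card + 2 * δ + 2 ∧ ¬ Ind w C (th b N K κ C.card) ∧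
      ∀ O ⊂ C, N ≤ O.card + 2 * δ + 2 → Ind w O (th b N K κ O.card) := by
  classical
  obtain ⟨C, hC, hmin⟩ := Finset.exists_min_image
    (J.powerset.filter fun C => N ≤ C.card + 2 * δ + 2 ∧ ¬ Ind w C (th b N K κ C.card))
    Finset.card ⟨J, by
      simp only [Finset.mem_filter, Finset.mem_powerset, Finset.Subset.refl, true_and]
      exact ⟨by omega, by rw [hJ]; exact h⟩⟩
  simp only [Finset.mem_filter, Finset.mem_powerset] at hC
  refine ⟨C, hC.1, hC.2.1, hC.2.2, fun O hO hN => ?_⟩
  by_contra hno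
  have h1 := hmin O (by
    simp only [Finset.mem_filter, Finset.mem_powerset]
    exact ⟨hO.1.trans hC.1, hN, hno⟩)
  have h2 := Finset.card_lt_card hO
  omega

/-- Extending a reachable set by a core `C`. Put `O = C ∩ U`. Prove by induction on the finset
`A ⊆ C \ U` that there is `pA ≥ 0` with `Reach (k + |A|) (U ∪ A) (p * pA)` and
`Ind w (O ∪ A) (θO * pA / (2R)^|A|)` (step: `a ∉ A`, take `W = O ∪ A` and use `Ind.insert`; the bound
`θO * pA / (2R)^|A| ≤ 2R` holds because `Ind w (O ∪ A) θ` with a nonempty set gives `θ ≤ ‖w i‖`;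
for the empty set it is `θO ≤ 1 ≤ 2R`, or simply: `pA ≤ R^|A|` by `dst_le_norm`; here `|W| ≤ n` since
`W` is a proper subset of `C`). For `A = C \ U` compare with `¬ Ind w C θC`. -/
theorem Reach.extend {w : ι → V} {rnd S0 : Finset ι} {Q n k : ℕ} {U C : Finset ι} {p θO θC R : ℝ}
    (h : Reach w rnd S0 Q n k U p) (hrnd : C \ U ⊆ rnd) (hR : 1 ≤ R)
    (hw : ∀ i ∈ rnd, ‖w i‖ ≤ R) (hC : C.card ≤ n + 1) (hQ : (U \ C).card ≤ Q)
    (hO : Ind w (C ∩ U) θO) (hθO : 0 ≤ θO) (hθ1 : θO ≤ 1) (hCb : ¬ Ind w C θC) :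
    ∃ pA : ℝ, 0 ≤ pA ∧ Reach w rnd S0 Q n (k + (C \ U).card) (U ∪ C) (p * pA) ∧
      θO * pA ≤ θC * (2 * R) ^ (C \ U).card := by
  have key : ∀ A : Finset ι, A ⊆ C \ U → ∃ pA : ℝ, 0 ≤ pA ∧ pA ≤ R ^ A.card ∧
      Reach w rnd S0 Q n (k + A.card) (U ∪ A) (p * pA) ∧
      Ind w ((C ∩ U) ∪ A) (θO * pA / (2 * R) ^ A.card) := by
    intro A
    induction A using Finset.induction_on with
    | empty =>
      intro _
      refine ⟨1, zero_le_one, by simp, ?_, ?_⟩
      · simpa using h
      · simpa using hO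
    | insert a A haA ih =>
      intro hsub
      have hAsub : A ⊆ C \ U := (Finset.subset_insert _ _).trans hsub
      have haC : a ∈ C \ U := hsub (Finset.mem_insert_self _ _)
      rw [Finset.mem_sdiff] at haC
      obtain ⟨pA, h0, h1, h2, h3⟩ := ih hAsub
      have haW : a ∉ (C ∩ U) ∪ A := by
        rw [Finset.mem_union, Finset.mem_inter]
        rintro (h | h)
        · exact haC.2 h.2
        · exact haA h
      have haUA : a ∉ U ∪ A := by
        rw [Finset.mem_union]
        rintro (h | h)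
        · exact haC.2 h
        · exact haA h
      have hWsub : (C ∩ U) ∪ A ⊆ U ∪ A :=
        Finset.union_subset_union_left Finset.inter_subset_right
      have hWC : (C ∩ U) ∪ A ⊆ C.erase a := by
        intro x hx
        rw [Finset.mem_erase]
        refine ⟨fun hxa => haW (hxa ▸ hx), ?_⟩
        rw [Finset.mem_union, Finset.mem_inter] at hx
        rcases hx with hx | hx
        · exact hx.1
        · exact (Finset.mem_sdiff.1 (hAsub hx)).1
      have hWcard : ((C ∩ U) ∪ A).card ≤ n := by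
        have h4 := Finset.card_le_card hWC
        rw [Finset.card_erase_of_mem haC.1] at h4
        omega
      have hQcard : ((U ∪ A) \ ((C ∩ U) ∪ A)).card ≤ Q := by
        refine (Finset.card_le_card ?_).trans hQ
        intro x hx
        simp only [Finset.mem_sdiff, Finset.mem_union, Finset.mem_inter] at hx ⊢
        tauto
      have hR0 : 0 < R := lt_of_lt_of_le one_pos hR
      have hwa : ‖w a‖ ≤ R := hw a (hrnd (Finset.mem_sdiff.2 haC))
      have hd0 := dst_nonneg w a ((C ∩ U) ∪ A)
      have hd1 : dst w a ((C ∩ U) ∪ A) ≤ R := (dst_le_norm w a _).trans hwa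
      refine ⟨pA * dst w a ((C ∩ U) ∪ A), mul_nonneg h0 hd0, ?_, ?_, ?_⟩
      · rw [Finset.card_insert_of_notMem haA, pow_succ]
        exact mul_le_mul h1 hd1 hd0 (by positivity)
      · have h5 := Reach.succ h2 (hrnd (Finset.mem_sdiff.2 haC)) haUA hWsub hQcard hWcard
        rw [Finset.card_insert_of_notMem haA, Finset.union_insert, ← mul_assoc]
        exact h5
      · have hθ' : θO * pA / (2 * R) ^ A.card ≤ 2 * R := by
          rw [div_le_iff₀ (by positivity)]
          have h6 : R ^ A.card ≤ (2 * R) ^ A.card :=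
            pow_le_pow_left₀ hR0.le (by linarith) _
          have h7 : (0 : ℝ) < (2 * R) ^ A.card := by positivity
          calc θO * pA ≤ 1 * R ^ A.card := mul_le_mul hθ1 h1 h0 zero_le_one
            _ = R ^ A.card := one_mul _
            _ ≤ (2 * R) ^ A.card := h6
            _ ≤ 2 * R * (2 * R) ^ A.card := le_mul_of_one_le_left h7.le (by linarith)
        have h8 := Ind.insert h3 haW (by positivity) hR0 hθ' hwa
        rw [Finset.card_insert_of_notMem haA, Finset.union_insert]
        convert h8 using 1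
        rw [pow_succ]
        field_simp
  obtain ⟨pA, h0, _, h2, h3⟩ := key (C \ U) (Finset.Subset.refl _)
  have e1 : U ∪ C \ U = U ∪ C := Finset.union_sdiff_self_eq_union
  have e2 : C ∩ U ∪ C \ U = C := by
    ext x
    simp only [Finset.mem_sdiff, Finset.mem_union, Finset.mem_inter]
    tauto
  rw [e1] at h2
  rw [e2] at h3
  refine ⟨pA, h0, h2, ?_⟩
  by_contra hcon
  push Not at hcon
  apply hCb
  apply h3.mono
  rw [le_div_iff₀ (by positivity)]
  exact hcon.le

end Pool.Agent.Lib.MP_ab1b6f_lc
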