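import Mathlib

/-!
# Counting  (JOB Count)
-/

namespace Pool.Agent.Lib.MP_ab1b6f_lc

/-- The number of subsets of `A` with at most `r` elements is at most `(|A| + 1) ^ r` (such a subset is
the image of a map `Fin r → Option A`, or induction on `r`: a subset with at most `r + 1` elements is
`insert x E` or `E` with `|E| ≤ r`). -/
theorem card_small_subsets {ι : Type*} [DecidableEq ι] (A : Finset ι) (r : ℕ) :
    (A.powerset.filter (fun E => E.card ≤ r)).card ≤ (A.card + 1) ^ r := by
  induction r with
  | zero =>
    rw [pow_zero]
    rw [Finset.card_le_one]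
    intro E hE F hF
    rw [Finset.mem_filter] at hE hF
    rw [Finset.card_eq_zero.mp (Nat.le_zero.mp hE.2), Finset.card_eq_zero.mp (Nat.le_zero.mp hF.2)]
  | succ r ih =>
    have hsub : A.powerset.filter (fun E => E.card ≤ r + 1) ⊆
        (A.powerset.filter (fun E => E.card ≤ r)).biUnion
          (fun E => insert E (A.image (fun x => insert x E))) := by
      intro E hE
      rw [Finset.mem_filter, Finset.mem_powerset] at hE
      rw [Finset.mem_biUnion]
      rcases E.eq_empty_or_nonempty with rfl | ⟨x, hx⟩
      · exact ⟨∅, by simp, by simp⟩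
      · refine ⟨E.erase x, ?_, ?_⟩
        · rw [Finset.mem_filter, Finset.mem_powerset, Finset.card_erase_of_mem hx]
          exact ⟨(Finset.erase_subset x E).trans hE.1, by omega⟩
        · rw [Finset.mem_insert, Finset.mem_image]
          right
          exact ⟨x, hE.1 hx, Finset.insert_erase hx⟩
    refine (Finset.card_le_card hsub).trans ?_
    have h1 := Finset.card_biUnion_le_card_mul (A.powerset.filter (fun E => E.card ≤ r))
      (fun E => insert E (A.image (fun x => insert x E))) (A.card + 1) (by
        intro E _
        refine (Finset.card_insert_le _ _).trans ?_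
        have := Finset.card_image_le (s := A) (f := fun x => insert x E)
        omega)
    refine h1.trans ?_
    rw [pow_succ]
    exact Nat.mul_le_mul_right _ ih

/-- Subsets of `A` whose complement in `A` has at most `r` elements (use the complement). -/
theorem card_large_subsets {ι : Type*} [DecidableEq ι] (A : Finset ι) (r : ℕ) :
    (A.powerset.filter (fun E => (A \ E).card ≤ r)).card ≤ (A.card + 1) ^ r := by
  refine le_trans ?_ (card_small_subsets A r)
  refine Finset.card_le_card_of_injOn (fun E => A \ E) ?_ ?_
  · intro E hE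
    rw [Finset.mem_coe, Finset.mem_filter, Finset.mem_powerset] at hE
    rw [Finset.mem_coe, Finset.mem_filter, Finset.mem_powerset]
    exact ⟨Finset.sdiff_subset, hE.2⟩
  · intro E hE F hF h
    rw [Finset.mem_coe, Finset.mem_filter, Finset.mem_powerset] at hE hF
    have h' : A \ E = A \ F := h
    rw [← Finset.sdiff_sdiff_eq_self hE.1, h', Finset.sdiff_sdiff_eq_self hF.1]

/-- Number of distinct `B t`. With `J = insert (l t) (B t)`, the set `B t = (C ∪ (J \ C)).erase (l t)` is
determined by `C` (a subset of `U` whose complement in `U` has at most `X + δ` elements), by `J \ C`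
(a set of at most `δ` elements) and by `l t`. -/
theorem walk_count {ι : Type*} [DecidableEq ι] [Fintype ι] {n δ X L : ℕ} (hδ : 1 ≤ δ)
    (U : Finset ι) (hU : U.card ≤ n + 2 + X)
    (B : ℕ → Finset ι) (l : ℕ → ι)
    (hcard : ∀ t ≤ L, (B t).card = n) (hl : ∀ t ≤ L, l t ∉ B t)
    (hinj : ∀ s ≤ L, ∀ t ≤ L, B s = B t → s = t)
    (hC : ∀ t ≤ L, ∃ C ⊆ insert (l t) (B t), C ⊆ U ∧ n + 2 ≤ C.card + δ) :
    L + 1 ≤ (n + 3 + X) ^ (X + δ) * (Fintype.card ι + 1) ^ δ * Fintype.card ι := by
  choose! C hC1 hC2 hC3 using hC
  set P : Finset (Finset ι) := U.powerset.filter (fun E => (U \ E).card ≤ X + δ) with hP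
  set Q : Finset (Finset ι) := (Finset.univ : Finset ι).powerset.filter (fun E => E.card ≤ δ)
    with hQ
  have hPc : P.card ≤ (n + 3 + X) ^ (X + δ) :=
    (card_large_subsets U (X + δ)).trans (Nat.pow_le_pow_left (by omega) _)
  have hQc : Q.card ≤ (Fintype.card ι + 1) ^ δ := card_small_subsets _ _
  have hmain : (Finset.range (L + 1)).card ≤ ((P ×ˢ Q) ×ˢ (Finset.univ : Finset ι)).card := by
    refine Finset.card_le_card_of_injOn
      (fun t => ((C t, insert (l t) (B t) \ C t), l t)) ?_ ?_
    · intro t ht
      rw [Finset.mem_coe, Finset.mem_range] at ht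
      have htL : t ≤ L := by omega
      have h1 : (insert (l t) (B t)).card = n + 1 := by
        rw [Finset.card_insert_of_notMem (hl t htL), hcard t htL]
      rw [Finset.mem_coe, Finset.mem_product, Finset.mem_product]
      refine ⟨⟨?_, ?_⟩, Finset.mem_univ _⟩
      · rw [hP, Finset.mem_filter, Finset.mem_powerset]
        refine ⟨hC2 t htL, ?_⟩
        have h2 := Finset.card_sdiff_add_card_eq_card (hC2 t htL)
        have h3 := hC3 t htL
        change (U \ C t).card ≤ X + δ
        omega
      · rw [hQ, Finset.mem_filter, Finset.mem_powerset]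
        refine ⟨Finset.subset_univ _, ?_⟩
        have h2 := Finset.card_sdiff_add_card_eq_card (hC1 t htL)
        have h3 := hC3 t htL
        change (insert (l t) (B t) \ C t).card ≤ δ
        omega
    · intro s hs t ht hst
      rw [Finset.mem_coe, Finset.mem_range] at hs ht
      simp only [Prod.mk.injEq] at hst
      obtain ⟨⟨h1, h2⟩, h3⟩ := hst
      have hsL : s ≤ L := by omega
      have htL : t ≤ L := by omega
      apply hinj s hsL t htL
      have e1 : insert (l s) (B s) = insert (l t) (B t) := by
        rw [← Finset.sdiff_union_of_subset (hC1 s hsL), h2, h1,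
          Finset.sdiff_union_of_subset (hC1 t htL)]
      rw [← Finset.erase_insert (hl s hsL), e1, h3, Finset.erase_insert (hl t htL)]
  rw [Finset.card_range, Finset.card_product, Finset.card_product, Finset.card_univ] at hmain
  refine hmain.trans ?_
  exact Nat.mul_le_mul_right _ (Nat.mul_le_mul hPc hQc)

end Pool.Agent.Lib.MP_ab1b6f_lc
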