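import Mathlib

/-!
# The potential function  (JOB Phi)
-/

open scoped ENNReal

namespace Pool.Agent.Lib.MP_ab1b6f_lc

/-- The potential as a function of the gap `Δ`. -/
noncomputable def phi (d ρ : ℝ) (n : ℕ) (Δ : ℝ) : ℝ :=
  if Δ < 0 then 0 else if Δ < d then 1 else 2 + n / ρ * Real.log (Δ / d)

private theorem Phi_log_nonneg {d ρ : ℝ} (hd : 0 < d) (hρ : 0 < ρ) (n : ℕ) {Δ : ℝ} (h : d ≤ Δ) :
    0 ≤ n / ρ * Real.log (Δ / d) := by
  have h1 : 1 ≤ Δ / d := (one_le_div hd).mpr h
  have := Real.log_nonneg h1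
  positivity

theorem phi_nonneg {d ρ : ℝ} (hd : 0 < d) (hρ : 0 < ρ) (n : ℕ) (Δ : ℝ) : 0 ≤ phi d ρ n Δ := by
  unfold phi
  split_ifs with h1 h2
  · exact le_rfl
  · exact zero_le_one
  · have := Phi_log_nonneg hd hρ n (not_lt.mp h2)
    linarith

theorem phi_mono {d ρ : ℝ} (hd : 0 < d) (hρ : 0 < ρ) (n : ℕ) : Monotone (phi d ρ n) := by
  intro x y hxy
  by_cases hx0 : x < 0
  · have h1 : phi d ρ n x = 0 := by
      unfold phi
      rw [if_pos hx0]
    rw [h1]
    exact phi_nonneg hd hρ n y
  · by_cases hxd : x < d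
    · have h1 : phi d ρ n x = 1 := by
        unfold phi
        rw [if_neg hx0, if_pos hxd]
      rw [h1]
      unfold phi
      rw [if_neg (by linarith)]
      split_ifs with h2
      · exact le_rfl
      · have := Phi_log_nonneg hd hρ n (not_lt.mp h2)
        linarith
    · push Not at hx0 hxd
      unfold phi
      rw [if_neg (by linarith), if_neg (by linarith), if_neg (by linarith), if_neg (by linarith)]
      have h1 : Real.log (x / d) ≤ Real.log (y / d) := by
        apply Real.log_le_log (div_pos (by linarith) hd)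
        exact div_le_div_of_nonneg_right hxy hd.le
      have h2 : (0 : ℝ) ≤ n / ρ := by positivity
      have := mul_le_mul_of_nonneg_left h1 h2
      linarith

/-- One step of the potential. Cases: (1) `Δ0 < d`: then all `Δ w < 0` and the left side is the mass.
(2) `d ≤ Δ0`, `(1 - ρ) Δ0 < d`: then `Δ w ≤ Δ0 - d < d`, so `phi (Δ w) ≤ 1` and the left side is
at most `2 ≤ phi Δ0`. (3) `d ≤ (1 - ρ) Δ0`: if `Δ w ≤ (1 - ρ) Δ0` then
`phi (Δ w) ≤ 2 + n/ρ log ((1-ρ) Δ0 / d) ≤ phi Δ0 - n` (`log (1 - ρ) ≤ - ρ`), otherwise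
`phi (Δ w) ≤ phi Δ0`. With `s` the total mass and `r ≤ 1 - 1/n` the slow mass (the sum over
`(1 - ρ) Δ0 < Δ w`) the left side is at most `s (1 + phi Δ0) - (s - r) n ≤ s (1 + phi Δ0 - n) + n - 1 ≤
phi Δ0` because `s ≤ 1` and `phi Δ0 ≥ 2 + n`. -/
theorem phi_step {α : Type*} (p : α → ℝ≥0∞) (Δ : α → ℝ) {Δ0 d ρ : ℝ} {n : ℕ} (hn : 1 ≤ n)
    (hd : 0 < d) (hρ : 0 < ρ) (hρ2 : ρ ≤ 1 / 2) (h0 : 0 ≤ Δ0) (hmass : ∑' w, p w ≤ 1)
    (hstep : ∀ w, p w ≠ 0 → Δ w ≤ Δ0 - d)
    (hslow : d ≤ Δ0 → ∑' w, (if (1 - ρ) * Δ0 < Δ w then p w else 0) ≤ 1 - (n : ℝ≥0∞)⁻¹) :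
    ∑' w, p w * (1 + ENNReal.ofReal (phi d ρ n (Δ w))) ≤ ENNReal.ofReal (phi d ρ n Δ0) := by
  have hone : ∀ x : ℝ, 0 ≤ x → 1 + ENNReal.ofReal x = ENNReal.ofReal (1 + x) := fun x hx => by
    rw [ENNReal.ofReal_add zero_le_one hx, ENNReal.ofReal_one]
  by_cases h1 : Δ0 < d
  · -- case 1
    have e1 : phi d ρ n Δ0 = 1 := by
      unfold phi
      rw [if_neg (by linarith), if_pos h1]
    rw [e1, ENNReal.ofReal_one]
    refine le_trans (ENNReal.tsum_le_tsum fun w => ?_) hmass
    by_cases hp : p w = 0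
    · rw [hp, zero_mul]
    · have h2 := hstep w hp
      have e2 : phi d ρ n (Δ w) = 0 := by
        unfold phi
        rw [if_pos (by linarith)]
      rw [e2, ENNReal.ofReal_zero, add_zero, mul_one]
  · push Not at h1
    have hΦ : phi d ρ n Δ0 = 2 + n / ρ * Real.log (Δ0 / d) := by
      unfold phi
      rw [if_neg (by linarith), if_neg (by linarith)]
    have hΦ2 : 2 ≤ phi d ρ n Δ0 := by
      rw [hΦ]
      have := Phi_log_nonneg hd hρ n h1
      linarith
    by_cases h2 : (1 - ρ) * Δ0 < d
    · -- case 2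
      have h3 : Δ0 < 2 * d := by nlinarith
      calc ∑' w, p w * (1 + ENNReal.ofReal (phi d ρ n (Δ w))) ≤ ∑' w, p w * 2 := by
            refine ENNReal.tsum_le_tsum fun w => ?_
            by_cases hp : p w = 0
            · rw [hp, zero_mul, zero_mul]
            · have h4 := hstep w hp
              have h5 : phi d ρ n (Δ w) ≤ 1 := by
                unfold phi
                split_ifs with h6 h7
                · exact zero_le_one
                · exact le_rfl
                · exact absurd (by linarith) h7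
              gcongr
              calc (1 : ℝ≥0∞) + ENNReal.ofReal (phi d ρ n (Δ w)) ≤ 1 + ENNReal.ofReal 1 := by
                    gcongr
                _ = 2 := by rw [ENNReal.ofReal_one]; norm_num
        _ = (∑' w, p w) * 2 := ENNReal.tsum_mul_right
        _ ≤ 1 * 2 := by gcongr
        _ = ENNReal.ofReal 2 := by rw [one_mul]; norm_num
        _ ≤ _ := ENNReal.ofReal_le_ofReal hΦ2
    · -- case 3
      push Not at h2
      set Φ : ℝ := phi d ρ n Δ0 with hΦdef
      have hΔ0 : 0 < Δ0 := by linarith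
      have hρ1 : 0 < 1 - ρ := by linarith
      have hn0 : (0 : ℝ) < n := by exact_mod_cast hn
      have hfast : phi d ρ n ((1 - ρ) * Δ0) ≤ Φ - n := by
        rw [hΦ]
        unfold phi
        rw [if_neg (by nlinarith), if_neg (by linarith)]
        have e1 : Real.log ((1 - ρ) * Δ0 / d) = Real.log (1 - ρ) + Real.log (Δ0 / d) := by
          rw [mul_div_assoc, Real.log_mul hρ1.ne' (div_pos hΔ0 hd).ne']
        have e2 : Real.log (1 - ρ) ≤ -ρ := by
          have := Real.log_le_sub_one_of_pos hρ1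
          linarith
        have e3 : (n : ℝ) / ρ * Real.log (1 - ρ) ≤ n / ρ * (-ρ) :=
          mul_le_mul_of_nonneg_left e2 (by positivity)
        have e4 : (n : ℝ) / ρ * (-ρ) = -n := by field_simp
        rw [e1]
        linarith
      have hge : 2 ≤ phi d ρ n ((1 - ρ) * Δ0) := by
        unfold phi
        rw [if_neg (by nlinarith), if_neg (by linarith)]
        have := Phi_log_nonneg hd hρ n h2
        linarith
      set A : ℝ := 1 + (Φ - n) with hA
      have hA0 : 0 ≤ A := by linarith
      have hterm : ∀ w, p w * (1 + ENNReal.ofReal (phi d ρ n (Δ w))) ≤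
          p w * ENNReal.ofReal A +
            (if (1 - ρ) * Δ0 < Δ w then p w else 0) * ENNReal.ofReal n := by
        intro w
        by_cases hp : p w = 0
        · rw [hp, zero_mul]
          exact zero_le
        · rw [hone _ (phi_nonneg hd hρ n _)]
          by_cases hs : (1 - ρ) * Δ0 < Δ w
          · rw [if_pos hs, ← mul_add, ← ENNReal.ofReal_add hA0 hn0.le]
            refine mul_le_mul_right (ENNReal.ofReal_le_ofReal ?_) _
            have h4 : phi d ρ n (Δ w) ≤ Φ := by
              rw [hΦdef]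
              apply phi_mono hd hρ n
              have := hstep w hp
              linarith
            linarith
          · rw [if_neg hs, zero_mul, add_zero]
            gcongr
            have h4 : phi d ρ n (Δ w) ≤ phi d ρ n ((1 - ρ) * Δ0) :=
              phi_mono hd hρ n (not_lt.mp hs)
            linarith
      have hinv : (1 : ℝ≥0∞) - (n : ℝ≥0∞)⁻¹ = ENNReal.ofReal (1 - 1 / n) := by
        rw [ENNReal.ofReal_sub _ (by positivity), ENNReal.ofReal_one, one_div,
          ENNReal.ofReal_inv_of_pos hn0, ENNReal.ofReal_natCast]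
      have h1n : (0 : ℝ) ≤ 1 - 1 / n := by
        have : (1 : ℝ) / n ≤ 1 := by
          rw [div_le_one hn0]
          exact_mod_cast hn
        linarith
      calc ∑' w, p w * (1 + ENNReal.ofReal (phi d ρ n (Δ w)))
          ≤ ∑' w, (p w * ENNReal.ofReal A +
            (if (1 - ρ) * Δ0 < Δ w then p w else 0) * ENNReal.ofReal n) :=
            ENNReal.tsum_le_tsum hterm
        _ = (∑' w, p w) * ENNReal.ofReal A +
            (∑' w, if (1 - ρ) * Δ0 < Δ w then p w else 0) * ENNReal.ofReal n := by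
            rw [ENNReal.tsum_add, ENNReal.tsum_mul_right, ENNReal.tsum_mul_right]
        _ ≤ 1 * ENNReal.ofReal A + (1 - (n : ℝ≥0∞)⁻¹) * ENNReal.ofReal n := by
            gcongr
            exact hslow h1
        _ = ENNReal.ofReal (A + (1 - 1 / n) * n) := by
            rw [one_mul, hinv, ← ENNReal.ofReal_mul h1n,
              ← ENNReal.ofReal_add hA0 (mul_nonneg h1n hn0.le)]
        _ = ENNReal.ofReal Φ := by
            congr 1
            rw [hA]
            field_simp
            ring

end Pool.Agent.Lib.MP_ab1b6f_lc
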