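import Mathlib
import Pool.Agent.Lib.MP_ab1b6f_lc.Defs

/-!
# Vertices of a polyhedron and their active constraints  (JOB Vert)
-/

namespace Pool.Agent.Lib.MP_ab1b6f_lc

variable {m n : ℕ}

theorem lhs_add (D : Data m n) (i : Fin m) (x y : Pt n) : lhs D i (x + y) = lhs D i x + lhs D i y := by
  simp only [lhs, PiLp.add_apply, mul_add, Finset.sum_add_distrib]

theorem lhs_smul (D : Data m n) (i : Fin m) (t : ℝ) (x : Pt n) : lhs D i (t • x) = t * lhs D i x := by
  simp only [lhs, PiLp.smul_apply, smul_eq_mul, Finset.mul_sum]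
  exact Finset.sum_congr rfl fun j _ => by ring

theorem lhs_zero (D : Data m n) (i : Fin m) : lhs D i (0 : Pt n) = 0 := by
  simp [lhs]

theorem lhs_neg (D : Data m n) (i : Fin m) (x : Pt n) : lhs D i (-x) = -lhs D i x := by
  simp [lhs]

theorem lhs_sub (D : Data m n) (i : Fin m) (x y : Pt n) : lhs D i (x - y) = lhs D i x - lhs D i y := by
  rw [sub_eq_add_neg, lhs_add, lhs_neg, sub_eq_add_neg]

theorem lhs_sum {α : Type*} (D : Data m n) (i : Fin m) (s : Finset α) (f : α → Pt n) :
    lhs D i (∑ a ∈ s, f a) = ∑ a ∈ s, lhs D i (f a) := by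
  classical
  induction s using Finset.induction_on with
  | empty => simp [lhs_zero]
  | insert a s ha ih => rw [Finset.sum_insert ha, Finset.sum_insert ha, lhs_add, ih]

/-- The active constraints at `x`. -/
noncomputable def act (D : Data m n) (x : Pt n) : Finset (Fin m) :=
  Finset.univ.filter fun i => lhs D i x = D i (Fin.last n)

theorem mem_act {D : Data m n} {x : Pt n} {i : Fin m} :
    i ∈ act D x ↔ lhs D i x = D i (Fin.last n) := by
  simp [act]

/-- A small move in both directions. -/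
private theorem vert_move {D : Data m n} {x : Pt n} (hx : x ∈ poly D) {d : Pt n}
    (hd : ∀ i ∈ act D x, lhs D i d = 0) :
    ∃ ε : ℝ, 0 < ε ∧ x + ε • d ∈ poly D ∧ x - ε • d ∈ poly D := by
  have h1 : ∀ i : Fin m, ∀ᶠ ε : ℝ in nhdsWithin 0 (Set.Ioi 0),
      lhs D i x + ε * |lhs D i d| ≤ D i (Fin.last n) := by
    intro i
    by_cases hi : i ∈ act D x
    · refine Filter.Eventually.of_forall fun ε => ?_
      rw [hd i hi, abs_zero, mul_zero, add_zero]
      exact hx i
    · have h2 : lhs D i x < D i (Fin.last n) :=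
        lt_of_le_of_ne (hx i) (fun h => hi (mem_act.2 h))
      have h3 : Filter.Tendsto (fun ε : ℝ => lhs D i x + ε * |lhs D i d|)
          (nhdsWithin 0 (Set.Ioi 0)) (nhds (lhs D i x + 0 * |lhs D i d|)) := by
        refine Filter.Tendsto.mono_left ?_ nhdsWithin_le_nhds
        exact Continuous.tendsto (by fun_prop) 0
      rw [zero_mul, add_zero] at h3
      exact (h3.eventually (gt_mem_nhds h2)).mono fun ε h => le_of_lt h
  have h4 : ∀ᶠ ε : ℝ in nhdsWithin 0 (Set.Ioi 0), 0 < ε := self_mem_nhdsWithin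
  obtain ⟨ε, hε, hε0⟩ := ((Filter.eventually_all.2 h1).and h4).exists
  refine ⟨ε, hε0, fun i => ?_, fun i => ?_⟩
  · rw [lhs_add, lhs_smul]
    have h5 := mul_le_mul_of_nonneg_left (le_abs_self (lhs D i d)) hε0.le
    linarith [hε i]
  · rw [lhs_sub, lhs_smul]
    have h5 := mul_le_mul_of_nonneg_left (neg_abs_le (lhs D i d)) hε0.le
    linarith [hε i]

private theorem vert_mid (x d : Pt n) (ε : ℝ) :
    x ∈ openSegment ℝ (x + ε • d) (x - ε • d) := by
  refine ⟨1 / 2, 1 / 2, by norm_num, by norm_num, by norm_num, ?_⟩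
  module

/-- At a vertex the active normals span: otherwise `x ± ε d` are in the polyhedron for small `ε > 0`,
and `x` is their midpoint. -/
theorem eq_zero_of_ext {D : Data m n} {x : Pt n} (hx : x ∈ (poly D).extremePoints ℝ) {d : Pt n}
    (hd : ∀ i ∈ act D x, lhs D i d = 0) : d = 0 := by
  obtain ⟨ε, hε, h1, h2⟩ := vert_move hx.1 hd
  have h3 := hx.2 h1 h2 (vert_mid x d ε)
  rw [add_eq_left, smul_eq_zero] at h3
  exact h3.resolve_left hε.ne'

/-- Converse: if `x` is in the open segment of `y, z ∈ poly D` then `lhs D i y = lhs D i z = b_i` for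
all active `i`, so `y - x = 0`. -/
theorem ext_of_act {D : Data m n} {x : Pt n} (hx : x ∈ poly D)
    (h : ∀ d : Pt n, (∀ i ∈ act D x, lhs D i d = 0) → d = 0) : x ∈ (poly D).extremePoints ℝ := by
  refine ⟨hx, fun y hy z hz hxyz => ?_⟩
  obtain ⟨a, b, ha, hb, hab, hx'⟩ := hxyz
  have h1 : y - x = 0 := by
    refine h _ fun i hi => ?_
    rw [mem_act] at hi
    have h2 : a * lhs D i y + b * lhs D i z = D i (Fin.last n) := by
      rw [← hi, ← hx', lhs_add, lhs_smul, lhs_smul]
    have h3 := hy i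
    have h4 := hz i
    rw [lhs_sub, hi]
    have h5 : a * (D i (Fin.last n) - lhs D i y) + b * (D i (Fin.last n) - lhs D i z) = 0 := by
      have h6 : a * D i (Fin.last n) + b * D i (Fin.last n) = D i (Fin.last n) := by
        rw [← add_mul, hab, one_mul]
      linarith
    have h7 : 0 ≤ b * (D i (Fin.last n) - lhs D i z) := mul_nonneg hb.le (sub_nonneg.2 h4)
    have h8 : 0 ≤ a * (D i (Fin.last n) - lhs D i y) := mul_nonneg ha.le (sub_nonneg.2 h3)
    have h9 : a * (D i (Fin.last n) - lhs D i y) = 0 := by linarith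
    have h10 := (mul_eq_zero.1 h9).resolve_left ha.ne'
    linarith
  exact sub_eq_zero.1 h1

/-- More generally: if a direction `h` is annihilated by all constraints active at `p`, a point of the
open segment from `y` to `z` or more generally of an extreme set `F`, then `p ± ε h` is in `F` for
some `ε > 0`. (`p` is the midpoint of `p + ε h` and `p - ε h`, which lie in `poly D`.) -/
theorem extreme_move {D : Data m n} {F : Set (Pt n)} (hF : IsExtreme ℝ (poly D) F) {p h : Pt n}
    (hp : p ∈ F) (hh : ∀ i ∈ act D p, lhs D i h = 0) :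
    ∃ ε : ℝ, 0 < ε ∧ p + ε • h ∈ F ∧ p - ε • h ∈ F := by
  obtain ⟨ε, hε, h1, h2⟩ := vert_move (hF.subset hp) hh
  exact ⟨ε, hε, hF.left_mem_of_mem_openSegment h1 h2 hp (vert_mid p h ε),
    hF.right_mem_of_mem_openSegment h1 h2 hp (vert_mid p h ε)⟩

end Pool.Agent.Lib.MP_ab1b6f_lc
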