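import Mathlib
import Pool.Agent.Lib.MP_ab1b6f_lc.Vert

/-!
# The edges at a vertex of a simple polyhedron  (JOB Struct)
-/

namespace Pool.Agent.Lib.MP_ab1b6f_lc

variable {m n : ℕ}

/-- Every vertex has exactly `n` active constraints. -/
def IsSimple (D : Data m n) : Prop := ∀ x ∈ (poly D).extremePoints ℝ, (act D x).card = n

/-- `d` is the system of edge directions at the vertex `x`. -/
structure Dirs (D : Data m n) (x : Pt n) (d : Fin m → Pt n) : Prop where
  ext : x ∈ (poly D).extremePoints ℝ
  diag : ∀ j ∈ act D x, lhs D j (d j) = -1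
  off : ∀ j ∈ act D x, ∀ i ∈ act D x, i ≠ j → lhs D i (d j) = 0

/-- The linear map given by the active constraints. -/
private noncomputable def Struct_map (D : Data m n) (x : Pt n) : Pt n →ₗ[ℝ] (act D x → ℝ) where
  toFun e i := lhs D i e
  map_add' a b := by
    funext i
    exact lhs_add D i a b
  map_smul' t a := by
    funext i
    exact lhs_smul D i t a

/-- The linear map `d ↦ (lhs D i d)_{i ∈ act D x}` is injective by `eq_zero_of_ext` between spaces of the
same dimension `n`, hence bijective. -/
theorem IsSimple.exists_dirs {D : Data m n} (hD : IsSimple D) {x : Pt n}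
    (hx : x ∈ (poly D).extremePoints ℝ) : ∃ d : Fin m → Pt n, Dirs D x d := by
  classical
  have hinj : Function.Injective (Struct_map D x) := by
    rw [injective_iff_map_eq_zero]
    intro e he
    refine eq_zero_of_ext hx fun i hi => ?_
    exact congrFun he ⟨i, hi⟩
  have hfin : Module.finrank ℝ (Pt n) = Module.finrank ℝ (act D x → ℝ) := by
    rw [finrank_euclideanSpace, Module.finrank_fintype_fun_eq_card, Fintype.card_fin,
      Fintype.card_coe, hD x hx]
  have hsurj : Function.Surjective (Struct_map D x) :=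
    (LinearMap.injective_iff_surjective_of_finrank_eq_finrank hfin).1 hinj
  have hex : ∀ j : Fin m, ∃ e : Pt n, ∀ i ∈ act D x, lhs D i e = if i = j then -1 else 0 := by
    intro j
    obtain ⟨e, he⟩ := hsurj fun i => if (i : Fin m) = j then -1 else 0
    exact ⟨e, fun i hi => congrFun he ⟨i, hi⟩⟩
  choose d hd using hex
  refine ⟨d, hx, ?_, ?_⟩
  · intro j hj
    rw [hd j j hj, if_pos rfl]
  · intro j _ i hi hij
    rw [hd j i hi, if_neg hij]

/-- (`lhs D i` of the difference of both sides vanishes for all active `i`) -/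
theorem Dirs.expand {D : Data m n} {x : Pt n} {d : Fin m → Pt n} (h : Dirs D x d) (e : Pt n) :
    e = ∑ j ∈ act D x, (-lhs D j e) • d j := by
  have h0 : e - ∑ j ∈ act D x, (-lhs D j e) • d j = 0 := by
    refine eq_zero_of_ext h.ext fun i hi => ?_
    rw [lhs_sub, lhs_sum, Finset.sum_eq_single i]
    · rw [lhs_smul, h.diag i hi]
      ring
    · intro j hj hji
      rw [lhs_smul, h.off j hj i hi hji.symm, mul_zero]
    · intro hi'
      exact absurd hi hi'
  exact sub_eq_zero.1 h0

theorem Dirs.ne_zero {D : Data m n} {x : Pt n} {d : Fin m → Pt n} (h : Dirs D x d) {j : Fin m}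
    (hj : j ∈ act D x) : d j ≠ 0 := by
  intro h0
  have h1 := h.diag j hj
  rw [h0, lhs_zero] at h1
  norm_num at h1

/-- An extreme subset `F` of `poly D` which is contained in a line `{x + t e}`, contains a point
`p = x + t0 e` with `t0 > 0` and such that every constraint inactive at `x` is inactive at `p`: then `e` is a
positive multiple of some `d j`. Proof: for `i ∈ act D x`, `lhs D i e ≤ 0` because `p ∈ poly D`, and
`i ∈ act D p ↔ lhs D i e = 0`. If `j ∈ act D x` has `lhs D j e ≠ 0` then `h = d j` is annihilated by all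
constraints active at `p`, so by `extreme_move` `p + ε d j ∈ F` is on the line and `d j` is a multiple
of `e`. By `Dirs.expand` and independence there is exactly one such `j`. -/
theorem Dirs.of_extreme {D : Data m n} {x : Pt n} {d : Fin m → Pt n} (h : Dirs D x d)
    {F : Set (Pt n)} (hF : IsExtreme ℝ (poly D) F) {e p : Pt n} (he : e ≠ 0)
    (hline : ∀ y ∈ F, ∃ t : ℝ, y = x + t • e) {t0 : ℝ} (ht0 : 0 < t0) (hp : p = x + t0 • e)
    (hpF : p ∈ F) (hpact : act D p ⊆ act D x) :
    ∃ j ∈ act D x, ∃ s : ℝ, 0 < s ∧ e = s • d j := by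
  have hpP : p ∈ poly D := hF.subset hpF
  have hle : ∀ i ∈ act D x, lhs D i e ≤ 0 := by
    intro i hi
    have h1 := hpP i
    rw [hp, lhs_add, lhs_smul, mem_act.1 hi] at h1
    have h2 : t0 * lhs D i e ≤ 0 := by linarith
    by_contra hc
    push Not at hc
    have := mul_pos ht0 hc
    linarith
  have hzero : ∀ i ∈ act D p, lhs D i e = 0 := by
    intro i hi
    have h1 := mem_act.1 hi
    have h2 := mem_act.1 (hpact hi)
    rw [hp, lhs_add, lhs_smul, h2] at h1
    have h3 : t0 * lhs D i e = 0 := by linarith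
    exact (mul_eq_zero.1 h3).resolve_left ht0.ne'
  obtain ⟨j, hj, hje⟩ : ∃ j ∈ act D x, lhs D j e ≠ 0 := by
    by_contra hc
    push Not at hc
    exact he (eq_zero_of_ext h.ext hc)
  have hjlt : lhs D j e < 0 := lt_of_le_of_ne (hle j hj) hje
  obtain ⟨ε, hε, h1, -⟩ := extreme_move hF hpF (h := d j) (by
    intro i hi
    have hij : i ≠ j := by
      rintro rfl
      exact hje (hzero i hi)
    exact h.off j hj i (hpact hi) hij)
  obtain ⟨t, ht⟩ := hline _ h1
  rw [hp, add_assoc] at ht
  have h2 : t0 • e + ε • d j = t • e := add_left_cancel ht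
  have h3 : d j = ((t - t0) / ε) • e := by
    have h4 : ε • d j = (t - t0) • e := by
      rw [sub_smul, ← h2]; abel
    rw [div_eq_inv_mul, mul_smul, ← h4, smul_smul, inv_mul_cancel₀ hε.ne', one_smul]
  have h4 : ((t - t0) / ε) * lhs D j e = -1 := by
    rw [← lhs_smul, ← h3]
    exact h.diag j hj
  set s := (t - t0) / ε with hs
  have hspos : 0 < s := by
    by_contra hc
    push Not at hc
    have := mul_nonneg_of_nonpos_of_nonpos hc hjlt.le
    linarith
  refine ⟨j, hj, s⁻¹, inv_pos.2 hspos, ?_⟩
  rw [h3, smul_smul, inv_mul_cancel₀ hspos.ne', one_smul]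

end Pool.Agent.Lib.MP_ab1b6f_lc
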