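import Mathlib
import Pool.Agent.Lib.MP_ab1b6f_lc.Struct

/-!
# Improving edges at a vertex of a simple polyhedron, part A  (JOB EdgeA)
-/

namespace Pool.Agent.Lib.MP_ab1b6f_lc

variable {m n : ℕ}

private theorem edgeA_openSegment {x v : Pt n} {s t : ℝ} (hs : 0 < s) (hst : s < t) :
    x + s • v ∈ openSegment ℝ x (x + t • v) := by
  have ht : 0 < t := hs.trans hst
  refine ⟨1 - s / t, s / t, ?_, by positivity, by ring, ?_⟩
  · rw [sub_pos, div_lt_one ht]; exact hst
  · rw [smul_add, smul_smul, div_mul_cancel₀ _ ht.ne', sub_smul, one_smul]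
    abel

private theorem edgeA_not_ext {D : Data m n} {x v : Pt n} {s t : ℝ} (hs : 0 < s) (hst : s < t)
    (hv : v ≠ 0) (hx : x ∈ poly D) (ht : x + t • v ∈ poly D)
    (he : x + s • v ∈ (poly D).extremePoints ℝ) : False := by
  have h1 := (mem_extremePoints.1 he).2 x hx _ ht (edgeA_openSegment hs hst)
  have h2 : x + s • v = x := by
    rcases h1 with ⟨h1, -⟩
    exact h1.symm
  rw [add_eq_left] at h2
  exact (smul_ne_zero hs.ne' hv) h2

/-- An improving neighbour lies on an edge direction: apply `Dirs.of_extreme` with `F = segment x w`,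
`e = w - x`, `p` the midpoint (an inactive constraint at `x` has `lhs D i x < b_i`, `lhs D i w ≤ b_i`). -/
theorem Dirs.nbr_dir {D : Data m n} {x c w : Pt n} {d : Fin m → Pt n} (h : Dirs D x d)
    (hw : BetterNbr (poly D) c x w) :
    ∃ j ∈ act D x, ∃ t : ℝ, 0 < t ∧ w = x + t • d j ∧ 0 < inner ℝ c (d j) := by
  obtain ⟨hne, hx, hwe, hF, hin⟩ := hw
  have he : w - x ≠ 0 := sub_ne_zero.2 hne.symm
  have hxp : x ∈ poly D := extremePoints_subset hx
  have hwp : w ∈ poly D := extremePoints_subset hwe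
  have hpF : x + (1 / 2 : ℝ) • (w - x) ∈ segment ℝ x w := by
    rw [segment_eq_image']
    exact ⟨1 / 2, ⟨by norm_num, by norm_num⟩, rfl⟩
  have hline : ∀ y ∈ segment ℝ x w, ∃ t : ℝ, y = x + t • (w - x) := by
    intro y hy
    rw [segment_eq_image'] at hy
    obtain ⟨θ, -, hθ⟩ := hy
    exact ⟨θ, hθ.symm⟩
  have hact : act D (x + (1 / 2 : ℝ) • (w - x)) ⊆ act D x := by
    intro i hi
    rw [mem_act, lhs_add, lhs_smul, lhs_sub] at hi
    rw [mem_act]
    have h1 : lhs D i x ≤ D i (Fin.last n) := hxp i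
    have h2 : lhs D i w ≤ D i (Fin.last n) := hwp i
    linarith
  obtain ⟨j, hj, s, hs, hes⟩ := h.of_extreme hF he hline (by norm_num : (0 : ℝ) < 1 / 2) rfl hpF
    hact
  refine ⟨j, hj, s, hs, ?_, ?_⟩
  · rw [← hes]; abel
  · rw [hes, inner_smul_right] at hin
    exact (mul_pos_iff_of_pos_left hs).1 hin

private theorem edgeA_ray_mem {D : Data m n} {x c e : Pt n} (hw : BetterRay (poly D) c x e)
    {t : ℝ} (ht : 0 ≤ t) : x + t • e ∈ poly D :=
  hw.2.2.1.subset ⟨t, ht, rfl⟩

/-- An improving unbounded edge has an edge direction: apply `Dirs.of_extreme` with `F` the half-line,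
`p = x + e` (an inactive constraint `i` at `x` has `lhs D i x < b_i` and `lhs D i e ≤ 0`). -/
theorem Dirs.ray_dir {D : Data m n} {x c e : Pt n} {d : Fin m → Pt n} (h : Dirs D x d)
    (hw : BetterRay (poly D) c x e) :
    ∃ j ∈ act D x, ∃ s : ℝ, 0 < s ∧ e = s • d j ∧ 0 < inner ℝ c (d j) := by
  have hw' := hw
  obtain ⟨hnorm, hx, hF, hin⟩ := hw
  have he : e ≠ 0 := by
    rintro rfl
    rw [norm_zero] at hnorm
    exact zero_ne_one hnorm
  have hxp : x ∈ poly D := extremePoints_subset hx
  have hact : act D (x + (1 : ℝ) • e) ⊆ act D x := by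
    intro i hi
    rw [mem_act, lhs_add, lhs_smul, one_mul] at hi
    rw [mem_act]
    have h1 : lhs D i x ≤ D i (Fin.last n) := hxp i
    have h2 : lhs D i e ≤ 0 := by
      by_contra hcon
      push Not at hcon
      have h3 := edgeA_ray_mem hw' (t := 2) (by norm_num) i
      rw [lhs_add, lhs_smul] at h3
      linarith
    linarith
  obtain ⟨j, hj, s, hs, hes⟩ := h.of_extreme hF he (fun y ⟨t, _, ht⟩ => ⟨t, ht⟩)
    (zero_lt_one : (0 : ℝ) < 1) rfl ⟨1, zero_le_one, rfl⟩ hact
  refine ⟨j, hj, s, hs, hes, ?_⟩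
  rw [hes, inner_smul_right] at hin
  exact (mul_pos_iff_of_pos_left hs).1 hin

/-- The active set of a neighbour `w = x + t d j` of `x`: it contains `act D x \ {j}`, does not contain
`j`, and has `n` elements, as has `act D x`. -/
theorem Dirs.nbr_act {D : Data m n} (hD : IsSimple D) {x c w : Pt n} {d : Fin m → Pt n}
    (h : Dirs D x d) {j : Fin m} (hj : j ∈ act D x) {t : ℝ} (ht : 0 < t) (hwt : w = x + t • d j)
    (hw : BetterNbr (poly D) c x w) :
    ∃ i ∉ act D x, act D w = insert i ((act D x).erase j) := by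
  have hcw : (act D w).card = n := hD w hw.2.2.1
  have hcx : (act D x).card = n := hD x h.ext
  have hjw : j ∉ act D w := by
    intro hjw
    rw [mem_act, hwt, lhs_add, lhs_smul, h.diag j hj] at hjw
    rw [mem_act] at hj
    linarith
  have hsub : (act D x).erase j ⊆ act D w := by
    intro i hi
    obtain ⟨hij, hi⟩ := Finset.mem_erase.1 hi
    rw [mem_act, hwt, lhs_add, lhs_smul, h.off j hj i hi hij, mul_zero, add_zero]
    exact mem_act.1 hi
  have hcard : (act D w \ (act D x).erase j).card = 1 := by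
    rw [Finset.card_sdiff_of_subset hsub, Finset.card_erase_of_mem hj, hcw, hcx]
    have : 0 < n := by
      rw [← hcx]
      exact Finset.card_pos.2 ⟨j, hj⟩
    omega
  obtain ⟨i, hi⟩ := Finset.card_eq_one.1 hcard
  have hi' : i ∈ act D w \ (act D x).erase j := by rw [hi]; exact Finset.mem_singleton_self i
  obtain ⟨hi1, hi2⟩ := Finset.mem_sdiff.1 hi'
  refine ⟨i, ?_, ?_⟩
  · intro hix
    apply hi2
    refine Finset.mem_erase.2 ⟨?_, hix⟩
    rintro rfl
    exact hjw hi1
  · rw [← Finset.sdiff_union_of_subset hsub, hi]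
    rfl

/-- Two improving edges on the same direction coincide: if `x + s d j` and `x + t d j` are both
neighbours then `s = t` (if `s < t`, the extreme point `x + s d j` would be in the open segment of
`x` and `x + t d j`). -/
theorem Dirs.nbr_unique {D : Data m n} {x c : Pt n} {d : Fin m → Pt n} (h : Dirs D x d)
    {j : Fin m} {s t : ℝ} (hs : 0 < s) (ht : 0 < t)
    (h1 : BetterNbr (poly D) c x (x + s • d j)) (h2 : BetterNbr (poly D) c x (x + t • d j)) :
    s = t := by
  have hxp : x ∈ poly D := extremePoints_subset h.ext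
  have hv : d j ≠ 0 := by
    intro h0
    have := h1.1
    rw [h0, smul_zero, add_zero] at this
    exact this rfl
  rcases lt_trichotomy s t with hst | hst | hst
  · exact (edgeA_not_ext hs hst hv hxp (extremePoints_subset h2.2.2.1) h1.2.2.1).elim
  · exact hst
  · exact (edgeA_not_ext ht hst hv hxp (extremePoints_subset h1.2.2.1) h2.2.2.1).elim

/-- A direction cannot carry a neighbour and an unbounded edge (same argument). -/
theorem Dirs.nbr_not_ray {D : Data m n} {x c e : Pt n} {d : Fin m → Pt n} (h : Dirs D x d)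
    {j : Fin m} {s t : ℝ} (hs : 0 < s) (ht : 0 < t)
    (h1 : BetterNbr (poly D) c x (x + s • d j)) (h2 : BetterRay (poly D) c x e)
    (he : e = t • d j) : False := by
  have hxp : x ∈ poly D := extremePoints_subset h.ext
  have hv : d j ≠ 0 := by
    intro h0
    have := h1.1
    rw [h0, smul_zero, add_zero] at this
    exact this rfl
  have h3 := edgeA_ray_mem h2 (t := (s + 1) / t) (by positivity)
  rw [he, smul_smul, div_mul_cancel₀ _ ht.ne'] at h3
  exact edgeA_not_ext hs (lt_add_one s) hv hxp h3 h1.2.2.1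

/-- At most `n` improving edges: the maps of `nbr_dir` and `ray_dir` to `act D x` are injective with
disjoint images (unit vectors `s • d j`, `s' • d j` with `s, s' > 0` are equal). -/
theorem Dirs.encard_le {D : Data m n} (hD : IsSimple D) {x c : Pt n} {d : Fin m → Pt n}
    (h : Dirs D x d) :
    Set.encard {w' | BetterNbr (poly D) c x w'} + Set.encard {e | BetterRay (poly D) c x e} ≤
      (n : ℕ∞) := by
  classical
  let JA : Set (Fin m) := {j | j ∈ act D x ∧ ∃ t : ℝ, 0 < t ∧ BetterNbr (poly D) c x (x + t • d j)}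
  let JB : Set (Fin m) := {j | j ∈ act D x ∧ ∃ t : ℝ, 0 < t ∧ BetterRay (poly D) c x (t • d j)}
  have hdisj : Disjoint JA JB := by
    rw [Set.disjoint_left]
    rintro j ⟨-, s, hs, h1⟩ ⟨-, t, ht, h2⟩
    exact h.nbr_not_ray hs ht h1 h2 rfl
  have hA : Set.encard {w' | BetterNbr (poly D) c x w'} ≤ JA.encard := by
    let g : Fin m → Pt n := fun j =>
      if hj : ∃ t : ℝ, 0 < t ∧ BetterNbr (poly D) c x (x + t • d j) then x + hj.choose • d j else 0
    have hsub : {w' | BetterNbr (poly D) c x w'} ⊆ g '' JA := by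
      intro w' hw'
      obtain ⟨j, hj, t, ht, hwt, -⟩ := h.nbr_dir hw'
      have hex : ∃ t : ℝ, 0 < t ∧ BetterNbr (poly D) c x (x + t • d j) := ⟨t, ht, hwt ▸ hw'⟩
      refine ⟨j, ⟨hj, hex⟩, ?_⟩
      show (if hj : ∃ t : ℝ, 0 < t ∧ BetterNbr (poly D) c x (x + t • d j) then
        x + hj.choose • d j else 0) = w'
      rw [dif_pos hex, h.nbr_unique hex.choose_spec.1 ht hex.choose_spec.2 (hwt ▸ hw')]
      exact hwt.symm
    exact (Set.encard_le_encard hsub).trans (Set.encard_image_le _ _)
  have hB : Set.encard {e | BetterRay (poly D) c x e} ≤ JB.encard := by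
    have hsub : {e | BetterRay (poly D) c x e} ⊆ (fun j => ‖d j‖⁻¹ • d j) '' JB := by
      intro e he
      obtain ⟨j, hj, s, hs, hes, -⟩ := h.ray_dir he
      refine ⟨j, ⟨hj, s, hs, hes ▸ he⟩, ?_⟩
      have h1 : ‖e‖ = 1 := he.1
      rw [hes, norm_smul, Real.norm_of_nonneg hs.le] at h1
      show ‖d j‖⁻¹ • d j = e
      rw [hes, ← eq_inv_of_mul_eq_one_left h1]
    exact (Set.encard_le_encard hsub).trans (Set.encard_image_le _ _)
  calc Set.encard {w' | BetterNbr (poly D) c x w'} + Set.encard {e | BetterRay (poly D) c x e}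
      ≤ JA.encard + JB.encard := add_le_add hA hB
    _ = (JA ∪ JB).encard := (Set.encard_union_eq hdisj).symm
    _ ≤ ((act D x : Finset (Fin m)) : Set (Fin m)).encard := by
        apply Set.encard_le_encard
        rintro j (hj | hj)
        · exact hj.1
        · exact hj.1
    _ = (n : ℕ∞) := by rw [Set.encard_coe_eq_coe_finsetCard, hD x h.ext]

end Pool.Agent.Lib.MP_ab1b6f_lc
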