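import Mathlib
import Pool.Agent.Lib.MP_ab1b6f_lc.Struct

/-!
# Improving edges at a vertex of a simple polyhedron, part B  (JOB EdgeB)
-/

namespace Pool.Agent.Lib.MP_ab1b6f_lc

variable {m n : ℕ}

/-- A point of an open segment in the polyhedron. -/
private theorem EdgeB_active {D : Data m n} {y z p : Pt n} (hy : y ∈ poly D) (hz : z ∈ poly D)
    (hp : p ∈ openSegment ℝ y z) {i : Fin m} (hi : lhs D i p = D i (Fin.last n)) :
    lhs D i y = D i (Fin.last n) := by
  obtain ⟨a, b, ha, hb, hab, rfl⟩ := hp
  rw [lhs_add, lhs_smul, lhs_smul] at hi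
  have h1 := hy i
  have h2 := hz i
  by_contra hne
  have h3 : lhs D i y < D i (Fin.last n) := lt_of_le_of_ne h1 hne
  have h4 : a * lhs D i y < a * D i (Fin.last n) := mul_lt_mul_of_pos_left h3 ha
  have h5 : b * lhs D i z ≤ b * D i (Fin.last n) := mul_le_mul_of_nonneg_left h2 hb.le
  have h6 : a * D i (Fin.last n) + b * D i (Fin.last n) = D i (Fin.last n) := by
    rw [← add_mul, hab, one_mul]
  linarith

/-- Points of the polyhedron in an open segment through the half-line. -/
private theorem EdgeB_ray {D : Data m n} {x : Pt n} {d : Fin m → Pt n} (h : Dirs D x d)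
    {j : Fin m} (hj : j ∈ act D x) {y z : Pt n} (hy : y ∈ poly D) (hz : z ∈ poly D) {s : ℝ}
    (hp : x + s • d j ∈ openSegment ℝ y z) : ∃ s' : ℝ, 0 ≤ s' ∧ y = x + s' • d j := by
  refine ⟨-lhs D j (y - x), ?_, ?_⟩
  · rw [lhs_sub, mem_act.1 hj]
    have := hy j
    linarith
  · have h1 := h.expand (y - x)
    rw [Finset.sum_eq_single j] at h1
    · rw [← h1]; abel
    · intro i hi hij
      have h2 : lhs D i (x + s • d j) = D i (Fin.last n) := by
        rw [lhs_add, lhs_smul, h.off j hj i hi hij, mul_zero, add_zero, mem_act.1 hi]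
      have h3 := EdgeB_active hy hz hp h2
      rw [lhs_sub, h3, mem_act.1 hi, sub_self, neg_zero, zero_smul]
    · intro hj'
      exact absurd hj hj'

/-- Each improving direction is an edge. If `lhs D i (d j) ≤ 0` for all `i` it is an unbounded edge:
the half-line is extreme because `y, z ∈ poly D` with a point `x + t d j` in their open segment are
active at all `i ∈ act D x`, `i ≠ j`, hence `y = x + s d j`, with `s ≥ 0` by the constraint `j`.
Otherwise let `t` be the minimum of `(b_i - lhs D i x) / lhs D i (d j)` over the `i` with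
`lhs D i (d j) > 0` (these are inactive at `x`, so `t > 0`); `w = x + t d j` is in `poly D`, it is a
vertex by `ext_of_act` (its active set contains `act D x \ {j}` and a minimising `i`), and the segment
is extreme as before. -/
theorem Dirs.edge_exists {D : Data m n} {x c : Pt n} {d : Fin m → Pt n} (h : Dirs D x d)
    {j : Fin m} (hj : j ∈ act D x) (hc : 0 < inner ℝ c (d j)) :
    (∃ t : ℝ, 0 < t ∧ BetterNbr (poly D) c x (x + t • d j)) ∨
      BetterRay (poly D) c x ((‖d j‖)⁻¹ • d j) := by
  classical
  have hxP : x ∈ poly D := h.ext.1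
  have hd0 : d j ≠ 0 := h.ne_zero hj
  have hn : 0 < ‖d j‖ := norm_pos_iff.2 hd0
  by_cases hall : ∀ i, lhs D i (d j) ≤ 0
  · right
    refine ⟨?_, h.ext, ⟨?_, ?_⟩, ?_⟩
    · rw [norm_smul, norm_inv, norm_norm, inv_mul_cancel₀ hn.ne']
    · rintro y ⟨t, ht, rfl⟩ i
      rw [lhs_add, lhs_smul, lhs_smul]
      have h1 := hxP i
      have h2 : t * ((‖d j‖)⁻¹ * lhs D i (d j)) ≤ 0 :=
        mul_nonpos_of_nonneg_of_nonpos ht
          (mul_nonpos_of_nonneg_of_nonpos (inv_pos.2 hn).le (hall i))
      linarith
    · rintro y hy z hz p ⟨t, ht, rfl⟩ hp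
      rw [smul_smul] at hp
      obtain ⟨s, hs, rfl⟩ := EdgeB_ray h hj hy hz hp
      refine ⟨s * ‖d j‖, mul_nonneg hs hn.le, ?_⟩
      rw [smul_smul, mul_assoc, mul_inv_cancel₀ hn.ne', mul_one]
    · rw [inner_smul_right]
      exact mul_pos (inv_pos.2 hn) hc
  · left
    push Not at hall
    obtain ⟨i1, hi1⟩ := hall
    set S : Finset (Fin m) := Finset.univ.filter fun i => 0 < lhs D i (d j) with hS
    have hSne : S.Nonempty := ⟨i1, by simp [hS, hi1]⟩
    obtain ⟨i0, hi0, hmin⟩ := Finset.exists_min_image S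
      (fun i => (D i (Fin.last n) - lhs D i x) / lhs D i (d j)) hSne
    have hi0' : 0 < lhs D i0 (d j) := (Finset.mem_filter.1 hi0).2
    set t := (D i0 (Fin.last n) - lhs D i0 x) / lhs D i0 (d j) with ht
    have hi0x : i0 ∉ act D x := by
      intro hmem
      by_cases hij : i0 = j
      · rw [hij, h.diag j hj] at hi0'
        linarith
      · rw [h.off j hj i0 hmem hij] at hi0'
        exact lt_irrefl _ hi0'
    have ht0 : 0 < t := by
      apply div_pos _ hi0'
      have h1 := hxP i0
      have h2 : lhs D i0 x ≠ D i0 (Fin.last n) := fun hh => hi0x (mem_act.2 hh)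
      have := lt_of_le_of_ne h1 h2
      linarith
    have hle : ∀ i, ∀ s, 0 ≤ s → s ≤ t → lhs D i (x + s • d j) ≤ D i (Fin.last n) := by
      intro i s hs0 hst
      rw [lhs_add, lhs_smul]
      by_cases hpos : 0 < lhs D i (d j)
      · have h1 := hmin i (by simp [hS, hpos])
        have h2 : s ≤ (D i (Fin.last n) - lhs D i x) / lhs D i (d j) := hst.trans h1
        rw [le_div_iff₀ hpos] at h2
        linarith
      · push Not at hpos
        have h1 := hxP i
        have h2 := mul_nonpos_of_nonneg_of_nonpos hs0 hpos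
        linarith
    have hwP : x + t • d j ∈ poly D := fun i => hle i t ht0.le le_rfl
    have hi0w : lhs D i0 (x + t • d j) = D i0 (Fin.last n) := by
      rw [lhs_add, lhs_smul, ht, div_mul_cancel₀ _ hi0'.ne']
      ring
    have hwext : x + t • d j ∈ (poly D).extremePoints ℝ := by
      refine ext_of_act hwP fun e he => ?_
      have h1 := h.expand e
      rw [Finset.sum_eq_single j] at h1
      · have h2 := he i0 (mem_act.2 hi0w)
        rw [h1, lhs_smul] at h2
        have h3 : -lhs D j e = 0 := (mul_eq_zero.1 h2).resolve_right hi0'.ne'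
        rw [h1, h3, zero_smul]
      · intro i hi hij
        have h2 : lhs D i e = 0 := by
          apply he
          rw [mem_act, lhs_add, lhs_smul, h.off j hj i hi hij, mul_zero, add_zero]
          exact mem_act.1 hi
        rw [h2, neg_zero, zero_smul]
      · intro hj'
        exact absurd hj hj'
    refine ⟨t, ht0, ?_, h.ext, hwext, ⟨?_, ?_⟩, ?_⟩
    · intro hh
      have h1 : t • d j = 0 := by
        have := hh.symm
        rwa [add_eq_left] at this
      rcases smul_eq_zero.1 h1 with h2 | h2
      · exact ht0.ne' h2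
      · exact hd0 h2
    · intro y hy i
      rw [segment_eq_image'] at hy
      obtain ⟨θ, ⟨hθ0, hθ1⟩, rfl⟩ := hy
      have h1 : x + θ • (x + t • d j - x) = x + (θ * t) • d j := by
        rw [add_sub_cancel_left, smul_smul]
      show lhs D i (x + θ • (x + t • d j - x)) ≤ _
      rw [h1]
      exact hle i _ (mul_nonneg hθ0 ht0.le) (mul_le_of_le_one_left ht0.le hθ1)
    · intro y hy z hz p hpseg hp
      rw [segment_eq_image'] at hpseg ⊢
      obtain ⟨θ, ⟨hθ0, hθ1⟩, rfl⟩ := hpseg
      have h1 : x + θ • (x + t • d j - x) = x + (θ * t) • d j := by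
        rw [add_sub_cancel_left, smul_smul]
      have hp' : x + (θ * t) • d j ∈ openSegment ℝ y z := by
        rw [← h1]; exact hp
      obtain ⟨s, hs, rfl⟩ := EdgeB_ray h hj hy hz hp'
      have hst : s ≤ t := by
        have h2 := hy i0
        rw [lhs_add, lhs_smul] at h2
        rw [ht, le_div_iff₀ hi0']
        linarith
      refine ⟨s / t, ⟨div_nonneg hs ht0.le, (div_le_one ht0).2 hst⟩, ?_⟩
      show x + (s / t) • (x + t • d j - x) = _
      rw [add_sub_cancel_left, smul_smul, div_mul_cancel₀ _ ht0.ne']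
    · rw [add_sub_cancel_left, inner_smul_right]
      exact mul_pos ht0 hc

end Pool.Agent.Lib.MP_ab1b6f_lc
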