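import Mathlib
import Pool.Agent.Lib.MP_ab1b6f_lc.Vert
import Pool.Agent.Lib.MP_ab1b6f_lc.Lin

/-!
# The homogenised family of vectors

The index `inl i` carries the row `(a_i, b_i)`, `inr 0` the point at infinity `(0, 1)` and `inr 1` the
normalised objective `(c / |c|, 0)`.
-/

namespace Pool.Agent.Lib.MP_ab1b6f_lc

variable {m n : ℕ}

/-- The index type. -/
abbrev Idx (m : ℕ) := Fin m ⊕ Fin 2

/-- The family of vectors with random part `ω` and fixed part `f`. -/
noncomputable def famE {N : ℕ} (f : Fin 2 → Pt N) (ω : Fin m → Fin N → ℝ) : Idx m → Pt N :=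
  Sum.elim (fun i => WithLp.toLp 2 (ω i)) f

/-- The point `(x, s)` of `ℝ^(n+1)`. -/
noncomputable def ext1 (x : Pt n) (s : ℝ) : Pt (n + 1) := WithLp.toLp 2 (Fin.snoc (fun j => x j) s)

/-- The fixed vectors. -/
noncomputable def fixv (c : Pt n) : Fin 2 → Pt (n + 1) :=
  ![ext1 0 1, ext1 ((‖c‖)⁻¹ • c) 0]

/-- The family of a linear program. -/
noncomputable def fam (D : Data m n) (c : Pt n) : Idx m → Pt (n + 1) := famE (fixv c) D

/-- The index at infinity. -/
abbrev inf {m : ℕ} : Idx m := Sum.inr 0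

/-- The index of the objective. -/
abbrev obj {m : ℕ} : Idx m := Sum.inr 1

/-- The random indices. -/
def rnd (m : ℕ) : Finset (Idx m) := Finset.univ.map ⟨Sum.inl, Sum.inl_injective⟩

/-- The fixed indices. -/
def fixed (m : ℕ) : Finset (Idx m) := Finset.univ.map ⟨Sum.inr, Sum.inr_injective⟩

/-- A set of constraints as a set of indices. -/
def up (B : Finset (Fin m)) : Finset (Idx m) := B.map ⟨Sum.inl, Sum.inl_injective⟩

theorem mem_rnd {k : Idx m} : k ∈ rnd m ↔ ∃ i, k = Sum.inl i := by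
  simp [rnd, eq_comm]

theorem mem_fixed {k : Idx m} : k ∈ fixed m ↔ ∃ i, k = Sum.inr i := by
  simp only [fixed, Finset.mem_map, Finset.mem_univ, Function.Embedding.coeFn_mk, true_and]
  exact exists_congr fun i => eq_comm

theorem mem_up {B : Finset (Fin m)} {k : Idx m} : k ∈ up B ↔ ∃ i ∈ B, k = Sum.inl i := by
  simp [up, eq_comm]

@[simp] theorem inl_mem_up {B : Finset (Fin m)} {i : Fin m} : (Sum.inl i : Idx m) ∈ up B ↔ i ∈ B := by
  simp [up]

@[simp] theorem inr_notMem_up {B : Finset (Fin m)} {i : Fin 2} : (Sum.inr i : Idx m) ∉ up B := by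
  simp [up]

@[simp] theorem card_up (B : Finset (Fin m)) : (up B).card = B.card := Finset.card_map _

theorem inner_ext1 {N : ℕ} (v : Fin (N + 1) → ℝ) (x : Pt N) (s : ℝ) :
    inner ℝ (WithLp.toLp 2 v : Pt (N + 1)) (ext1 x s) =
      (∑ j : Fin N, v j.castSucc * x j) + v (Fin.last N) * s := by
  simp only [ext1, PiLp.inner_apply, RCLike.inner_apply, conj_trivial]
  rw [Fin.sum_univ_castSucc]
  simp [mul_comm]

theorem inner_fam_inl (D : Data m n) (c : Pt n) (i : Fin m) (x : Pt n) (s : ℝ) :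
    inner ℝ (fam D c (Sum.inl i)) (ext1 x s) = lhs D i x + D i (Fin.last n) * s := by
  simp only [fam, famE, Sum.elim_inl]
  rw [inner_ext1]
  rfl

theorem inner_fam_inf (D : Data m n) (c : Pt n) (x : Pt n) (s : ℝ) :
    inner ℝ (fam D c inf) (ext1 x s) = s := by
  have h : fam D c inf = WithLp.toLp 2 (Fin.snoc (fun _ => (0 : ℝ)) 1 : Fin (n + 1) → ℝ) := by
    simp only [fam, famE, Sum.elim_inr, fixv, Matrix.cons_val_zero, ext1]
    rfl
  rw [h, inner_ext1]
  simp

theorem inner_fam_obj (D : Data m n) (c : Pt n) (x : Pt n) (s : ℝ) :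
    inner ℝ (fam D c obj) (ext1 x s) = (‖c‖)⁻¹ * inner ℝ c x := by
  have h : fam D c obj =
      WithLp.toLp 2 (Fin.snoc (fun j => (‖c‖)⁻¹ * c j) 0 : Fin (n + 1) → ℝ) := by
    simp only [fam, famE, Sum.elim_inr, fixv, Matrix.cons_val_one, Matrix.cons_val_zero, ext1]
    rfl
  rw [h, inner_ext1]
  simp only [Fin.snoc_castSucc, Fin.snoc_last, zero_mul, add_zero, PiLp.inner_apply,
    RCLike.inner_apply, conj_trivial, Finset.mul_sum]
  exact Finset.sum_congr rfl fun j _ => by ring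

theorem norm_sq_ext1 (x : Pt n) (s : ℝ) : ‖ext1 x s‖ ^ 2 = ‖x‖ ^ 2 + s ^ 2 := by
  rw [EuclideanSpace.norm_sq_eq, EuclideanSpace.norm_sq_eq, Fin.sum_univ_castSucc]
  simp [ext1]

end Pool.Agent.Lib.MP_ab1b6f_lc
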