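import Mathlib
import Pool.Agent.Lib.MP_ab1b6f_lc.Defs
import Pool.Agent.Lib.MP_ab1b6f_lc.Lin

/-!
# The normal vector of a hyperplane  (JOB Normal)
-/

namespace Pool.Agent.Lib.MP_ab1b6f_lc

variable {m n : ℕ}

/-- The key lemma. `w i`, `i ∈ S`, are `n` linearly independent vectors orthogonal to `X ≠ 0` in
`ℝ^(n+1)`, so they span the orthogonal complement of `X` (dimension count). The orthogonal projection
`w a - (⟨w a, X⟩ / ‖X‖²) X` of `w a` is therefore `∑_{k ∈ S} l k w k`, and `Ind` with coefficient `1` at `a` and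
`-l k` at `k ∈ S` gives `η ≤ |⟨w a, X⟩| / ‖X‖`. -/
theorem normal_lower {ι : Type*} [DecidableEq ι] {w : ι → Pt (n + 1)} {S : Finset ι} {a : ι} {η : ℝ}
    (ha : a ∉ S) (hS : S.card = n) (hη : 0 < η) (h : Ind w (insert a S) η) {X : Pt (n + 1)}
    (hX : ∀ i ∈ S, inner ℝ (w i) X = 0) : η * ‖X‖ ≤ |inner ℝ (w a) X| := by
  classical
  by_cases hX0 : X = 0
  · rw [hX0, norm_zero, mul_zero]
    exact abs_nonneg _
  have hXn : 0 < ‖X‖ := norm_pos_iff.2 hX0
  -- extension of coefficients
  have hext : ∀ c : S → ℝ, ∃ l : ι → ℝ, (∀ i : S, l i = c i) ∧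
      ∑ k ∈ S, l k • w k = ∑ i : S, c i • w i := by
    intro c
    refine ⟨fun k => if hk : k ∈ S then c ⟨k, hk⟩ else 0, fun i => ?_, ?_⟩
    · simp
    · rw [← Finset.sum_coe_sort S]
      refine Finset.sum_congr rfl fun i _ => ?_
      simp
  have hli : LinearIndependent ℝ (fun i : S => w i) := by
    rw [Fintype.linearIndependent_iff]
    intro c hc i
    obtain ⟨l, hl, hsum⟩ := hext c
    have h1 := h (fun k => if k = a then 0 else l k) i (Finset.mem_insert_of_mem i.2)
    rw [Finset.sum_insert ha] at h1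
    have h2 : ∑ k ∈ S, (if k = a then (0 : ℝ) else l k) • w k = ∑ k ∈ S, l k • w k := by
      refine Finset.sum_congr rfl fun k hk => ?_
      rw [if_neg]
      rintro rfl
      exact ha hk
    have h3 : (i : ι) ≠ a := by
      rintro h4
      exact ha (h4 ▸ i.2)
    rw [h2, hsum, hc, if_pos rfl, if_neg h3, zero_smul, add_zero, norm_zero, hl] at h1
    have h4 : |c i| ≤ 0 := by
      by_contra hcon
      push Not at hcon
      have := mul_pos hη hcon
      linarith
    exact abs_eq_zero.1 (le_antisymm h4 (abs_nonneg _))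
  have hfin : Module.finrank ℝ (Submodule.span ℝ (Set.range (fun i : S => w i))) = n := by
    rw [finrank_span_eq_card hli, Fintype.card_coe, hS]
  haveI : Fact (Module.finrank ℝ (Pt (n + 1)) = n + 1) := ⟨finrank_euclideanSpace_fin⟩
  have horth : Module.finrank ℝ (Submodule.span ℝ {X})ᗮ = n :=
    Submodule.finrank_orthogonal_span_singleton hX0
  have hle : Submodule.span ℝ (Set.range (fun i : S => w i)) ≤ (Submodule.span ℝ {X})ᗮ := by
    rw [Submodule.span_le]
    rintro _ ⟨i, rfl⟩
    rw [SetLike.mem_coe, Submodule.mem_orthogonal_singleton_iff_inner_left]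
    exact hX i i.2
  have heq := Submodule.eq_of_le_of_finrank_eq hle (by rw [hfin, horth])
  set t : ℝ := inner ℝ (w a) X / ‖X‖ ^ 2 with ht
  have hp : w a - t • X ∈ (Submodule.span ℝ {X})ᗮ := by
    rw [Submodule.mem_orthogonal_singleton_iff_inner_left, inner_sub_left, inner_smul_left,
      real_inner_self_eq_norm_sq, ht]
    simp only [conj_trivial]
    field_simp
    ring
  rw [← heq, Submodule.mem_span_range_iff_exists_fun] at hp
  obtain ⟨c, hc⟩ := hp
  obtain ⟨l, hl, hsum⟩ := hext c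
  have h1 := h (fun k => if k = a then 1 else - l k) a (Finset.mem_insert_self _ _)
  rw [Finset.sum_insert ha] at h1
  have h2 : ∑ k ∈ S, (if k = a then (1 : ℝ) else - l k) • w k = - ∑ k ∈ S, l k • w k := by
    rw [← Finset.sum_neg_distrib]
    refine Finset.sum_congr rfl fun k hk => ?_
    rw [if_neg, neg_smul]
    rintro rfl
    exact ha hk
  rw [h2, hsum, hc, if_pos rfl, one_smul, abs_one, mul_one] at h1
  have h3 : w a + -(w a - t • X) = t • X := by abel
  rw [h3, norm_smul, Real.norm_eq_abs, ht, abs_div, abs_of_pos (by positivity : 0 < ‖X‖ ^ 2)] at h1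
  have h4 : |inner ℝ (w a) X| / ‖X‖ ^ 2 * ‖X‖ = |inner ℝ (w a) X| / ‖X‖ := by
    field_simp
  rw [h4, le_div_iff₀ hXn] at h1
  exact h1

end Pool.Agent.Lib.MP_ab1b6f_lc
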