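import Mathlib
import Pool.Agent.Lib.MP_ab1b6f_lc.Fam
import Pool.Agent.Lib.MP_ab1b6f_lc.Struct
import Pool.Agent.Lib.MP_ab1b6f_lc.Normal

/-!
# Quantitative geometry of a simplex step  (JOB Geo)
-/

namespace Pool.Agent.Lib.MP_ab1b6f_lc

variable {m n : ℕ}

private theorem geo_norm_ge (x : Pt n) : 1 ≤ ‖ext1 x (-1)‖ := by
  have h := norm_sq_ext1 x (-1)
  have h1 : 1 ≤ ‖ext1 x (-1)‖ ^ 2 := by
    rw [h]
    nlinarith [sq_nonneg ‖x‖]
  by_contra hc
  push Not at hc
  nlinarith [norm_nonneg (ext1 x (-1))]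

private theorem geo_norm_zero (x : Pt n) : ‖ext1 x 0‖ = ‖x‖ := by
  have h := norm_sq_ext1 x 0
  rw [zero_pow (by norm_num), add_zero] at h
  exact (pow_left_inj₀ (norm_nonneg _) (norm_nonneg _) (by norm_num)).1 h

private theorem geo_inner_act {D : Data m n} {c x : Pt n} {i : Fin m} (hi : i ∈ act D x) :
    inner ℝ (fam D c (Sum.inl i)) (ext1 x (-1)) = 0 := by
  rw [inner_fam_inl, mem_act.1 hi]
  ring

private theorem geo_up_insert (B : Finset (Fin m)) (i : Fin m) :
    up (insert i B) = insert (Sum.inl i) (up B) := by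
  ext k
  simp only [mem_up, Finset.mem_insert]
  constructor
  · rintro ⟨j, rfl | hj, rfl⟩
    · exact Or.inl rfl
    · exact Or.inr ⟨j, hj, rfl⟩
  · rintro (rfl | ⟨j, hj, rfl⟩)
    · exact ⟨i, Or.inl rfl, rfl⟩
    · exact ⟨j, Or.inr hj, rfl⟩

private noncomputable def geoMap (D : Data m n) (x : Pt n) : Pt n →ₗ[ℝ] (act D x → ℝ) where
  toFun d := fun i => lhs D i d
  map_add' a b := by
    ext i
    exact lhs_add D i a b
  map_smul' t a := by
    ext i
    exact lhs_smul D i t a

/-- A vertex `x` has at least `n` active constraints by `eq_zero_of_ext` (injective linear map) and at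
most `n` by `normal_lower` with `X = ext1 x (-1) ≠ 0`, `S` consisting of `n` active constraints, `a`
another one. -/
theorem isSimple_of_ind {D : Data m n} {c : Pt n} {θ : ℝ} (hθ : 0 < θ)
    (h : ∀ S : Finset (Idx m), S.card = n + 1 → Ind (fam D c) S θ) : IsSimple D := by
  intro x hx
  apply le_antisymm
  · by_contra hc
    push Not at hc
    obtain ⟨S, hS, hScard⟩ := Finset.exists_subset_card_eq (show n ≤ (act D x).card by omega)
    have hne : (act D x \ S).Nonempty := by
      rw [← Finset.card_pos, Finset.card_sdiff_of_subset hS]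
      omega
    obtain ⟨a, ha⟩ := hne
    rw [Finset.mem_sdiff] at ha
    have h1 := normal_lower (w := fam D c) (S := up S) (a := Sum.inl a) (η := θ)
      (X := ext1 x (-1)) (by rw [inl_mem_up]; exact ha.2) (by rw [card_up, hScard]) hθ
      (h _ (by
        rw [Finset.card_insert_of_notMem (by rw [inl_mem_up]; exact ha.2), card_up, hScard]))
      (by
        intro i hi
        obtain ⟨j, hj, rfl⟩ := mem_up.1 hi
        exact geo_inner_act (hS hj))
    rw [geo_inner_act ha.1, abs_zero] at h1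
    have h2 := geo_norm_ge x
    nlinarith
  · have hinj : Function.Injective (geoMap D x) := by
      rw [← LinearMap.ker_eq_bot, LinearMap.ker_eq_bot']
      intro d hd
      apply eq_zero_of_ext hx
      intro i hi
      exact congrFun hd ⟨i, hi⟩
    have h1 := LinearMap.finrank_le_finrank_of_injective hinj
    rw [finrank_euclideanSpace_fin, Module.finrank_fintype_fun_eq_card, Fintype.card_coe] at h1
    exact h1

/-- `normal_lower` with `a = inf`, `X = ext1 x (-1)`. -/
theorem vertex_norm {D : Data m n} {c x : Pt n} {η : ℝ} (hη : 0 < η)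
    (hcard : (act D x).card = n) (h : Ind (fam D c) (insert inf (up (act D x))) η) :
    η * ‖ext1 x (-1)‖ ≤ 1 := by
  have h1 := normal_lower (w := fam D c) (S := up (act D x)) (a := inf) (η := η)
    (X := ext1 x (-1)) (inr_notMem_up) (by rw [card_up, hcard]) hη h
    (by
      intro i hi
      obtain ⟨j, hj, rfl⟩ := mem_up.1 hi
      exact geo_inner_act hj)
  rw [inner_fam_inf, abs_neg, abs_one] at h1
  exact h1

private theorem geo_card {D : Data m n} {x : Pt n} (hcard : (act D x).card = n) {j : Fin m}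
    (hj : j ∈ act D x) : (insert (inf : Idx m) (up ((act D x).erase j))).card = n := by
  rw [Finset.card_insert_of_notMem inr_notMem_up, card_up, Finset.card_erase_of_mem hj, hcard]
  have : 0 < (act D x).card := Finset.card_pos.2 ⟨j, hj⟩
  omega

private theorem geo_dir_inner {D : Data m n} {c x : Pt n} {d : Fin m → Pt n} (hd : Dirs D x d)
    {j : Fin m} (hj : j ∈ act D x) : ∀ i ∈ insert (inf : Idx m) (up ((act D x).erase j)),
    inner ℝ (fam D c i) (ext1 (d j) 0) = 0 := by
  intro i hi
  rw [Finset.mem_insert] at hi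
  rcases hi with rfl | hi
  · rw [inner_fam_inf]
  · obtain ⟨k, hk, rfl⟩ := mem_up.1 hi
    rw [Finset.mem_erase] at hk
    rw [inner_fam_inl, hd.off j hj k hk.2 hk.1]
    ring

/-- `normal_lower` with `a = inl j`, `S = insert inf (up (act D x \ {j}))`, `X = ext1 (d j) 0`. -/
theorem dir_norm {D : Data m n} {c x : Pt n} {d : Fin m → Pt n} {η : ℝ} (hη : 0 < η)
    (hcard : (act D x).card = n) (hd : Dirs D x d) {j : Fin m} (hj : j ∈ act D x)
    (h : Ind (fam D c) (insert inf (up (act D x))) η) : η * ‖d j‖ ≤ 1 := by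
  have e : insert (Sum.inl j) (insert (inf : Idx m) (up ((act D x).erase j))) =
      insert inf (up (act D x)) := by
    rw [Finset.insert_comm, ← geo_up_insert, Finset.insert_erase hj]
  have h1 := normal_lower (w := fam D c) (S := insert (inf : Idx m) (up ((act D x).erase j)))
    (a := Sum.inl j) (η := η) (X := ext1 (d j) 0) (by
      rw [Finset.mem_insert, inl_mem_up]
      simp) (geo_card hcard hj) hη (by rw [e]; exact h) (geo_dir_inner hd hj)
  rw [inner_fam_inl, hd.diag j hj, geo_norm_zero] at h1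
  simpa using h1

/-- `normal_lower` with `a = inl j`, `S = up (act D w)`, `X = ext1 w (-1)` (norm at least `1`). -/
theorem step_len {D : Data m n} {c x w : Pt n} {d : Fin m → Pt n} {η t : ℝ} (hη : 0 < η)
    (hcard : (act D x).card = n) (hd : Dirs D x d) {i j : Fin m} (hj : j ∈ act D x)
    (hi : i ∉ act D x) (ht : 0 < t) (hw : w = x + t • d j)
    (hact : act D w = insert i ((act D x).erase j))
    (h : Ind (fam D c) (insert (Sum.inl i) (up (act D x))) η) : η ≤ t := by
  have hjw : j ∉ act D w := by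
    rw [hact, Finset.mem_insert, Finset.mem_erase]
    rintro (rfl | h')
    · exact hi hj
    · exact h'.1 rfl
  have e : insert (Sum.inl j) (up (act D w)) = insert (Sum.inl i) (up (act D x)) := by
    rw [hact, geo_up_insert, Finset.insert_comm, ← geo_up_insert, Finset.insert_erase hj]
  have h1 := normal_lower (w := fam D c) (S := up (act D w)) (a := Sum.inl j) (η := η)
    (X := ext1 w (-1)) (by rw [inl_mem_up]; exact hjw) (by
      rw [card_up, hact, Finset.card_insert_of_notMem, Finset.card_erase_of_mem hj, hcard]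
      · have : 0 < (act D x).card := Finset.card_pos.2 ⟨j, hj⟩
        omega
      · rw [Finset.mem_erase]
        exact fun h' => hi h'.2) hη (by rw [e]; exact h) (by
      intro k hk
      obtain ⟨l, hl, rfl⟩ := mem_up.1 hk
      exact geo_inner_act hl)
  have h2 : inner ℝ (fam D c (Sum.inl j)) (ext1 w (-1)) = -t := by
    rw [inner_fam_inl, hw, lhs_add, lhs_smul, hd.diag j hj, mem_act.1 hj]
    ring
  rw [h2, abs_neg, abs_of_pos ht] at h1
  have h3 := geo_norm_ge w
  nlinarith

/-- `normal_lower` with `a = obj`, `S = insert inf (up (act D x \ {j}))`, `X = ext1 (d j) 0`. -/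
theorem obj_dir {D : Data m n} {c x : Pt n} (hc : c ≠ 0) {d : Fin m → Pt n} {θ : ℝ} (hθ : 0 < θ)
    (hcard : (act D x).card = n) (hd : Dirs D x d) {j : Fin m} (hj : j ∈ act D x)
    (h : ∀ S : Finset (Idx m), S.card = n + 1 → Ind (fam D c) S θ) :
    θ * ‖c‖ * ‖d j‖ ≤ |inner ℝ c (d j)| := by
  have hnot : (obj : Idx m) ∉ insert (inf : Idx m) (up ((act D x).erase j)) := by
    rw [Finset.mem_insert]
    rintro (h' | h')
    · simp [obj, inf] at h'
    · exact inr_notMem_up h'
  have h1 := normal_lower (w := fam D c) (S := insert (inf : Idx m) (up ((act D x).erase j)))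
    (a := obj) (η := θ) (X := ext1 (d j) 0) hnot (geo_card hcard hj) hθ
    (h _ (by rw [Finset.card_insert_of_notMem hnot, geo_card hcard hj])) (geo_dir_inner hd hj)
  rw [inner_fam_obj, geo_norm_zero, abs_mul, abs_inv, abs_norm] at h1
  have hc' : 0 < ‖c‖ := norm_pos_iff.2 hc
  calc θ * ‖c‖ * ‖d j‖ = ‖c‖ * (θ * ‖d j‖) := by ring
    _ ≤ ‖c‖ * ((‖c‖)⁻¹ * |inner ℝ c (d j)|) := mul_le_mul_of_nonneg_left h1 hc'.le
    _ = |inner ℝ c (d j)| := by
        rw [← mul_assoc, mul_inv_cancel₀ hc'.ne', one_mul]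

/-- Cauchy-Schwarz: `-1 = lhs D j (d j) = ⟨row j, ext1 (d j) 0⟩`. -/
theorem norm_dir_ge {D : Data m n} {c x : Pt n} {d : Fin m → Pt n} {R : ℝ}
    (hR : ∀ i, ‖fam D c (Sum.inl i)‖ ≤ R) (hd : Dirs D x d) {j : Fin m} (hj : j ∈ act D x) :
    1 ≤ R * ‖d j‖ := by
  have h1 := abs_real_inner_le_norm (fam D c (Sum.inl j)) (ext1 (d j) 0)
  rw [inner_fam_inl, hd.diag j hj, geo_norm_zero, mul_zero, add_zero, abs_neg, abs_one] at h1
  exact h1.trans (mul_le_mul_of_nonneg_right (hR j) (norm_nonneg _))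

/-- Cauchy-Schwarz: the slack is `-⟨row j, ext1 z (-1)⟩`. -/
theorem slack_le {D : Data m n} {c z : Pt n} {R : ℝ} (hR : ∀ i, ‖fam D c (Sum.inl i)‖ ≤ R)
    (j : Fin m) : D j (Fin.last n) - lhs D j z ≤ R * ‖ext1 z (-1)‖ := by
  have h1 := abs_real_inner_le_norm (fam D c (Sum.inl j)) (ext1 z (-1))
  rw [inner_fam_inl] at h1
  have h2 := neg_abs_le (lhs D j z + D j (Fin.last n) * -1)
  have h3 : ‖fam D c (Sum.inl j)‖ * ‖ext1 z (-1)‖ ≤ R * ‖ext1 z (-1)‖ :=
    mul_le_mul_of_nonneg_right (hR j) (norm_nonneg _)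
  linarith

end Pool.Agent.Lib.MP_ab1b6f_lc
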