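import Mathlib
import Pool.Agent.Lib.MP_ab1b6f_lc.Geo
import Pool.Agent.Lib.MP_ab1b6f_lc.EdgeA
import Pool.Agent.Lib.MP_ab1b6f_lc.EdgeB

/-!
# Progress at a well-conditioned vertex  (JOB Prog)
-/

open scoped ENNReal

namespace Pool.Agent.Lib.MP_ab1b6f_lc

variable {m n : ℕ}

/-- A well-conditioned vertex. -/
def GoodV (D : Data m n) (c : Pt n) (η : ℝ) (x : Pt n) : Prop :=
  x ∈ (poly D).extremePoints ℝ ∧
    ∀ k ∈ insert inf (rnd m), k ∉ up (act D x) → Ind (fam D c) (insert k (up (act D x))) η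

/-- The conditions on the data used at well-conditioned vertices. -/
structure GeoEv (D : Data m n) (c : Pt n) (η θ R : ℝ) : Prop where
  norm_le : ∀ i, ‖fam D c (Sum.inl i)‖ ≤ R
  ind : ∀ S : Finset (Idx m), S.card = n + 1 → Ind (fam D c) S θ

/-- The rules of the problem. -/
def Rule (P : Set (Pt n)) (c : Pt n) (p : Pt n → Pt n → ℝ≥0∞) : Prop :=
  Greedy P c p ∨ Steepest P c p ∨ Random P c p

private theorem prog_inf_mem : (inf : Idx m) ∈ insert (inf : Idx m) (rnd m) := Finset.mem_insert_self _ _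

private theorem prog_inl_mem (i : Fin m) : (Sum.inl i : Idx m) ∈ insert (inf : Idx m) (rnd m) := by
  rw [Finset.mem_insert, mem_rnd]
  exact Or.inr ⟨i, rfl⟩

/-- The vertex `x` and a well-conditioned vertex `z` with a larger objective: some edge direction at
`x` has a large objective. `⟨c, z - x⟩ = ∑_j (b_j - lhs D j z) ⟨c, d j⟩` by `Dirs.expand`, the slacks are between `0`
and `R / η` (`slack_le`, `vertex_norm`); take the `j` with the largest `⟨c, d j⟩`. -/
theorem best_dir {D : Data m n} {c x z : Pt n} {η θ R : ℝ} (hη : 0 < η) (hR : 0 < R)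
    (hE : GeoEv D c η θ R) (hS : IsSimple D) {d : Fin m → Pt n} (hd : Dirs D x d)
    (hz : GoodV D c η z) (hlt : 0 < inner ℝ c (z - x)) :
    ∃ j ∈ act D x, (∀ i ∈ act D x, inner ℝ c (d i) ≤ inner ℝ c (d j)) ∧ 0 < inner ℝ c (d j) ∧
      η * inner ℝ c (z - x) ≤ n * R * inner ℝ c (d j) := by
  have hexp : inner ℝ c (z - x) =
      ∑ j ∈ act D x, (D j (Fin.last n) - lhs D j z) * inner ℝ c (d j) := by
    conv_lhs => rw [hd.expand (z - x)]
    rw [inner_sum]
    refine Finset.sum_congr rfl fun j hj => ?_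
    rw [inner_smul_right, lhs_sub, mem_act.1 hj]
    ring
  have hs0 : ∀ j, 0 ≤ D j (Fin.last n) - lhs D j z := fun j => sub_nonneg.2 (hz.1.1 j)
  have hvn : η * ‖ext1 z (-1)‖ ≤ 1 :=
    vertex_norm hη (hS z hz.1) (hz.2 inf prog_inf_mem inr_notMem_up)
  have hs1 : ∀ j, η * (D j (Fin.last n) - lhs D j z) ≤ R := by
    intro j
    have h1 := slack_le (z := z) hE.norm_le j
    calc η * (D j (Fin.last n) - lhs D j z) ≤ η * (R * ‖ext1 z (-1)‖) :=
          mul_le_mul_of_nonneg_left h1 hη.le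
      _ = R * (η * ‖ext1 z (-1)‖) := by ring
      _ ≤ R * 1 := mul_le_mul_of_nonneg_left hvn hR.le
      _ = R := mul_one R
  have hne : (act D x).Nonempty := by
    by_contra hc
    rw [Finset.not_nonempty_iff_eq_empty] at hc
    rw [hexp, hc, Finset.sum_empty] at hlt
    exact lt_irrefl _ hlt
  obtain ⟨j, hj, hmax⟩ := Finset.exists_max_image (act D x) (fun i => inner ℝ c (d i)) hne
  have hpos : 0 < inner ℝ c (d j) := by
    by_contra hc
    push Not at hc
    rw [hexp] at hlt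
    have h2 : ∑ j ∈ act D x, (D j (Fin.last n) - lhs D j z) * inner ℝ c (d j) ≤ 0 := by
      apply Finset.sum_nonpos
      intro i hi
      exact mul_nonpos_of_nonneg_of_nonpos (hs0 i) ((hmax i hi).trans hc)
    linarith
  refine ⟨j, hj, hmax, hpos, ?_⟩
  rw [hexp, Finset.mul_sum]
  have h3 : ∀ i ∈ act D x, η * ((D i (Fin.last n) - lhs D i z) * inner ℝ c (d i)) ≤
      R * inner ℝ c (d j) := by
    intro i hi
    calc η * ((D i (Fin.last n) - lhs D i z) * inner ℝ c (d i)) =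
          (η * (D i (Fin.last n) - lhs D i z)) * inner ℝ c (d i) := by ring
      _ ≤ (η * (D i (Fin.last n) - lhs D i z)) * inner ℝ c (d j) :=
          mul_le_mul_of_nonneg_left (hmax i hi) (mul_nonneg hη.le (hs0 i))
      _ ≤ R * inner ℝ c (d j) := mul_le_mul_of_nonneg_right (hs1 i) hpos.le
  refine (Finset.sum_le_sum h3).trans (le_of_eq ?_)
  rw [Finset.sum_const, hS x hd.ext, nsmul_eq_mul]
  ring

/-- Each improving step from a well-conditioned vertex gains at least `η θ ‖c‖ / R`: the neighbour is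
`x + t • d j` with `t ≥ η` (`nbr_dir`, `nbr_act`, `step_len`), `⟨c, d j⟩ ≥ θ ‖c‖ ‖d j‖` (`obj_dir`) and
`‖d j‖ ≥ 1 / R` (`norm_dir_ge`). -/
theorem gain_min {D : Data m n} {c x w : Pt n} {η θ R : ℝ} (hη : 0 < η) (hθ : 0 < θ) (hR : 0 < R)
    (hc : c ≠ 0) (hE : GeoEv D c η θ R) (hS : IsSimple D) (hx : GoodV D c η x)
    (hw : BetterNbr (poly D) c x w) : η * θ * ‖c‖ / R ≤ inner ℝ c (w - x) := by
  obtain ⟨d, hd⟩ := hS.exists_dirs hx.1
  obtain ⟨j, hj, t, ht, hwt, hpos⟩ := hd.nbr_dir hw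
  obtain ⟨i, hi, hact⟩ := hd.nbr_act hS hj ht hwt hw
  have hlen : η ≤ t := step_len hη (hS x hx.1) hd hj hi ht hwt hact
    (hx.2 _ (prog_inl_mem i) (by rw [inl_mem_up]; exact hi))
  have h1 := obj_dir hc hθ (hS x hx.1) hd hj hE.ind
  rw [abs_of_pos hpos] at h1
  have h2 := norm_dir_ge hE.norm_le hd hj
  have h3 : w - x = t • d j := by
    rw [hwt]
    abel
  rw [h3, inner_smul_right, div_le_iff₀ hR]
  have hcn : 0 ≤ ‖c‖ := norm_nonneg c
  calc η * θ * ‖c‖ = η * (θ * ‖c‖) * 1 := by ring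
    _ ≤ η * (θ * ‖c‖) * (R * ‖d j‖) :=
        mul_le_mul_of_nonneg_left h2 (by positivity)
    _ = η * R * (θ * ‖c‖ * ‖d j‖) := by ring
    _ ≤ η * R * inner ℝ c (d j) := mul_le_mul_of_nonneg_left h1 (by positivity)
    _ ≤ t * R * inner ℝ c (d j) := by
        apply mul_le_mul_of_nonneg_right _ hpos.le
        exact mul_le_mul_of_nonneg_right hlen hR.le
    _ = t * inner ℝ c (d j) * R := by ring

/-- A well-conditioned vertex `x`; the improving neighbours on an edge direction `j` as in `best_dir`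
gain at least `ρ ⟨c, z - x⟩`, `ρ = η^3 / (n R^2)` (in fact `η ^ 2 / (n R)`; use `η ≤ R`, which follows from
`hη1`, `hR1`). -/
theorem fast_dir {D : Data m n} {c x z : Pt n} {η θ R : ℝ} (hη : 0 < η) (hη1 : η ≤ 1) (hR1 : 1 ≤ R)
    (hn : 1 ≤ n) (hE : GeoEv D c η θ R) (hS : IsSimple D) {d : Fin m → Pt n} (hd : Dirs D x d)
    (hx : GoodV D c η x) {j : Fin m} (hj : j ∈ act D x)
    (hbest : η * inner ℝ c (z - x) ≤ n * R * inner ℝ c (d j)) {t : ℝ} (ht : 0 < t)
    (hw : BetterNbr (poly D) c x (x + t • d j)) :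
    η ^ 3 / (n * R ^ 2) * inner ℝ c (z - x) ≤ inner ℝ c ((x + t • d j) - x) := by
  have _ := hE
  obtain ⟨i, hi, hact⟩ := hd.nbr_act hS hj ht rfl hw
  have hlen : η ≤ t := step_len hη (hS x hx.1) hd hj hi ht rfl hact
    (hx.2 _ (prog_inl_mem i) (by rw [inl_mem_up]; exact hi))
  have h3 : (x + t • d j) - x = t • d j := by abel
  have hpos := hw.2.2.2.2
  rw [h3, inner_smul_right] at hpos ⊢
  have hpos' : 0 < inner ℝ c (d j) := by
    by_contra hc
    push Not at hc
    nlinarith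
  set A : ℝ := inner ℝ c (z - x) with hA
  set B : ℝ := inner ℝ c (d j) with hB
  have hn' : (1 : ℝ) ≤ n := by exact_mod_cast hn
  have hR0 : 0 < R := by linarith
  have hn0 : (0 : ℝ) < n := by linarith
  rcases le_or_gt A 0 with hA0 | hA0
  · have h4 : η ^ 3 / (n * R ^ 2) * A ≤ 0 :=
      mul_nonpos_of_nonneg_of_nonpos (by positivity) hA0
    exact h4.trans hpos.le
  · rw [div_mul_eq_mul_div, div_le_iff₀ (by positivity)]
    calc η ^ 3 * A = η ^ 2 * (η * A) := by ring
      _ ≤ η ^ 2 * (n * R * B) := mul_le_mul_of_nonneg_left hbest (by positivity)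
      _ = η * (η * (n * R * B)) := by ring
      _ ≤ R * (t * (n * R * B)) := by
          apply mul_le_mul (hη1.trans hR1) _ (by positivity) hR0.le
          exact mul_le_mul_of_nonneg_right hlen (by positivity)
      _ = t * B * (n * R ^ 2) := by ring

end Pool.Agent.Lib.MP_ab1b6f_lc
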