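import Mathlib
import Pool.Agent.Lib.MP_ab1b6f_lc.Prog

/-!
# Progress of the greedy and the steepest-edge rule  (JOB ProgB)
-/

open scoped ENNReal

namespace Pool.Agent.Lib.MP_ab1b6f_lc

variable {m n : ℕ}

/-- Greedy: there is no improving unbounded edge, so the direction `j` of `best_dir` carries a
neighbour (`edge_exists`), which is fast (`fast_dir`), and `w` gains at least as much. -/
theorem greedy_fast {D : Data m n} {c x z w : Pt n} {η θ R : ℝ} (hη : 0 < η) (hη1 : η ≤ 1)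
    (hR1 : 1 ≤ R) (hn : 1 ≤ n) (hE : GeoEv D c η θ R) (hS : IsSimple D) (hx : GoodV D c η x)
    (hz : GoodV D c η z) (hlt : 0 < inner ℝ c (z - x)) {p : Pt n → Pt n → ℝ≥0∞}
    (hp : Greedy (poly D) c p) (hpw : p x w ≠ 0) :
    η ^ 3 / (n * R ^ 2) * inner ℝ c (z - x) ≤ inner ℝ c (w - x) := by
  obtain ⟨d, hd⟩ := hS.exists_dirs hx.1
  obtain ⟨j, hj, -, hpos, hbest⟩ := best_dir hη (by linarith) hE hS hd hz hlt
  obtain ⟨-, hnoray, hmax⟩ := hp.step x w hpw
  rcases hd.edge_exists hj hpos with ⟨t, ht, hnb⟩ | hray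
  · exact (fast_dir hη hη1 hR1 hn hE hS hd hx hj hbest ht hnb).trans (hmax _ hnb)
  · exact absurd hray (hnoray _)

/-- Steepest edge: `w = x + t • d i`, `t ≥ η`, and the slope `⟨c, d i⟩ / ‖d i‖` of `w` is at least the slope
`⟨c, d j⟩ / ‖d j‖` of the direction `j` of `best_dir` (which carries a neighbour or an unbounded edge,
`edge_exists`); with `‖d i‖ ≥ 1 / R` and `‖d j‖ ≤ 1 / η` (`dir_norm`) the gain is
`t ⟨c, d i⟩ ≥ η ‖d i‖ ⟨c, d j⟩ / ‖d j‖ ≥ η (1/R) η ⟨c, d j⟩ ≥ η^3 ⟨c, z - x⟩ / (n R^2)`. -/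
theorem steepest_fast {D : Data m n} {c x z w : Pt n} {η θ R : ℝ} (hη : 0 < η) (hη1 : η ≤ 1)
    (hR1 : 1 ≤ R) (hn : 1 ≤ n) (hE : GeoEv D c η θ R) (hS : IsSimple D) (hx : GoodV D c η x)
    (hz : GoodV D c η z) (hlt : 0 < inner ℝ c (z - x)) {p : Pt n → Pt n → ℝ≥0∞}
    (hp : Steepest (poly D) c p) (hpw : p x w ≠ 0) :
    η ^ 3 / (n * R ^ 2) * inner ℝ c (z - x) ≤ inner ℝ c (w - x) := by
  have hR : 0 < R := by linarith
  obtain ⟨d, hd⟩ := hS.exists_dirs hx.1
  obtain ⟨j, hj, -, hpos, hbest⟩ := best_dir hη hR hE hS hd hz hlt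
  obtain ⟨hBN, hraymax, hmax⟩ := hp.step x w hpw
  have hcard : (act D x).card = n := hS x hx.1
  obtain ⟨i, hi, t, ht, hwt, hci⟩ := hd.nbr_dir hBN
  obtain ⟨i', hi', hact⟩ := hd.nbr_act hS hi ht hwt hBN
  have hind : Ind (fam D c) (insert (Sum.inl i') (up (act D x))) η := by
    apply hx.2
    · exact Finset.mem_insert_of_mem (mem_rnd.2 ⟨i', rfl⟩)
    · rw [inl_mem_up]
      exact hi'
  have htη : η ≤ t := step_len hη hcard hd hi hi' ht hwt hact hind
  have hinf : Ind (fam D c) (insert inf (up (act D x))) η := by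
    apply hx.2
    · exact Finset.mem_insert_self _ _
    · exact inr_notMem_up
  have hdj : η * ‖d j‖ ≤ 1 := dir_norm hη hcard hd hj hinf
  have hdi : 1 ≤ R * ‖d i‖ := norm_dir_ge hE.norm_le hd hi
  have hdi0 : 0 < ‖d i‖ := norm_pos_iff.2 (hd.ne_zero hi)
  have hdj0 : 0 < ‖d j‖ := norm_pos_iff.2 (hd.ne_zero hj)
  have hwx : w - x = t • d i := by
    rw [hwt]
    simp
  have hslopew : inner ℝ c (w - x) / ‖w - x‖ = inner ℝ c (d i) / ‖d i‖ := by
    rw [hwx, inner_smul_right, norm_smul, Real.norm_eq_abs, abs_of_pos ht]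
    exact mul_div_mul_left _ _ ht.ne'
  have hslope : inner ℝ c (d j) / ‖d j‖ ≤ inner ℝ c (d i) / ‖d i‖ := by
    rw [← hslopew]
    rcases hd.edge_exists hj hpos with ⟨s, hs, hnb⟩ | hray
    · have h1 := hmax _ hnb
      have h2 : x + s • d j - x = s • d j := by simp
      rw [h2, inner_smul_right, norm_smul, Real.norm_eq_abs, abs_of_pos hs,
        mul_div_mul_left _ _ hs.ne'] at h1
      exact h1
    · have h1 := hraymax _ hray
      rw [inner_smul_right] at h1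
      rw [div_eq_inv_mul]
      exact h1
  have hn0 : (0 : ℝ) < n := by exact_mod_cast hn
  -- the gain
  have h1 : inner ℝ c (w - x) = t * inner ℝ c (d i) := by
    rw [hwx, inner_smul_right]
  have h2 : ‖d i‖ * (inner ℝ c (d j) / ‖d j‖) ≤ inner ℝ c (d i) := by
    have := mul_le_mul_of_nonneg_left hslope hdi0.le
    rwa [mul_div_cancel₀ _ hdi0.ne'] at this
  have h3 : η * inner ℝ c (d j) ≤ inner ℝ c (d j) / ‖d j‖ := by
    rw [le_div_iff₀ hdj0]
    calc η * inner ℝ c (d j) * ‖d j‖ = (η * ‖d j‖) * inner ℝ c (d j) := by ring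
      _ ≤ 1 * inner ℝ c (d j) := mul_le_mul_of_nonneg_right hdj hpos.le
      _ = inner ℝ c (d j) := one_mul _
  have h4 : η * inner ℝ c (d j) ≤ R * inner ℝ c (d i) := by
    calc η * inner ℝ c (d j) ≤ inner ℝ c (d j) / ‖d j‖ := h3
      _ = 1 * (inner ℝ c (d j) / ‖d j‖) := (one_mul _).symm
      _ ≤ (R * ‖d i‖) * (inner ℝ c (d j) / ‖d j‖) :=
          mul_le_mul_of_nonneg_right hdi (div_nonneg hpos.le hdj0.le)
      _ = R * (‖d i‖ * (inner ℝ c (d j) / ‖d j‖)) := by ring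
      _ ≤ R * inner ℝ c (d i) := mul_le_mul_of_nonneg_left h2 hR.le
  rw [h1, div_mul_eq_mul_div, div_le_iff₀ (by positivity)]
  calc η ^ 3 * inner ℝ c (z - x) = η ^ 2 * (η * inner ℝ c (z - x)) := by ring
    _ ≤ η ^ 2 * (n * R * inner ℝ c (d j)) := mul_le_mul_of_nonneg_left hbest (by positivity)
    _ = n * R * η * (η * inner ℝ c (d j)) := by ring
    _ ≤ n * R * η * (R * inner ℝ c (d i)) := mul_le_mul_of_nonneg_left h4 (by positivity)
    _ = η * (n * R ^ 2 * inner ℝ c (d i)) := by ring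
    _ ≤ t * (n * R ^ 2 * inner ℝ c (d i)) := mul_le_mul_of_nonneg_right htη (by positivity)
    _ = t * inner ℝ c (d i) * (n * R ^ 2) := by ring

end Pool.Agent.Lib.MP_ab1b6f_lc
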