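import Mathlib
import Pool.Agent.Lib.MP_ab1b6f_lc.Prog

/-!
# Progress of the random rule  (JOB ProgC)
-/

open scoped ENNReal

namespace Pool.Agent.Lib.MP_ab1b6f_lc

variable {m n : ℕ}

/-- Random edge: let `j` be the direction of `best_dir`, `A` the set of improving neighbours, `B` the set
of improving unbounded edges, `|A| + |B| ≤ n` (`encard_le`). The slow neighbours
(`(1 - ρ) ⟨c, z - x⟩ < ⟨c, z - w⟩`, i.e. gain less than `ρ ⟨c, z - x⟩`) are in `A` and avoid the neighbour on the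
direction `j` (by `fast_dir`), or `j` carries an unbounded edge and `|B| ≥ 1`. So there are at most
`|A| + |B| - 1` of them and the slow mass is at most `1 - 1 / (|A| + |B|) ≤ 1 - 1 / n`. -/
theorem random_slow {D : Data m n} {c x z : Pt n} {η θ R : ℝ} (hη : 0 < η) (hη1 : η ≤ 1)
    (hR1 : 1 ≤ R) (hn : 1 ≤ n) (hE : GeoEv D c η θ R) (hS : IsSimple D) (hx : GoodV D c η x)
    (hz : GoodV D c η z) (hlt : 0 < inner ℝ c (z - x)) {p : Pt n → Pt n → ℝ≥0∞}
    (hp : Random (poly D) c p) :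
    ∑' w, (if (1 - η ^ 3 / (n * R ^ 2)) * inner ℝ c (z - x) < inner ℝ c (z - w) then p x w else 0) ≤
      1 - (n : ℝ≥0∞)⁻¹ := by
  classical
  obtain ⟨d, hd⟩ := hS.exists_dirs hx.1
  have hR : 0 < R := by linarith
  obtain ⟨j, hj, -, hcj, hbest⟩ := best_dir hη hR hE hS hd hz hlt
  have hN := Dirs.encard_le (c := c) hS hd
  set A : Set (Pt n) := {w' | BetterNbr (poly D) c x w'} with hA
  set B : Set (Pt n) := {e | BetterRay (poly D) c x e} with hB
  set ρ : ℝ := η ^ 3 / (n * R ^ 2) with hρ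
  set S : Set (Pt n) := {w | BetterNbr (poly D) c x w ∧
    (1 - ρ) * inner ℝ c (z - x) < inner ℝ c (z - w)} with hSdef
  have hSA : S ⊆ A := fun w hw => hw.1
  have hcard : S.encard + 1 ≤ A.encard + B.encard := by
    rcases hd.edge_exists hj hcj with ⟨t, ht, hw⟩ | hray
    · have hfast := fast_dir hη hη1 hR1 hn hE hS hd hx hj hbest ht hw
      have hnot : x + t • d j ∉ S := by
        rintro ⟨-, h2⟩
        have h3 : inner ℝ c (z - (x + t • d j)) =
            inner ℝ c (z - x) - inner ℝ c ((x + t • d j) - x) := by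
          rw [← inner_sub_right]
          congr 1
          abel
        rw [h3] at h2
        have h4 : (1 - ρ) * inner ℝ c (z - x) =
            inner ℝ c (z - x) - ρ * inner ℝ c (z - x) := by ring
        rw [h4] at h2
        linarith
      have h5 : insert (x + t • d j) S ⊆ A := by
        intro y hy
        rcases hy with rfl | hy
        · exact hw
        · exact hSA hy
      have h6 := Set.encard_le_encard h5
      rw [Set.encard_insert_of_notMem hnot] at h6
      exact h6.trans le_self_add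
    · have h1 : (1 : ℕ∞) ≤ B.encard := by
        rw [Set.one_le_encard_iff_nonempty]
        exact ⟨_, hray⟩
      exact add_le_add (Set.encard_le_encard hSA) h1
  have hsum : ∑' w, (if (1 - ρ) * inner ℝ c (z - x) < inner ℝ c (z - w) then p x w else 0) =
      S.encard * (((A.encard + B.encard : ℕ∞) : ℝ≥0∞))⁻¹ := by
    rw [← ENNReal.tsum_set_const, tsum_subtype S
      (fun _ => (((A.encard + B.encard : ℕ∞) : ℝ≥0∞))⁻¹)]
    refine tsum_congr fun w => ?_
    by_cases hw : w ∈ S
    · rw [Set.indicator_of_mem hw, if_pos hw.2, hp x w, if_pos hw.1]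
    · rw [Set.indicator_of_notMem hw]
      by_cases h2 : (1 - ρ) * inner ℝ c (z - x) < inner ℝ c (z - w)
      · have h3 : ¬ BetterNbr (poly D) c x w := fun h => hw ⟨h, h2⟩
        rw [if_pos h2, hp x w, if_neg h3]
      · rw [if_neg h2]
  rw [hsum]
  have hn0 : (n : ℝ≥0∞) ≠ 0 := by
    have : n ≠ 0 := by omega
    exact_mod_cast this
  refine ENNReal.le_sub_of_add_le_right (ENNReal.inv_ne_top.2 hn0) ?_
  have hN' : (((A.encard + B.encard : ℕ∞)) : ℝ≥0∞) ≤ (n : ℝ≥0∞) := by
    exact_mod_cast ENat.toENNReal_le.2 hN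
  have hcard' : (S.encard : ℝ≥0∞) + 1 ≤ ((A.encard + B.encard : ℕ∞) : ℝ≥0∞) := by
    have h1 := ENat.toENNReal_le.2 hcard
    rwa [ENat.toENNReal_add, ENat.toENNReal_one] at h1
  calc (S.encard : ℝ≥0∞) * (((A.encard + B.encard : ℕ∞) : ℝ≥0∞))⁻¹ + (n : ℝ≥0∞)⁻¹
      ≤ (S.encard : ℝ≥0∞) * (((A.encard + B.encard : ℕ∞) : ℝ≥0∞))⁻¹ +
        (((A.encard + B.encard : ℕ∞) : ℝ≥0∞))⁻¹ := by
        gcongr
    _ = ((S.encard : ℝ≥0∞) + 1) * (((A.encard + B.encard : ℕ∞) : ℝ≥0∞))⁻¹ := by
        rw [add_mul, one_mul]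
    _ ≤ 1 := by
        rw [← div_eq_mul_inv]
        refine ENNReal.div_le_of_le_mul ?_
        rw [one_mul]
        exact hcard'

end Pool.Agent.Lib.MP_ab1b6f_lc
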