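import Mathlib
import Pool.Agent.Lib.MP_ab1b6f_lc.Vert

/-!
# The number of vertices  (JOB VertFin)
-/

namespace Pool.Agent.Lib.MP_ab1b6f_lc

variable {m n : ℕ}

/-- The constraint `i` as a linear functional. -/
private noncomputable def vf (D : Data m n) (i : Fin m) : Module.Dual ℝ (Pt n) where
  toFun := lhs D i
  map_add' := lhs_add D i
  map_smul' := lhs_smul D i

private theorem vertfin_choose (D : Data m n) {x : Pt n} (hx : x ∈ (poly D).extremePoints ℝ) :
    ∃ g : Fin n → Fin m, (∀ k, g k ∈ act D x) ∧
      ∀ d : Pt n, (∀ k, lhs D (g k) d = 0) → d = 0 := by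
  set S : Set (Module.Dual ℝ (Pt n)) := vf D '' (act D x : Set (Fin m)) with hS
  have hco : (Submodule.span ℝ S).dualCoannihilator = ⊥ := by
    rw [eq_bot_iff]
    intro d hd
    rw [Submodule.mem_dualCoannihilator] at hd
    rw [Submodule.mem_bot]
    exact eq_zero_of_ext hx fun i hi =>
      hd (vf D i) (Submodule.subset_span ⟨i, hi, rfl⟩)
  have hspan : ⊤ ≤ Submodule.span ℝ S := by
    have h1 := Subspace.finrank_add_finrank_dualCoannihilator_eq (Submodule.span ℝ S)
    rw [hco, finrank_bot, add_zero] at h1
    rw [top_le_iff]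
    apply Submodule.eq_top_of_finrank_eq
    rw [h1, Subspace.dual_finrank_eq]
  let b := Module.Basis.ofSpan hspan
  have hfr : Module.finrank ℝ (Module.Dual ℝ (Pt n)) = n := by
    rw [Subspace.dual_finrank_eq, finrank_euclideanSpace_fin]
  let b0 := Module.finBasisOfFinrankEq ℝ (Module.Dual ℝ (Pt n)) hfr
  let e := b0.indexEquiv b
  have hb : ∀ k : Fin n, ∃ i ∈ act D x, vf D i = b (e k) := by
    intro k
    have : b (e k) ∈ S := Module.Basis.ofSpan_subset hspan ⟨e k, rfl⟩
    obtain ⟨i, hi, h⟩ := this
    exact ⟨i, hi, h⟩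
  choose g hg1 hg2 using hb
  refine ⟨g, hg1, fun d hd => ?_⟩
  have hev : Module.Dual.eval ℝ (Pt n) d = 0 := by
    apply b.ext
    intro j
    obtain ⟨k, rfl⟩ := e.surjective j
    rw [← hg2 k]
    exact hd k
  exact eq_zero_of_ext hx fun i _ => by
    have := LinearMap.congr_fun hev (vf D i)
    exact this

/-- A polyhedron with `m` constraints in dimension `n` has at most `m ^ n` vertices: choose for each
vertex `x` a map `g : Fin n → Fin m` with active values such that `d = 0` as soon as
`lhs D (g k) d = 0` for all `k` (linear algebra: the functionals `lhs D i`, `i ∈ act D x`, span the dual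
space by `eq_zero_of_ext`, so they contain a basis); `x` is determined by `g`. -/
theorem ext_finite (D : Data m n) :
    ((poly D).extremePoints ℝ).Finite ∧ ((poly D).extremePoints ℝ).ncard ≤ m ^ n := by
  classical
  choose g hg1 hg2 using fun x : (poly D).extremePoints ℝ => vertfin_choose D x.2
  have hinj : Function.Injective g := by
    intro x y hxy
    apply Subtype.ext
    have h0 : (x : Pt n) - y = 0 := by
      apply hg2 x
      intro k
      rw [lhs_sub, mem_act.1 (hg1 x k)]
      have := mem_act.1 (hg1 y k)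
      rw [← hxy] at this
      rw [this, sub_self]
    exact sub_eq_zero.1 h0
  have hfin : Finite ((poly D).extremePoints ℝ) := Finite.of_injective g hinj
  refine ⟨Set.toFinite _, ?_⟩
  have h1 : Nat.card ((poly D).extremePoints ℝ) ≤ Nat.card (Fin n → Fin m) :=
    Nat.card_le_card_of_injective g hinj
  rw [Nat.card_coe_set_eq] at h1
  refine h1.trans (le_of_eq ?_)
  simp

end Pool.Agent.Lib.MP_ab1b6f_lc
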