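import Mathlib
import Pool.Agent.Lib.MP_ab1b6f_lc.Core

/-!
# Walks through ill-conditioned bases  (JOB Walk)
-/

namespace Pool.Agent.Lib.MP_ab1b6f_lc

variable {ι V : Type*} [DecidableEq ι] [NormedAddCommGroup V] [NormedSpace ℝ V]

/-- The deterministic conditions used for walks through ill-conditioned bases: `rnd` is the set of
random indices, `δ, X, Q, K, κ` are parameters. -/
structure WalkEv (w : ι → V) (rnd : Finset ι) (n δ X Q K κ : ℕ) (b R : ℝ) : Prop where
  norm_le : ∀ i ∈ rnd, ‖w i‖ ≤ R
  glob : ∀ S : Finset ι, n + 1 ≤ S.card + 2 * δ + 2 → S.card + δ ≤ n + 1 →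
    Ind w S (th b (n + 1) K κ S.card)
  perc : ∀ S0 : Finset ι, S0.card ≤ n + 2 → ∀ (k : ℕ) (U : Finset ι) (p : ℝ), X < k →
    k ≤ X + δ + 1 → Reach w rnd S0 Q n k U p → (2 * R) ^ k < p * (b ^ κ) ^ k

/-- A walk `B 0, B 1, ..., B L` of sets of size `n` such that `B t ∪ {l t}` is ill-conditioned for all
`t`: there is a small set `U` that contains a large part `C` of every `B t ∪ {l t}`.
Proof: choose a core `C t` of `insert (l t) (B t)` by `exists_core`; by `glob` it has
`n + 2 ≤ |C t| + δ`. Put `U 0 = insert inf (C 0)` and `U (t+1) = U t ∪ C (t+1)`. Show by induction on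
`t ≤ L`: there are `k ≤ X` and `p` with `Reach w rnd (U 0) Q n k (U t) p` and
`p * (b ^ κ) ^ k ≤ (2R) ^ k`. Step: `|C (t+1) \ U t| ≤ |C (t+1) \ C t| ≤ |J (t+1) \ J t| + |J t \ C t|
≤ 2 + (δ - 1) = δ + 1` where `J t = insert (l t) (B t)`; if `C (t+1) ⊆ U t` nothing changes; otherwise
`O = C (t+1) ∩ U t` is a proper subset of `C (t+1)` with at least `n + 1 - 2δ` elements, so it is
`θ_{|O|}`-independent and `Reach.extend` applies
(`|U t \ C (t+1)| ≤ |U t| - |O| ≤ (n + 2 + X) - (n + 1 - 2 δ) = X + 2δ + 1 ≤ Q`); with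
`θ_{|O|} = θ_{|C|} b ^ (κ x)`, `x = |C \ U|`, the new product is at most `(2R)^k' / (b^κ)^k'`. The new
`k' = k + x ≤ X + δ + 1` cannot exceed `X` by `perc`. -/
theorem WalkEv.exists_union {w : ι → V} {rnd : Finset ι} {inf : ι} {n δ X Q K κ : ℕ} {b R : ℝ}
    (h : WalkEv w rnd n δ X Q K κ b R) (hb : 1 ≤ b) (hR : 1 ≤ R) (hδ : 1 ≤ δ)
    (hK : (2 * δ + 2) * κ ≤ K) (hQ : X + 2 * δ + 1 ≤ Q)
    (B : ℕ → Finset ι) (l : ℕ → ι) (L : ℕ)
    (hcard : ∀ t ≤ L, (B t).card = n) (hB : ∀ t ≤ L, B t ⊆ rnd) (hl : ∀ t ≤ L, l t ∉ B t)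
    (hl' : ∀ t ≤ L, l t ∈ insert inf rnd)
    (hbad : ∀ t ≤ L, ¬ Ind w (insert (l t) (B t)) (th b (n + 1) K κ (n + 1)))
    (hstep : ∀ t < L, (B (t + 1) \ B t).card ≤ 1) :
    ∃ U : Finset ι, U.card ≤ n + 2 + X ∧
      ∀ t ≤ L, ∃ C ⊆ insert (l t) (B t), C ⊆ U ∧ n + 2 ≤ C.card + δ := by
  classical
  have hb0 : 0 < b := lt_of_lt_of_le one_pos hb
  have hR0 : 0 < R := lt_of_lt_of_le one_pos hR
  have hJcard : ∀ t ≤ L, (insert (l t) (B t)).card = n + 1 := fun t ht => by
    rw [Finset.card_insert_of_notMem (hl t ht), hcard t ht]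
  -- cores
  have hcore : ∀ t, ∃ C : Finset ι, t ≤ L → (C ⊆ insert (l t) (B t) ∧ n + 2 ≤ C.card + δ ∧
      ¬ Ind w C (th b (n + 1) K κ C.card) ∧
      ∀ O ⊂ C, n + 1 ≤ O.card + 2 * δ + 2 → Ind w O (th b (n + 1) K κ O.card)) := by
    intro t
    by_cases ht : t ≤ L
    · obtain ⟨C, h1, h2, h3, h4⟩ := exists_core (δ := δ) (hJcard t ht) (hbad t ht)
      refine ⟨C, fun _ => ⟨h1, ?_, h3, h4⟩⟩
      by_contra hcon
      exact h3 (h.glob C h2 (by omega))
    · exact ⟨∅, fun h => absurd h ht⟩
  choose C hC using hcore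
  have hCcard : ∀ t ≤ L, (C t).card ≤ n + 1 := fun t ht =>
    (Finset.card_le_card (hC t ht).1).trans (hJcard t ht).le
  have hCinf : ∀ t ≤ L, C t ⊆ insert inf rnd := by
    intro t ht x hx
    rcases Finset.mem_insert.1 ((hC t ht).1 hx) with h1 | h1
    · rw [h1]; exact hl' t ht
    · exact Finset.mem_insert_of_mem (hB t ht h1)
  have hU0 : (insert inf (C 0)).card ≤ n + 2 :=
    (Finset.card_insert_le _ _).trans (Nat.succ_le_succ (hCcard 0 (Nat.zero_le _)))
  have main : ∀ t ≤ L, ∃ (k : ℕ) (U : Finset ι) (p : ℝ), k ≤ X ∧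
      Reach w rnd (insert inf (C 0)) Q n k U p ∧ p * (b ^ κ) ^ k ≤ (2 * R) ^ k ∧
      ∀ s ≤ t, C s ⊆ U := by
    intro t
    induction t with
    | zero =>
      intro _
      refine ⟨0, insert inf (C 0), 1, Nat.zero_le _, Reach.zero, by simp, ?_⟩
      intro s hs
      obtain rfl : s = 0 := Nat.le_zero.1 hs
      exact Finset.subset_insert _ _
    | succ t ih =>
      intro ht
      obtain ⟨k, U, p, hk, hreach, hp, hsub⟩ := ih (by omega)
      have htL : t ≤ L := by omega
      obtain ⟨c1, c2, c3, c4⟩ := hC (t + 1) ht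
      obtain ⟨d1, d2, _, _⟩ := hC t htL
      by_cases hCU : C (t + 1) ⊆ U
      · refine ⟨k, U, p, hk, hreach, hp, fun s hs => ?_⟩
        rcases Nat.lt_or_ge s (t + 1) with h1 | h1
        · exact hsub s (by omega)
        · obtain rfl : s = t + 1 := by omega
          exact hCU
      · -- the set of new elements
        have hrnd : C (t + 1) \ U ⊆ rnd := by
          intro x hx
          rw [Finset.mem_sdiff] at hx
          rcases Finset.mem_insert.1 (hCinf (t + 1) ht hx.1) with h1 | h1
          · exact absurd (hreach.subset (h1 ▸ Finset.mem_insert_self _ _)) hx.2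
          · exact h1
        have hx1 : (C (t + 1) \ U).card ≤ δ + 1 := by
          have e1 : C (t + 1) \ U ⊆ insert (l (t + 1)) (B (t + 1) \ B t) ∪
              (insert (l t) (B t) \ C t) := by
            intro x hx
            rw [Finset.mem_sdiff] at hx
            have hxC : x ∉ C t := fun h1 => hx.2 (hsub t le_rfl h1)
            rw [Finset.mem_union]
            rcases Finset.mem_insert.1 (c1 hx.1) with h1 | h1
            · left; rw [h1]; exact Finset.mem_insert_self _ _
            · by_cases h2 : x ∈ B t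
              · right
                rw [Finset.mem_sdiff]
                exact ⟨Finset.mem_insert_of_mem h2, hxC⟩
              · left
                exact Finset.mem_insert_of_mem (Finset.mem_sdiff.2 ⟨h1, h2⟩)
          have e2 := Finset.card_le_card e1
          have e3 := Finset.card_union_le (insert (l (t + 1)) (B (t + 1) \ B t))
            (insert (l t) (B t) \ C t)
          have e4 := Finset.card_insert_le (l (t + 1)) (B (t + 1) \ B t)
          have e5 := hstep t (by omega)
          have e6 := Finset.card_sdiff_of_subset d1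
          rw [hJcard t htL] at e6
          omega
        have hx2 : (C (t + 1) \ U).card + (C (t + 1) ∩ U).card = (C (t + 1)).card :=
          Finset.card_sdiff_add_card_inter _ _
        have hOss : C (t + 1) ∩ U ⊂ C (t + 1) := by
          refine ⟨Finset.inter_subset_left, fun h1 => hCU fun x hx => ?_⟩
          exact (Finset.mem_inter.1 (h1 hx)).2
        have hO : Ind w (C (t + 1) ∩ U) (th b (n + 1) K κ (C (t + 1) ∩ U).card) :=
          c4 _ hOss (by omega)
        have hCc := hCcard (t + 1) ht
        have hQc : (U \ C (t + 1)).card ≤ Q := by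
          have e1 : (U \ C (t + 1)).card + (U ∩ C (t + 1)).card = U.card :=
            Finset.card_sdiff_add_card_inter _ _
          rw [Finset.inter_comm] at e1
          have e2 := hreach.card
          omega
        have hθ0 : 0 ≤ th b (n + 1) K κ (C (t + 1) ∩ U).card := by
          unfold th; positivity
        have hθ1 : th b (n + 1) K κ (C (t + 1) ∩ U).card ≤ 1 := by
          unfold th
          rw [div_le_one (by positivity)]
          apply pow_le_pow_right₀ hb
          refine le_trans (Nat.mul_le_mul_right κ ?_) hK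
          omega
        obtain ⟨pA, hpA, hreach', hineq⟩ := hreach.extend hrnd hR h.norm_le hCc hQc hO hθ0 hθ1 c3
        have hp' : p * pA * (b ^ κ) ^ (k + (C (t + 1) \ U).card) ≤
            (2 * R) ^ (k + (C (t + 1) \ U).card) := by
          have e1 : (b ^ κ) ^ (C (t + 1) \ U).card * pA ≤ (2 * R) ^ (C (t + 1) \ U).card := by
            unfold th at hineq
            have e2 : (n + 1 - (C (t + 1) ∩ U).card) * κ =
                (n + 1 - (C (t + 1)).card) * κ + κ * (C (t + 1) \ U).card := by
              have : n + 1 - (C (t + 1) ∩ U).card =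
                (n + 1 - (C (t + 1)).card) + (C (t + 1) \ U).card := by omega
              rw [this]; ring
            rw [e2, pow_add, pow_mul b κ] at hineq
            have h1 : 0 < b ^ ((n + 1 - (C (t + 1)).card) * κ) / b ^ K := by positivity
            refine le_of_mul_le_mul_left ?_ h1
            calc b ^ ((n + 1 - (C (t + 1)).card) * κ) / b ^ K *
                  ((b ^ κ) ^ (C (t + 1) \ U).card * pA)
                = b ^ ((n + 1 - (C (t + 1)).card) * κ) * (b ^ κ) ^ (C (t + 1) \ U).card /
                    b ^ K * pA := by ring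
              _ ≤ _ := hineq
          calc p * pA * (b ^ κ) ^ (k + (C (t + 1) \ U).card)
              = (p * (b ^ κ) ^ k) * ((b ^ κ) ^ (C (t + 1) \ U).card * pA) := by
                rw [pow_add]; ring
            _ ≤ (2 * R) ^ k * (2 * R) ^ (C (t + 1) \ U).card := by
                apply mul_le_mul hp e1 (by positivity) (by positivity)
            _ = _ := by rw [pow_add]
        have hkX : k + (C (t + 1) \ U).card ≤ X := by
          by_contra hcon
          push Not at hcon
          exact absurd hp' (not_le.2 (h.perc _ hU0 _ _ _ hcon (by omega) hreach'))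
        refine ⟨k + (C (t + 1) \ U).card, U ∪ C (t + 1), p * pA, hkX, hreach', hp', ?_⟩
        intro s hs
        rcases Nat.lt_or_ge s (t + 1) with h1 | h1
        · exact (hsub s (by omega)).trans Finset.subset_union_left
        · obtain rfl : s = t + 1 := by omega
          exact Finset.subset_union_right
  obtain ⟨k, U, p, hk, hreach, _, hsub⟩ := main L le_rfl
  refine ⟨U, ?_, fun t ht => ⟨C t, (hC t ht).1, hsub t ht, (hC t ht).2.1⟩⟩
  rw [hreach.card]
  omega

end Pool.Agent.Lib.MP_ab1b6f_lc
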