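import Mathlib
import Pool.Agent.Lib.MP_ab1b6f_lc.VertFin
import Pool.Agent.Lib.MP_ab1b6f_lc.ProgB
import Pool.Agent.Lib.MP_ab1b6f_lc.ProgC
import Pool.Agent.Lib.MP_ab1b6f_lc.Phi
import Pool.Agent.Lib.MP_ab1b6f_lc.Walk
import Pool.Agent.Lib.MP_ab1b6f_lc.Count
import Pool.Agent.Lib.MP_ab1b6f_lc.Chain

/-!
# The deterministic bound
-/

open scoped ENNReal

namespace Pool.Agent.Lib.MP_ab1b6f_lc

variable {m n : ℕ}

theorem Rule.mass {P : Set (Pt n)} {c : Pt n} {p : Pt n → Pt n → ℝ≥0∞} (h : Rule P c p) (v : Pt n) :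
    ∑' w, p v w ≤ 1 := by
  rcases h with h | h | h
  · exact h.mass v
  · exact h.mass v
  · exact h.mass v

theorem Rule.nbr {P : Set (Pt n)} {c : Pt n} {p : Pt n → Pt n → ℝ≥0∞} (h : Rule P c p)
    {v w : Pt n} (hw : p v w ≠ 0) : BetterNbr P c v w := by
  rcases h with h | h | h
  · exact (h.step v w hw).1
  · exact (h.step v w hw).1
  · by_contra hn
    exact hw (by rw [h v w, if_neg hn])

/-- The trivial bound. -/
theorem pathLen_trivial {D : Data m n} {c : Pt n} {p : Pt n → Pt n → ℝ≥0∞}
    (hp : Rule (poly D) c p) (v : Pt n) : pathLen p v ≤ (m : ℝ≥0∞) ^ n := by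
  obtain ⟨hfin, hcard⟩ := ext_finite D
  refine iSup_le fun k => ?_
  have h := steps_le_card (V := hfin.toFinset) (f := fun x => inner ℝ c x) hp.mass
    (fun v w hw => ?_) k v
  · refine h.trans ?_
    rw [← Set.ncard_eq_toFinset_card _ hfin]
    exact_mod_cast hcard
  · have hb := hp.nbr hw
    refine ⟨by simpa using hb.2.2.1, ?_⟩
    have := hb.2.2.2.2
    rw [inner_sub_right] at this
    linarith

/-- Walks of badly conditioned vertices. -/
theorem bad_walk {D : Data m n} {c : Pt n} {p : Pt n → Pt n → ℝ≥0∞}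
    (hp : Rule (poly D) c p) (hS : IsSimple D) {δ X Q K κ : ℕ} {b R : ℝ} (hb : 1 ≤ b) (hR : 1 ≤ R)
    (hδ : 1 ≤ δ) (hK : (2 * δ + 2) * κ ≤ K) (hQ : X + 2 * δ + 1 ≤ Q)
    (hW : WalkEv (fam D c) (rnd m) n δ X Q K κ b R)
    (x : ℕ → Pt n) (l : ℕ)
    (hbad : ∀ i ≤ l, ¬ GoodV D c (th b (n + 1) K κ (n + 1)) (x i))
    (hstep : ∀ i < l, p (x i) (x (i + 1)) ≠ 0) :
    l ≤ (n + 3 + X) ^ (X + δ) * (m + 3) ^ δ * (m + 2) := by
  rcases Nat.eq_zero_or_pos l with rfl | hl
  · exact Nat.zero_le _
  have hext : ∀ i ≤ l, x i ∈ (poly D).extremePoints ℝ := by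
    intro i hi
    rcases Nat.lt_or_ge i l with h | h
    · exact (hp.nbr (hstep i h)).2.1
    · have : i = (l - 1) + 1 := by omega
      rw [this]
      exact (hp.nbr (hstep (l - 1) (by omega))).2.2.1
  have hlx : ∀ i ≤ l, ∃ k : Idx m, k ∈ insert inf (rnd m) ∧ k ∉ up (act D (x i)) ∧
      ¬ Ind (fam D c) (insert k (up (act D (x i)))) (th b (n + 1) K κ (n + 1)) := by
    intro i hi
    by_contra hcon
    push Not at hcon
    exact hbad i hi ⟨hext i hi, fun k hk hk' => hcon k hk hk'⟩
  choose! lk hlk using hlx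
  have hact : ∀ i ≤ l, (up (act D (x i))).card = n := fun i hi => by
    rw [card_up, hS _ (hext i hi)]
  have hval : ∀ s t, s < t → t ≤ l → inner ℝ c (x s) < inner ℝ c (x t) := by
    intro s t hst
    induction t, hst using Nat.le_induction with
    | base =>
      intro h
      have := (hp.nbr (hstep s (by omega))).2.2.2.2
      rw [inner_sub_right] at this
      simpa using this
    | succ t hst ih =>
      intro h
      have h1 := ih (by omega)
      have := (hp.nbr (hstep t (by omega))).2.2.2.2
      rw [inner_sub_right] at this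
      linarith
  have hinj : ∀ s ≤ l, ∀ t ≤ l, up (act D (x s)) = up (act D (x t)) → s = t := by
    intro s hs t ht hst
    have hst' : act D (x s) = act D (x t) := Finset.map_injective _ hst
    have hxx : x s = x t := by
      have : x s - x t = 0 := by
        refine eq_zero_of_ext (hext s hs) fun i hi => ?_
        have h1 := mem_act.1 hi
        have h2 := mem_act.1 (hst' ▸ hi)
        rw [lhs_sub, h1, h2, sub_self]
      exact sub_eq_zero.1 this
    by_contra hne
    rcases Nat.lt_or_gt_of_ne hne with h | h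
    · have := hval s t h ht
      rw [hxx] at this
      exact lt_irrefl _ this
    · have := hval t s h hs
      rw [hxx] at this
      exact lt_irrefl _ this
  obtain ⟨U, hU, hUC⟩ := hW.exists_union (inf := inf) hb hR hδ hK hQ
    (fun t => up (act D (x t))) lk l hact
    (fun t _ => by
      intro k hk
      obtain ⟨i, _, rfl⟩ := mem_up.1 hk
      exact mem_rnd.2 ⟨i, rfl⟩)
    (fun t ht => (hlk t ht).2.1) (fun t ht => (hlk t ht).1) (fun t ht => (hlk t ht).2.2)
    (fun t ht => by
      obtain ⟨d, hd⟩ := hS.exists_dirs (hext t ht.le)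
      have hn := hp.nbr (hstep t ht)
      obtain ⟨j, hj, s, hs, hws, _⟩ := hd.nbr_dir hn
      obtain ⟨i, hi, hacti⟩ := hd.nbr_act hS hj hs hws hn
      have hsub : up (act D (x (t + 1))) \ up (act D (x t)) ⊆ {Sum.inl i} := by
        intro k hk
        rw [Finset.mem_sdiff] at hk
        obtain ⟨i', hi', rfl⟩ := mem_up.1 hk.1
        rw [hacti] at hi'
        rcases Finset.mem_insert.1 hi' with h | h
        · simp [h]
        · exact absurd (inl_mem_up.2 (Finset.mem_of_mem_erase h)) hk.2
      exact (Finset.card_le_card hsub).trans (by simp))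
  have hcount := walk_count hδ U hU (fun t => up (act D (x t))) lk hact
    (fun t ht => (hlk t ht).2.1) hinj hUC
  have hcardI : Fintype.card (Idx m) = m + 2 := by simp
  rw [hcardI] at hcount
  exact (Nat.le_succ l).trans hcount

/-- The deterministic bound. -/
theorem det_bound {D : Data m n} {c : Pt n} (hc : c ≠ 0) {p : Pt n → Pt n → ℝ≥0∞}
    (hp : Rule (poly D) c p) (hn : 1 ≤ n) {δ X Q K κ : ℕ} {b R θ : ℝ} (hb : 1 ≤ b) (hR : 1 ≤ R)
    (hδ : 1 ≤ δ) (hK : (2 * δ + 2) * κ ≤ K) (hQ : X + 2 * δ + 1 ≤ Q) (hθ : 0 < θ)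
    (hθη : θ ≤ th b (n + 1) K κ (n + 1)) (hη1 : th b (n + 1) K κ (n + 1) ≤ 1 / 2)
    (hW : WalkEv (fam D c) (rnd m) n δ X Q K κ b R)
    (hG : GeoEv D c (th b (n + 1) K κ (n + 1)) θ R) (v : Pt n) :
    pathLen p v ≤ (((n + 3 + X) ^ (X + δ) * (m + 3) ^ δ * (m + 2) : ℕ) + 2 : ℝ≥0∞) *
      ENNReal.ofReal (phi (th b (n + 1) K κ (n + 1) * θ * ‖c‖ / R)
        (th b (n + 1) K κ (n + 1) ^ 3 / (n * R ^ 2)) n (2 * ‖c‖ / θ)) +
      (((n + 3 + X) ^ (X + δ) * (m + 3) ^ δ * (m + 2) : ℕ) + 1 : ℝ≥0∞) := by
  classical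
  set η := th b (n + 1) K κ (n + 1) with hηdef
  have hη : 0 < η := lt_of_lt_of_le hθ hθη
  have hS : IsSimple D := isSimple_of_ind hθ hG.ind
  have hcn : 0 < ‖c‖ := norm_pos_iff.2 hc
  have hRpos : 0 < R := by linarith
  have hnr : (1 : ℝ) ≤ n := by exact_mod_cast hn
  set L := (n + 3 + X) ^ (X + δ) * (m + 3) ^ δ * (m + 2) with hL
  set d := η * θ * ‖c‖ / R with hd
  set ρ := η ^ 3 / (n * R ^ 2) with hρ
  have hdpos : 0 < d := by rw [hd]; positivity
  have hρpos : 0 < ρ := by rw [hρ]; positivity
  have hρ2 : ρ ≤ 1 / 2 := by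
    rw [hρ, div_le_iff₀ (by positivity)]
    have h1 : η ^ 3 ≤ 1 / 2 := by
      calc η ^ 3 ≤ η ^ 1 := pow_le_pow_of_le_one hη.le (by linarith) (by norm_num)
        _ ≤ 1 / 2 := by rw [pow_one]; exact hη1
    have h2 : (1 : ℝ) ≤ n * R ^ 2 := by nlinarith [one_le_pow₀ hR (n := 2)]
    linarith
  have hext_norm : ∀ x ∈ (poly D).extremePoints ℝ, θ * ‖x‖ ≤ 1 := by
    intro x hx
    have hcard := hS x hx
    have h1 := vertex_norm (c := c) hθ hcard (hG.ind _ (by
      rw [Finset.card_insert_of_notMem inr_notMem_up, card_up, hcard]))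
    have h2 : ‖x‖ ≤ ‖ext1 x (-1)‖ := by
      refine le_of_sq_le_sq ?_ (norm_nonneg _)
      rw [norm_sq_ext1]
      nlinarith
    nlinarith
  refine iSup_le fun k => ?_
  -- the set of good vertices
  have hfin : {x | GoodV D c η x}.Finite := (ext_finite D).1.subset fun x hx => hx.1
  by_cases hne : {x | GoodV D c η x}.Nonempty
  · obtain ⟨z, hz, hzmax⟩ := Set.exists_max_image _ (fun x => inner ℝ c x) hfin hne
    have hz' : GoodV D c η z := hz
    set Φ : Pt n → ℝ≥0∞ := fun x => if x ∈ (poly D).extremePoints ℝ then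
      ENNReal.ofReal (phi d ρ n (inner ℝ c (z - x))) else 0 with hΦ
    have hΦv : ∀ x ∈ (poly D).extremePoints ℝ, Φ x = ENNReal.ofReal (phi d ρ n (inner ℝ c (z - x))) :=
      fun x hx => by simp only [hΦ, if_pos hx]
    have hbound : Φ v ≤ ENNReal.ofReal (phi d ρ n (2 * ‖c‖ / θ)) := by
      by_cases hv : v ∈ (poly D).extremePoints ℝ
      · rw [hΦv v hv]
        apply ENNReal.ofReal_le_ofReal
        apply phi_mono hdpos hρpos
        have h1 := hext_norm v hv
        have h2 := hext_norm z hz'.1
        have h3 : inner ℝ c (z - v) ≤ ‖c‖ * ‖z - v‖ := real_inner_le_norm _ _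
        have h4 : ‖z - v‖ ≤ ‖z‖ + ‖v‖ := norm_sub_le _ _
        rw [le_div_iff₀ hθ]
        have h5 : θ * ‖z - v‖ ≤ 2 := by
          have := mul_le_mul_of_nonneg_left h4 hθ.le
          linarith
        have h6 := mul_le_mul_of_nonneg_left h5 hcn.le
        have h7 := mul_le_mul_of_nonneg_right h3 hθ.le
        linarith
      · simp only [hΦ, if_neg hv]; exact zero_le
    have hpot := steps_le_potential (p := p) (good := GoodV D c η) (Φ := Φ) (L := L) hp.mass
      (fun v w hw => by
        have hb' := hp.nbr hw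
        rw [hΦv v hb'.2.1, hΦv w hb'.2.2.1]
        apply ENNReal.ofReal_le_ofReal
        apply phi_mono hdpos hρpos
        have := hb'.2.2.2.2
        rw [inner_sub_right] at this ⊢
        rw [inner_sub_right]
        linarith)
      (fun v hv => by
        have hΔ0 : 0 ≤ inner ℝ c (z - v) := by
          rw [inner_sub_right]
          have := hzmax v hv
          linarith
        rw [hΦv v hv.1]
        have hstep := phi_step (p v) (fun w => inner ℝ c (z - w)) (Δ0 := inner ℝ c (z - v)) hn hdpos
          hρpos hρ2 hΔ0 (hp.mass v)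
          (fun w hw => by
            have := gain_min hη hθ hRpos hc hG hS hv (hp.nbr hw)
            rw [← hd, inner_sub_right] at this
            simp only [inner_sub_right]
            linarith)
          (fun hdΔ => by
            have hlt : 0 < inner ℝ c (z - v) := lt_of_lt_of_le hdpos hdΔ
            have hzero : (∀ w, p v w ≠ 0 → ρ * inner ℝ c (z - v) ≤ inner ℝ c (w - v)) →
                ∑' w, (if (1 - ρ) * inner ℝ c (z - v) < inner ℝ c (z - w) then p v w else 0) ≤
                  1 - (n : ℝ≥0∞)⁻¹ := by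
              intro hfast
              have : ∀ w, (if (1 - ρ) * inner ℝ c (z - v) < inner ℝ c (z - w) then p v w else 0) = 0 := by
                intro w
                split_ifs with hif
                · by_contra hne0
                  have h1 := hfast w hne0
                  rw [inner_sub_right] at h1 hif
                  rw [inner_sub_right] at hif
                  rw [inner_sub_right c w v] at h1
                  linarith
                · rfl
              simp [this]
            rcases hp with hp | hp | hp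
            · exact hzero fun w hw => by
                have := greedy_fast hη (by linarith) hR hn hG hS hv hz' hlt hp hw
                rwa [← hρ] at this
            · exact hzero fun w hw => by
                have := steepest_fast hη (by linarith) hR hn hG hS hv hz' hlt hp hw
                rwa [← hρ] at this
            · have := random_slow hη (by linarith) hR hn hG hS hv hz' hlt hp
              rwa [← hρ] at this)
        refine le_trans (ENNReal.tsum_le_tsum fun w => ?_) hstep
        by_cases hw : p v w = 0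
        · simp [hw]
        · rw [hΦv w (hp.nbr hw).2.2.1])
      (fun x l hbad hst => bad_walk hp hS hb hR hδ hK hQ hW x l hbad hst) k v
    refine hpot.trans ?_
    gcongr
  · have hpot := steps_le_potential (p := p) (good := GoodV D c η) (Φ := fun _ => 0) (L := L) hp.mass
      (fun v w hw => le_rfl)
      (fun v hv => absurd ⟨v, hv⟩ hne)
      (fun x l hbad hst => bad_walk hp hS hb hR hδ hK hQ hW x l hbad hst) k v
    refine hpot.trans ?_
    simp only [mul_zero, zero_add]
    exact le_add_self

end Pool.Agent.Lib.MP_ab1b6f_lc
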