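import Mathlib

/-!
# Integrating out one coordinate  (JOB Fub)
-/

open scoped ENNReal
open MeasureTheory ProbabilityTheory

namespace Pool.Agent.Lib.MP_ab1b6f_lc

/-- Integrate out the coordinate `a` first. (Use the `lmarginal` API: `lintegral_eq_lmarginal_univ`,
`lmarginal_erase` / `lmarginal_singleton`, or `MeasurableEquiv.piFinSuccAbove` type equivalences and
Tonelli.) -/
theorem lintegral_mul_le {m : ℕ} {Y : Type*} [MeasurableSpace Y] (μ : Fin m → Measure Y)
    [∀ i, IsProbabilityMeasure (μ i)] (a : Fin m) {f g : (Fin m → Y) → ℝ≥0∞} (hf : Measurable f)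
    (hg : Measurable g) (hfa : ∀ ω y, f (Function.update ω a y) = f ω) {C : ℝ≥0∞}
    (hgC : ∀ ω, ∫⁻ y, g (Function.update ω a y) ∂(μ a) ≤ C) :
    ∫⁻ ω, f ω * g ω ∂(Measure.pi μ) ≤ C * ∫⁻ ω, f ω ∂(Measure.pi μ) := by
  rw [← lintegral_const_mul C hf]
  refine lintegral_le_of_lmarginal_le (μ := μ) {a} (hf.mul hg) (hf.const_mul C) ?_
  rw [lmarginal_singleton, lmarginal_singleton]
  intro ω
  show ∫⁻ y, f (Function.update ω a y) * g (Function.update ω a y) ∂(μ a) ≤
    ∫⁻ y, C * f (Function.update ω a y) ∂(μ a)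
  simp only [hfa]
  have hm : Measurable fun y => g (Function.update ω a y) := hg.comp (measurable_update ω)
  rw [lintegral_const_mul _ hm, lintegral_const, measure_univ, mul_one, mul_comm]
  gcongr
  exact hgC ω

/-- The case of indicator functions. -/
theorem measure_inter_le {m : ℕ} {Y : Type*} [MeasurableSpace Y] (μ : Fin m → Measure Y)
    [∀ i, IsProbabilityMeasure (μ i)] (a : Fin m) {A B : Set (Fin m → Y)} (hA : MeasurableSet A)
    (hB : MeasurableSet B) (hAa : ∀ ω y, Function.update ω a y ∈ A ↔ ω ∈ A) {C : ℝ≥0∞}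
    (hBC : ∀ ω, μ a {y | Function.update ω a y ∈ B} ≤ C) :
    Measure.pi μ (A ∩ B) ≤ C * Measure.pi μ A := by
  have h := lintegral_mul_le μ a (f := A.indicator 1) (g := B.indicator 1)
    (measurable_one.indicator hA) (measurable_one.indicator hB) (C := C) ?_ ?_
  · rw [lintegral_indicator_one hA] at h
    refine le_trans (le_of_eq ?_) h
    rw [← lintegral_indicator_one (hA.inter hB)]
    refine lintegral_congr fun ω => ?_
    rw [Set.inter_indicator_one]
    rfl
  · intro ω y
    by_cases h : ω ∈ A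
    · rw [Set.indicator_of_mem h, Set.indicator_of_mem ((hAa ω y).2 h)]
      rfl
    · rw [Set.indicator_of_notMem h, Set.indicator_of_notMem fun h' => h ((hAa ω y).1 h')]
  · intro ω
    refine le_trans (le_of_eq ?_) (hBC ω)
    have hm : MeasurableSet {y | Function.update ω a y ∈ B} := measurable_update ω hB
    rw [← lintegral_indicator_one hm]
    rfl

/-- The case `A = univ`. -/
theorem measure_le_of_section {m : ℕ} {Y : Type*} [MeasurableSpace Y] (μ : Fin m → Measure Y)
    [∀ i, IsProbabilityMeasure (μ i)] (a : Fin m) {B : Set (Fin m → Y)}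
    (hB : MeasurableSet B) {C : ℝ≥0∞} (hBC : ∀ ω, μ a {y | Function.update ω a y ∈ B} ≤ C) :
    Measure.pi μ B ≤ C := by
  have h := measure_inter_le μ a MeasurableSet.univ hB (fun ω y => by simp) hBC
  rwa [Set.univ_inter, measure_univ, mul_one] at h

end Pool.Agent.Lib.MP_ab1b6f_lc
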