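import Mathlib

/-!
# Small ball estimate and tail of a Gaussian variable  (JOB SmallBall)
-/

open scoped ENNReal
open MeasureTheory ProbabilityTheory

namespace Pool.Agent.Lib.MP_ab1b6f_lc

/-- An interval of radius `r` has mass at most `r`. -/
def SB (ν : Measure ℝ) : Prop := ∀ c r : ℝ, 0 ≤ r → ν {x | |x - c| ≤ r} ≤ ENNReal.ofReal r

private theorem smallball_pdf (μ x : ℝ) : gaussianPDF μ 1 x ≤ ENNReal.ofReal (1 / 2) := by
  unfold gaussianPDF
  apply ENNReal.ofReal_le_ofReal
  rw [gaussianPDFReal_def]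
  have h1 : (2 : ℝ) ≤ Real.sqrt (2 * Real.pi * ((1 : NNReal) : ℝ)) := by
    rw [show (2 : ℝ) = Real.sqrt 4 by
      rw [show (4 : ℝ) = 2 ^ 2 by norm_num]; exact (Real.sqrt_sq (by norm_num)).symm]
    apply Real.sqrt_le_sqrt
    have := Real.pi_gt_three
    push_cast
    rw [show Real.sqrt 4 = 2 by
      rw [show (4 : ℝ) = 2 ^ 2 by norm_num]; exact Real.sqrt_sq (by norm_num)]
    linarith
  have h2 : (Real.sqrt (2 * Real.pi * ((1 : NNReal) : ℝ)))⁻¹ ≤ 1 / 2 := by
    rw [one_div]
    exact inv_anti₀ (by norm_num) h1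
  have h3 : Real.exp (-(x - μ) ^ 2 / (2 * ((1 : NNReal) : ℝ))) ≤ 1 := by
    apply Real.exp_le_one_iff.2
    apply div_nonpos_of_nonpos_of_nonneg
    · have := sq_nonneg (x - μ); linarith
    · positivity
  calc (Real.sqrt (2 * Real.pi * ((1 : NNReal) : ℝ)))⁻¹ *
        Real.exp (-(x - μ) ^ 2 / (2 * ((1 : NNReal) : ℝ))) ≤ 1 / 2 * 1 :=
        mul_le_mul h2 h3 (Real.exp_pos _).le (by norm_num)
    _ = 1 / 2 := by norm_num

/-- The density of `gaussianReal μ 1` is at most `1 / √(2π) ≤ 1 / 2` and the interval has length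
`2 r`. -/
theorem gaussian_SB (μ : ℝ) : SB (gaussianReal μ 1) := by
  intro c r hr
  have hset : {x : ℝ | |x - c| ≤ r} = Set.Icc (c - r) (c + r) := by
    ext x
    rw [Set.mem_setOf_eq, abs_le, Set.mem_Icc]
    constructor <;> rintro ⟨h1, h2⟩ <;> constructor <;> linarith
  rw [gaussianReal_apply μ one_ne_zero, hset]
  calc ∫⁻ x in Set.Icc (c - r) (c + r), gaussianPDF μ 1 x
      ≤ ∫⁻ _ in Set.Icc (c - r) (c + r), ENNReal.ofReal (1 / 2) :=
        lintegral_mono fun x => smallball_pdf μ x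
    _ = ENNReal.ofReal (1 / 2) * ENNReal.ofReal (2 * r) := by
        rw [setLIntegral_const, Real.volume_Icc]
        congr 2
        ring
    _ = ENNReal.ofReal r := by
        rw [← ENNReal.ofReal_mul (by norm_num)]
        congr 1
        ring

/-- Chernoff bound with parameter `1`: `P(g > t) ≤ e^(1/2 - t)`, twice, and `2 e^(1/2) ≤ 4`
(`ProbabilityTheory.mgf_gaussianReal`, or Markov's inequality for `e^x`). -/
theorem gaussian_tail (μ t : ℝ) (ht : 0 ≤ t) :
    gaussianReal μ 1 {x | t < |x - μ|} ≤ ENNReal.ofReal (4 * Real.exp (-t)) := by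
  have hm : ∀ s : ℝ, mgf (id : ℝ → ℝ) (gaussianReal μ 1) s = Real.exp (μ * s + s ^ 2 / 2) := by
    intro s
    rw [mgf_id_gaussianReal]
    simp
  have h1 : (gaussianReal μ 1).real {x | μ + t ≤ x} ≤ Real.exp (1 / 2 - t) := by
    have := measure_ge_le_exp_mul_mgf (μ := gaussianReal μ 1) (X := id) (t := 1) (μ + t)
      zero_le_one (integrable_exp_mul_gaussianReal 1)
    rw [hm, ← Real.exp_add] at this
    refine this.trans (le_of_eq ?_)
    congr 1; ring
  have h2 : (gaussianReal μ 1).real {x | x ≤ μ - t} ≤ Real.exp (1 / 2 - t) := by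
    have := measure_le_le_exp_mul_mgf (μ := gaussianReal μ 1) (X := id) (t := -1) (μ - t)
      (by norm_num) (integrable_exp_mul_gaussianReal (-1))
    rw [hm, ← Real.exp_add] at this
    refine this.trans (le_of_eq ?_)
    congr 1; ring
  have h3 : {x : ℝ | t < |x - μ|} ⊆ {x | μ + t ≤ x} ∪ {x | x ≤ μ - t} := by
    intro x hx
    rw [Set.mem_setOf_eq, lt_abs] at hx
    rcases hx with hx | hx
    · left; show μ + t ≤ x; linarith
    · right; show x ≤ μ - t; linarith
  have h4 : Real.exp (1 / 2) ≤ 2 := by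
    have h5 : Real.exp (1 / 2) * Real.exp (1 / 2) < 2 * 2 := by
      rw [← Real.exp_add]
      have := Real.exp_one_lt_d9
      norm_num
      linarith
    by_contra h
    push Not at h
    nlinarith
  calc gaussianReal μ 1 {x | t < |x - μ|}
      ≤ gaussianReal μ 1 ({x | μ + t ≤ x} ∪ {x | x ≤ μ - t}) := measure_mono h3
    _ ≤ gaussianReal μ 1 {x | μ + t ≤ x} + gaussianReal μ 1 {x | x ≤ μ - t} := measure_union_le _ _
    _ = ENNReal.ofReal ((gaussianReal μ 1).real {x | μ + t ≤ x}) +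
          ENNReal.ofReal ((gaussianReal μ 1).real {x | x ≤ μ - t}) := by
        rw [ofReal_measureReal, ofReal_measureReal]
    _ ≤ ENNReal.ofReal (Real.exp (1 / 2 - t)) + ENNReal.ofReal (Real.exp (1 / 2 - t)) :=
        add_le_add (ENNReal.ofReal_le_ofReal h1) (ENNReal.ofReal_le_ofReal h2)
    _ = ENNReal.ofReal (Real.exp (1 / 2 - t) + Real.exp (1 / 2 - t)) :=
        (ENNReal.ofReal_add (Real.exp_pos _).le (Real.exp_pos _).le).symm
    _ ≤ ENNReal.ofReal (4 * Real.exp (-t)) := by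
        apply ENNReal.ofReal_le_ofReal
        have h6 : Real.exp (1 / 2 - t) = Real.exp (1 / 2) * Real.exp (-t) := by
          rw [← Real.exp_add]; congr 1
        rw [h6]
        have := Real.exp_pos (-t)
        nlinarith

end Pool.Agent.Lib.MP_ab1b6f_lc
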