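import Mathlib
import Pool.Agent.Lib.MP_ab1b6f_lc.SmallBall
import Pool.Agent.Lib.MP_ab1b6f_lc.Fub

/-!
# A random vector is rarely close to the orthogonal complement of a subspace  (JOB SubTail)
-/

open scoped ENNReal
open MeasureTheory ProbabilityTheory

namespace Pool.Agent.Lib.MP_ab1b6f_lc

private theorem subTail_closed {N : ℕ} (Y : Submodule ℝ (Fin N → ℝ)) (θ : ℝ) :
    IsClosed {x : Fin N → ℝ | ∀ u ∈ Y, ∑ j, u j ^ 2 ≤ 1 → |∑ j, u j * x j| ≤ θ} := by
  have h : {x : Fin N → ℝ | ∀ u ∈ Y, ∑ j, u j ^ 2 ≤ 1 → |∑ j, u j * x j| ≤ θ} =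
      ⋂ u ∈ {u : Fin N → ℝ | u ∈ Y ∧ ∑ j, u j ^ 2 ≤ 1}, {x | |∑ j, u j * x j| ≤ θ} := by
    ext x
    simp only [Set.mem_setOf_eq, Set.mem_iInter, and_imp]
  rw [h]
  refine isClosed_biInter fun u _ => ?_
  refine isClosed_le ?_ continuous_const
  fun_prop

private theorem subTail_unit {N : ℕ} (Y : Submodule ℝ (Fin N → ℝ))
    (hd : 0 < Module.finrank ℝ Y) :
    ∃ u ∈ Y, ∑ j, u j ^ 2 = 1 ∧ ∃ a, 1 ≤ √(N : ℝ) * |u a| := by
  obtain ⟨v, hvY, hv0⟩ : ∃ v ∈ Y, v ≠ 0 := by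
    by_contra hcon
    push Not at hcon
    have : Y = ⊥ := by
      rw [Submodule.eq_bot_iff]
      exact hcon
    rw [this] at hd
    simp at hd
  have hpos : 0 < ∑ j, v j ^ 2 := by
    obtain ⟨a, ha⟩ : ∃ a, v a ≠ 0 := by
      by_contra hcon
      push Not at hcon
      exact hv0 (funext hcon)
    exact Finset.sum_pos' (fun j _ => sq_nonneg _) ⟨a, Finset.mem_univ _, by positivity⟩
  set t : ℝ := √(∑ j, v j ^ 2) with ht
  have ht0 : 0 < t := Real.sqrt_pos.mpr hpos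
  have ht2 : t ^ 2 = ∑ j, v j ^ 2 := Real.sq_sqrt hpos.le
  have hsum : ∑ j, (t⁻¹ • v) j ^ 2 = 1 := by
    have : ∀ j, (t⁻¹ • v) j ^ 2 = (t ^ 2)⁻¹ * v j ^ 2 := by
      intro j
      rw [Pi.smul_apply, smul_eq_mul, mul_pow, inv_pow]
    simp only [this]
    rw [← Finset.mul_sum, ← ht2, inv_mul_cancel₀ (by positivity)]
  refine ⟨t⁻¹ • v, Y.smul_mem _ hvY, hsum, ?_⟩
  by_contra hcon
  push Not at hcon
  have hN : 0 < N := by
    rcases Nat.eq_zero_or_pos N with h | h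
    · subst h
      simp at hsum
    · exact h
  have hNr : (0 : ℝ) < N := by exact_mod_cast hN
  have hlt : ∀ j : Fin N, (t⁻¹ • v) j ^ 2 < 1 / (N : ℝ) := by
    intro j
    have h1 := hcon j
    have h2 : (√(N : ℝ) * |(t⁻¹ • v) j|) ^ 2 < 1 := by
      have h3 : 0 ≤ √(N : ℝ) * |(t⁻¹ • v) j| := by positivity
      nlinarith
    rw [mul_pow, Real.sq_sqrt hNr.le, sq_abs] at h2
    rw [lt_div_iff₀ hNr]
    linarith
  have : Nonempty (Fin N) := ⟨⟨0, hN⟩⟩
  have h4 : ∑ j, (t⁻¹ • v) j ^ 2 < ∑ _j : Fin N, 1 / (N : ℝ) :=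
    Finset.sum_lt_sum_of_nonempty Finset.univ_nonempty fun j _ => hlt j
  rw [hsum, Finset.sum_const, Finset.card_univ, Fintype.card_fin, nsmul_eq_mul,
    mul_one_div_cancel hNr.ne'] at h4
  exact lt_irrefl _ h4

private theorem subTail_dim {N : ℕ} (Y : Submodule ℝ (Fin N → ℝ)) (a : Fin N) :
    Module.finrank ℝ Y ≤
      Module.finrank ℝ (Y ⊓ LinearMap.ker (LinearMap.proj a : (Fin N → ℝ) →ₗ[ℝ] ℝ) :
        Submodule ℝ (Fin N → ℝ)) + 1 := by
  set K := LinearMap.ker (LinearMap.proj a : (Fin N → ℝ) →ₗ[ℝ] ℝ)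
  have h1 := Submodule.finrank_sup_add_finrank_inf_eq Y K
  have h2 := LinearMap.finrank_range_add_finrank_ker (LinearMap.proj a : (Fin N → ℝ) →ₗ[ℝ] ℝ)
  have h3 : Module.finrank ℝ (LinearMap.range (LinearMap.proj a : (Fin N → ℝ) →ₗ[ℝ] ℝ)) ≤ 1 := by
    refine (Submodule.finrank_le _).trans ?_
    rw [Module.finrank_self]
  have h4 : Module.finrank ℝ (Y ⊔ K : Submodule ℝ (Fin N → ℝ)) ≤ Module.finrank ℝ (Fin N → ℝ) :=
    Submodule.finrank_le _
  change _ + Module.finrank ℝ K = _ at h2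
  omega

private theorem subTail_section {N : ℕ} (ν : Fin N → Measure ℝ) (hν : ∀ j, SB (ν j))
    (u : Fin N → ℝ) (a : Fin N) (ha : 1 ≤ √(N : ℝ) * |u a|) {θ : ℝ} (hθ : 0 ≤ θ)
    (ω : Fin N → ℝ) :
    ν a {y | Function.update ω a y ∈ {x : Fin N → ℝ | |∑ j, u j * x j| ≤ θ}} ≤
      ENNReal.ofReal (√(N : ℝ) * θ) := by
  have hua : 0 < |u a| := by
    by_contra h0
    have h1 : |u a| = 0 := le_antisymm (not_lt.mp h0) (abs_nonneg _)
    rw [h1, mul_zero] at ha
    linarith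
  have hu0 : u a ≠ 0 := abs_pos.mp hua
  set c : ℝ := ∑ j ∈ Finset.univ.erase a, u j * ω j with hc
  refine le_trans (measure_mono ?_) (hν a (-c / u a) (√(N : ℝ) * θ) (by positivity))
  intro y hy
  rw [Set.mem_setOf_eq, Set.mem_setOf_eq] at hy
  rw [Set.mem_setOf_eq]
  have h1 : ∑ j, u j * Function.update ω a y j = u a * y + c := by
    rw [← Finset.add_sum_erase Finset.univ _ (Finset.mem_univ a), Function.update_self, hc]
    congr 1
    refine Finset.sum_congr rfl fun j hj => ?_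
    rw [Function.update_of_ne (Finset.ne_of_mem_erase hj)]
  rw [h1] at hy
  have h2 : y - -c / u a = (u a * y + c) / u a := by
    field_simp
    ring
  rw [h2, abs_div, div_le_iff₀ hua]
  calc |u a * y + c| ≤ θ := hy
    _ = θ * 1 := (mul_one _).symm
    _ ≤ θ * (√(N : ℝ) * |u a|) := mul_le_mul_of_nonneg_left ha hθ
    _ = √(N : ℝ) * θ * |u a| := by ring

/-- Induction on `d`, for all `Y`. Step `d → d + 1`: there is `u ∈ Y` with `∑ u j ^ 2 = 1`, and a coordinate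
`a` with `|u a| ≥ 1 / √N`. Let `Y' = {v ∈ Y | v a = 0}`, of dimension at least `d`. The event `E_Y` (a
closed set) is contained in `E_{Y'} ∩ {x | |∑ u j x j| ≤ θ}`, the event `E_{Y'}` does not depend on
`x a`, and for fixed other coordinates `{x a | |∑ u j x j| ≤ θ}` is contained in an interval of radius
`θ / |u a| ≤ √N θ`, so it has mass at most `√N θ` by `SB`. Conclude with `measure_inter_le`. -/
theorem pi_subspace_tail {N : ℕ} (ν : Fin N → Measure ℝ) [∀ j, IsProbabilityMeasure (ν j)]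
    (hν : ∀ j, SB (ν j)) (d : ℕ) (Y : Submodule ℝ (Fin N → ℝ)) (hd : d ≤ Module.finrank ℝ Y)
    {θ : ℝ} (hθ : 0 ≤ θ) :
    Measure.pi ν {x | ∀ u ∈ Y, ∑ j, u j ^ 2 ≤ 1 → |∑ j, u j * x j| ≤ θ} ≤
      ENNReal.ofReal (√N * θ) ^ d := by
  induction d generalizing Y with
  | zero =>
    rw [pow_zero]
    exact prob_le_one
  | succ d ih =>
    obtain ⟨u, huY, hu1, a, ha⟩ := subTail_unit Y (by omega)
    have hdim := subTail_dim Y a
    have hY' := ih (Y ⊓ LinearMap.ker (LinearMap.proj a : (Fin N → ℝ) →ₗ[ℝ] ℝ)) (by omega)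
    have hsub : {x : Fin N → ℝ | ∀ u ∈ Y, ∑ j, u j ^ 2 ≤ 1 → |∑ j, u j * x j| ≤ θ} ⊆
        {x : Fin N → ℝ | ∀ u ∈ Y ⊓ LinearMap.ker (LinearMap.proj a : (Fin N → ℝ) →ₗ[ℝ] ℝ),
          ∑ j, u j ^ 2 ≤ 1 → |∑ j, u j * x j| ≤ θ} ∩ {x | |∑ j, u j * x j| ≤ θ} := by
      intro x hx
      exact ⟨fun v hv hv1 => hx v hv.1 hv1, hx u huY hu1.le⟩
    refine (measure_mono hsub).trans ?_
    refine (measure_inter_le ν a (subTail_closed _ θ).measurableSet ?_ ?_
      (subTail_section ν hν u a ha hθ)).trans ?_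
    · refine (isClosed_le ?_ continuous_const).measurableSet
      fun_prop
    · intro ω y
      rw [Set.mem_setOf_eq, Set.mem_setOf_eq]
      refine forall_congr' fun v => forall_congr' fun hv => ?_
      have hva : v a = 0 := by
        have := hv.2
        rw [SetLike.mem_coe, LinearMap.mem_ker] at this
        exact this
      have : ∑ j, v j * Function.update ω a y j = ∑ j, v j * ω j := by
        refine Finset.sum_congr rfl fun j _ => ?_
        rcases eq_or_ne j a with rfl | hja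
        · rw [hva, zero_mul, zero_mul]
        · rw [Function.update_of_ne hja]
      rw [this]
    · rw [pow_succ']
      exact mul_le_mul_right hY' _

end Pool.Agent.Lib.MP_ab1b6f_lc
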