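import Mathlib
import Pool.Agent.Lib.MP_ab1b6f_lc.SubTail
import Pool.Agent.Lib.MP_ab1b6f_lc.Fam

/-!
# The distance of a random row to the span of other vectors  (JOB DstProb)
-/

open scoped ENNReal
open MeasureTheory ProbabilityTheory

namespace Pool.Agent.Lib.MP_ab1b6f_lc

theorem famE_update {m N : ℕ} (f : Fin 2 → Pt N) (ω : Fin m → Fin N → ℝ) (a : Fin m)
    (x : Fin N → ℝ) {k : Idx m} (hk : k ≠ Sum.inl a) :
    famE f (Function.update ω a x) k = famE f ω k := by
  rcases k with i | i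
  · have : i ≠ a := fun h => hk (by rw [h])
    simp [famE, Function.update_of_ne this]
  · simp [famE]

theorem famE_update_self {m N : ℕ} (f : Fin 2 → Pt N) (ω : Fin m → Fin N → ℝ) (a : Fin m)
    (x : Fin N → ℝ) : famE f (Function.update ω a x) (Sum.inl a) = WithLp.toLp 2 x := by
  simp [famE]

/-- the subspace orthogonal to the vectors of `W` -/
private noncomputable def dstProbMap {m N : ℕ} (f : Fin 2 → Pt N) (ω : Fin m → Fin N → ℝ)
    (W : Finset (Idx m)) : (Fin N → ℝ) →ₗ[ℝ] (W → ℝ) where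
  toFun u k := ∑ j, u j * (famE f ω k) j
  map_add' u v := by
    ext k
    simp only [Pi.add_apply, add_mul, Finset.sum_add_distrib]
  map_smul' c u := by
    ext k
    simp only [Pi.smul_apply, smul_eq_mul, RingHom.id_apply, Finset.mul_sum, mul_assoc]

private theorem dstProb_finrank {m N : ℕ} (f : Fin 2 → Pt N) (ω : Fin m → Fin N → ℝ)
    (W : Finset (Idx m)) :
    N - W.card ≤ Module.finrank ℝ (LinearMap.ker (dstProbMap f ω W)) := by
  have h1 := LinearMap.finrank_range_add_finrank_ker (dstProbMap f ω W)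
  have h2 : Module.finrank ℝ (LinearMap.range (dstProbMap f ω W)) ≤ W.card := by
    refine (Submodule.finrank_le _).trans ?_
    rw [Module.finrank_fintype_fun_eq_card, Fintype.card_coe]
  rw [Module.finrank_fintype_fun_eq_card, Fintype.card_fin] at h1
  omega

/-- Let `Y = {u | ∑ j, u j * (w k) j = 0 for all k ∈ W}` (`w = famE f ω`), of dimension at least
`N - |W|`. If `dst ≤ θ` then for each `ε > 0` some `l` has `‖x - ∑ l k w k‖ ≤ θ + ε`, so
`|∑ u j x j| ≤ θ + ε` for `u ∈ Y`, `∑ u j ^ 2 ≤ 1`. Apply `pi_subspace_tail`. -/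
theorem dst_tail {m N : ℕ} (ν : Fin N → Measure ℝ) [∀ j, IsProbabilityMeasure (ν j)]
    (hν : ∀ j, SB (ν j)) (f : Fin 2 → Pt N) (ω : Fin m → Fin N → ℝ) (a : Fin m)
    (W : Finset (Idx m)) (ha : Sum.inl a ∉ W) {θ : ℝ} (hθ : 0 ≤ θ) :
    Measure.pi ν {x | dst (famE f (Function.update ω a x)) (Sum.inl a) W ≤ θ} ≤
      ENNReal.ofReal (√N * θ) ^ (N - W.card) := by
  refine le_trans (measure_mono ?_) (pi_subspace_tail ν hν (N - W.card)
    (LinearMap.ker (dstProbMap f ω W)) (dstProb_finrank f ω W) hθ)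
  intro x hx u hu hu1
  refine le_trans (le_dst fun l => ?_) hx
  have hk : ∀ k ∈ W, famE f (Function.update ω a x) k = famE f ω k := by
    intro k hk
    exact famE_update f ω a x (fun h => ha (h ▸ hk))
  have h1 : inner ℝ (WithLp.toLp 2 u : Pt N) (famE f (Function.update ω a x) (Sum.inl a) -
      ∑ k ∈ W, l k • famE f (Function.update ω a x) k) = ∑ j, u j * x j := by
    rw [inner_sub_right, inner_sum, famE_update_self]
    have h2 : ∑ k ∈ W, inner ℝ (WithLp.toLp 2 u : Pt N)
        (l k • famE f (Function.update ω a x) k) = 0 := by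
      refine Finset.sum_eq_zero fun k hkW => ?_
      rw [inner_smul_right, hk k hkW]
      have h3 : dstProbMap f ω W u = 0 := hu
      have h4 := congrFun h3 ⟨k, hkW⟩
      have h5 : inner ℝ (WithLp.toLp 2 u : Pt N) (famE f ω k) = ∑ j, u j * (famE f ω k) j := by
        simp only [PiLp.inner_apply, RCLike.inner_apply, conj_trivial]
        exact Finset.sum_congr rfl fun j _ => mul_comm _ _
      rw [h5]
      have h6 : ∑ j, u j * (famE f ω k) j = 0 := h4
      rw [h6, mul_zero]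
    rw [h2, sub_zero]
    simp only [PiLp.inner_apply, RCLike.inner_apply, conj_trivial]
    exact Finset.sum_congr rfl fun j _ => mul_comm _ _
  have hnorm : ‖(WithLp.toLp 2 u : Pt N)‖ ≤ 1 := by
    have h2 : ‖(WithLp.toLp 2 u : Pt N)‖ ^ 2 ≤ 1 := by
      rw [EuclideanSpace.norm_sq_eq]
      simpa using hu1
    nlinarith [norm_nonneg (WithLp.toLp 2 u : Pt N)]
  rw [← h1]
  refine (abs_real_inner_le_norm _ _).trans ?_
  exact mul_le_of_le_one_left (norm_nonneg _) hnorm

private theorem dstProb_pow (D : ℝ) (hD : 0 ≤ D) :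
    (ENNReal.ofReal D) ^ (-1 / 2 : ℝ) ≤
      1 + ∑' k : ℕ, if D ≤ (1 / 4 : ℝ) ^ k then (2 : ℝ≥0∞) ^ (k + 1) else 0 := by
  rcases eq_or_lt_of_le hD with h0 | h0
  · have htop : ∑' k : ℕ, (if D ≤ (1 / 4 : ℝ) ^ k then (2 : ℝ≥0∞) ^ (k + 1) else 0) = ∞ := by
      refine top_le_iff.mp ?_
      rw [← ENNReal.tsum_const_eq_top_of_ne_zero (α := ℕ) (c := (1 : ℝ≥0∞)) one_ne_zero]
      refine ENNReal.tsum_le_tsum fun k => ?_
      rw [if_pos (by rw [← h0]; positivity)]
      exact one_le_pow₀ (by norm_num)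
    rw [htop]
    simp
  · rcases le_or_gt 1 D with h1 | h1
    · refine le_trans ?_ le_self_add
      exact ENNReal.rpow_le_one_of_one_le_of_neg (by rwa [ENNReal.one_le_ofReal]) (by norm_num)
    · obtain ⟨k, hk1, hk2⟩ := exists_nat_pow_near_of_lt_one h0 h1.le
        (by norm_num : (0 : ℝ) < 1 / 4) (by norm_num)
      refine le_trans ?_ (le_trans (ENNReal.le_tsum k) le_add_self)
      rw [if_pos hk2, ENNReal.ofReal_rpow_of_pos h0]
      have h2 : D ^ (-1 / 2 : ℝ) ≤ ((1 / 4 : ℝ) ^ (k + 1)) ^ (-1 / 2 : ℝ) :=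
        Real.rpow_le_rpow_of_nonpos (by positivity) hk1.le (by norm_num)
      have h3 : ((1 / 4 : ℝ) ^ (k + 1)) ^ (-1 / 2 : ℝ) = 2 ^ (k + 1) := by
        rw [show (-1 / 2 : ℝ) = -(1 / 2) by norm_num, Real.rpow_neg (by positivity),
          ← Real.sqrt_eq_rpow]
        have h4 : (1 / 4 : ℝ) ^ (k + 1) = ((1 / 2 : ℝ) ^ (k + 1)) ^ 2 := by
          rw [← pow_mul, mul_comm, pow_mul]
          norm_num
        rw [h4, Real.sqrt_sq (by positivity), ← inv_pow]
        norm_num
      rw [h3] at h2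
      refine (ENNReal.ofReal_le_ofReal h2).trans ?_
      rw [ENNReal.ofReal_pow (by norm_num)]
      norm_num

/-- For a random variable `D ≥ 0` with `P(D ≤ θ) ≤ √N θ`: pointwise
`D ^ (-1/2) ≤ 1 + ∑_k 2 ^ (k+1) 1_{D ≤ 4 ^ (-k)}` (in `[0, ∞]`), so the expectation is at most
`1 + ∑_k 2 ^ (k+1) √N 4 ^ (-k) = 1 + 4 √N ≤ 5 N`. (Measurability of the function is not needed for an
upper bound by a measurable function: the sets `{D ≤ 4 ^ (-k)}` can be replaced by measurable
supersets `toMeasurable`.) Use `dst_tail`; for the exponent `N - |W| ≥ 1` note that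
`ofReal(√N θ) ^ e ≤ ofReal(√N θ)` if `√N θ ≤ 1` and the probability is at most `1` otherwise. -/
theorem dst_expect {m N : ℕ} (ν : Fin N → Measure ℝ) [∀ j, IsProbabilityMeasure (ν j)]
    (hν : ∀ j, SB (ν j)) (f : Fin 2 → Pt N) (ω : Fin m → Fin N → ℝ) (a : Fin m)
    (W : Finset (Idx m)) (ha : Sum.inl a ∉ W) (hW : W.card + 1 ≤ N) :
    ∫⁻ x, (ENNReal.ofReal (dst (famE f (Function.update ω a x)) (Sum.inl a) W)) ^ (-1 / 2 : ℝ)
      ∂(Measure.pi ν) ≤ 5 * N := by
  set μ := Measure.pi ν with hμ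
  set S : ℕ → Set (Fin N → ℝ) := fun k =>
    {x | dst (famE f (Function.update ω a x)) (Sum.inl a) W ≤ (1 / 4 : ℝ) ^ k} with hS
  have hSμ : ∀ k, μ (S k) ≤ ENNReal.ofReal (√N * (1 / 4 : ℝ) ^ k) := by
    intro k
    have h1 : μ (S k) ≤ ENNReal.ofReal (√N * (1 / 4 : ℝ) ^ k) ^ (N - W.card) :=
      dst_tail ν hν f ω a W ha (by positivity)
    rcases le_or_gt (ENNReal.ofReal (√N * (1 / 4 : ℝ) ^ k)) 1 with h2 | h2
    · exact h1.trans (pow_le_of_le_one zero_le h2 (by omega))
    · exact prob_le_one.trans h2.le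
  have hpt : ∀ x, (ENNReal.ofReal (dst (famE f (Function.update ω a x)) (Sum.inl a) W)) ^
      (-1 / 2 : ℝ) ≤ 1 + ∑' k : ℕ, (2 : ℝ≥0∞) ^ (k + 1) *
        (toMeasurable μ (S k)).indicator 1 x := by
    intro x
    refine (dstProb_pow _ (dst_nonneg _ _ _)).trans ?_
    refine add_le_add le_rfl (ENNReal.tsum_le_tsum fun k => ?_)
    split_ifs with h
    · have hx : x ∈ toMeasurable μ (S k) := subset_toMeasurable μ (S k) h
      rw [Set.indicator_of_mem hx, Pi.one_apply, mul_one]
    · exact zero_le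
  have hmeas : ∀ k : ℕ, Measurable fun x => (2 : ℝ≥0∞) ^ (k + 1) *
      (toMeasurable μ (S k)).indicator (1 : (Fin N → ℝ) → ℝ≥0∞) x := by
    intro k
    exact (measurable_one.indicator (measurableSet_toMeasurable μ (S k))).const_mul _
  have hN : (1 : ℝ) ≤ N := by
    exact_mod_cast (by omega : 1 ≤ N)
  calc ∫⁻ x, (ENNReal.ofReal (dst (famE f (Function.update ω a x)) (Sum.inl a) W)) ^
      (-1 / 2 : ℝ) ∂μ
      ≤ ∫⁻ x, (1 + ∑' k : ℕ, (2 : ℝ≥0∞) ^ (k + 1) *
        (toMeasurable μ (S k)).indicator 1 x) ∂μ := lintegral_mono hpt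
    _ = 1 + ∑' k : ℕ, (2 : ℝ≥0∞) ^ (k + 1) * μ (S k) := by
        rw [lintegral_add_left measurable_const, lintegral_const, measure_univ, mul_one,
          lintegral_tsum fun k => (hmeas k).aemeasurable]
        congr 1
        refine tsum_congr fun k => ?_
        rw [lintegral_const_mul _ (measurable_one.indicator (measurableSet_toMeasurable μ (S k))),
          lintegral_indicator_one (measurableSet_toMeasurable μ (S k)), measure_toMeasurable]
    _ ≤ 1 + ∑' k : ℕ, ENNReal.ofReal (2 * √N) * ENNReal.ofReal ((1 / 2 : ℝ) ^ k) := by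
        refine add_le_add le_rfl (ENNReal.tsum_le_tsum fun k => ?_)
        have h2 : (2 : ℝ≥0∞) ^ (k + 1) = ENNReal.ofReal (2 ^ (k + 1)) := by
          rw [ENNReal.ofReal_pow (by norm_num)]
          norm_num
        rw [h2, ← ENNReal.ofReal_mul (by positivity)]
        refine (mul_le_mul_right (hSμ k) _).trans ?_
        rw [← ENNReal.ofReal_mul (by positivity)]
        refine ENNReal.ofReal_le_ofReal (le_of_eq ?_)
        have h3 : (2 : ℝ) ^ k * (1 / 4 : ℝ) ^ k = (1 / 2 : ℝ) ^ k := by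
          rw [← mul_pow]
          norm_num
        rw [pow_succ]
        calc (2 : ℝ) ^ k * 2 * (√N * (1 / 4 : ℝ) ^ k) =
            2 * √N * ((2 : ℝ) ^ k * (1 / 4 : ℝ) ^ k) := by ring
          _ = _ := by rw [h3]
    _ = 1 + ENNReal.ofReal (2 * √N) * ENNReal.ofReal 2 := by
        rw [ENNReal.tsum_mul_left, ← ENNReal.ofReal_tsum_of_nonneg (fun k => by positivity)
          summable_geometric_two, tsum_geometric_two]
    _ = ENNReal.ofReal (1 + 4 * √N) := by
        rw [← ENNReal.ofReal_mul (by positivity), ENNReal.ofReal_add (by norm_num) (by positivity),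
          ENNReal.ofReal_one]
        congr 2
        ring
    _ ≤ ENNReal.ofReal (5 * N) := by
        refine ENNReal.ofReal_le_ofReal ?_
        have h1 : √(N : ℝ) ≤ N := by
          rw [Real.sqrt_le_left (by positivity)]
          nlinarith
        linarith
    _ = 5 * N := by
        rw [ENNReal.ofReal_mul (by norm_num), ENNReal.ofReal_natCast]
        norm_num

end Pool.Agent.Lib.MP_ab1b6f_lc
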