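import Mathlib
import Pool.Agent.Lib.MP_ab1b6f_lc.Fam

/-!
# Measurability  (JOB MeasDst)
-/

open scoped ENNReal
open MeasureTheory

namespace Pool.Agent.Lib.MP_ab1b6f_lc

theorem continuous_famE {m N : ℕ} (f : Fin 2 → Pt N) (k : Idx m) :
    Continuous fun ω : Fin m → Fin N → ℝ => famE f ω k := by
  rcases k with i | i
  · simp only [famE, Sum.elim_inl]
    fun_prop
  · simp only [famE, Sum.elim_inr]
    exact continuous_const

/-- `dst` is an infimum of continuous functions of `ω`, hence upper semicontinuous, hence measurable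
(`{ω | dst < r}` is open). -/
theorem measurable_dst {m N : ℕ} (f : Fin 2 → Pt N) (a : Idx m) (W : Finset (Idx m)) :
    Measurable fun ω : Fin m → Fin N → ℝ => dst (famE f ω) a W := by
  have h : UpperSemicontinuous fun ω : Fin m → Fin N → ℝ => dst (famE f ω) a W := by
    unfold dst
    refine upperSemicontinuous_ciInf (fun ω => ⟨0, ?_⟩) fun l => ?_
    · rintro _ ⟨l, rfl⟩
      exact norm_nonneg _
    · refine Continuous.upperSemicontinuous (Continuous.norm ?_)
      exact (continuous_famE f a).sub (continuous_finsetSum W fun k _ =>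
        (continuous_famE f k).const_smul (l k))
  exact h.measurable

/-- `dst w a W` depends only on the vectors `w k`, `k ∈ insert a W`. -/
theorem dst_congr {ι V : Type*} [DecidableEq ι] [NormedAddCommGroup V] [NormedSpace ℝ V]
    {w w' : ι → V} {a : ι} {W : Finset ι} (ha : w a = w' a) (hW : ∀ k ∈ W, w k = w' k) :
    dst w a W = dst w' a W := by
  unfold dst
  refine iInf_congr fun l => ?_
  rw [ha, Finset.sum_congr rfl fun k hk => by rw [hW k hk]]

/-- The set where a family is not `θ`-independent is measurable (it is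
`{ω | ∃ i ∈ S, dst i (S \ {i}) < θ}` for `θ > 0`, by `ind_of_dst` and `Ind.le_dst`). -/
theorem measurableSet_ind {m N : ℕ} (f : Fin 2 → Pt N) (S : Finset (Idx m)) {θ : ℝ} :
    MeasurableSet {ω : Fin m → Fin N → ℝ | Ind (famE f ω) S θ} := by
  have h : IsClosed {ω : Fin m → Fin N → ℝ | Ind (famE f ω) S θ} := by
    have e : {ω : Fin m → Fin N → ℝ | Ind (famE f ω) S θ} =
        ⋂ l : Idx m → ℝ, ⋂ i ∈ S,
          {ω : Fin m → Fin N → ℝ | θ * |l i| ≤ ‖∑ k ∈ S, l k • famE f ω k‖} := by
      ext ω
      simp only [Ind, Set.mem_iInter, Set.mem_ofPred_eq]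
    rw [e]
    refine isClosed_iInter fun l => isClosed_iInter fun i => isClosed_iInter fun _ => ?_
    refine isClosed_le continuous_const (Continuous.norm ?_)
    exact continuous_finsetSum S fun k _ => (continuous_famE f k).const_smul (l k)
  exact h.measurableSet

end Pool.Agent.Lib.MP_ab1b6f_lc
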