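import Mathlib
import Pool.Agent.Lib.MP_ab1b6f_lc.DstProb
import Pool.Agent.Lib.MP_ab1b6f_lc.MeasDst

/-!
# The probability that a set is badly conditioned  (JOB IndProb)
-/

open scoped ENNReal
open MeasureTheory ProbabilityTheory

namespace Pool.Agent.Lib.MP_ab1b6f_lc

/-- The fixed vectors are orthonormal. -/
theorem ind_fixv {m n : ℕ} {c : Pt n} (hc : c ≠ 0) (ω : Fin m → Fin (n + 1) → ℝ)
    (S : Finset (Idx m)) : Ind (famE (fixv c) ω) (S ∩ fixed m) 1 := by
  intro l i hi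
  rw [one_mul]
  set w := famE (fixv c) ω with hw
  set T := S ∩ fixed m with hT
  set l' : Idx m → ℝ := fun k => if k ∈ T then l k else 0 with hl'
  have hTf : T ⊆ fixed m := Finset.inter_subset_right
  have h1 : ∑ k ∈ T, l k • w k = ∑ k ∈ fixed m, l' k • w k := by
    rw [← Finset.sum_subset hTf (f := fun k => l' k • w k)]
    · refine Finset.sum_congr rfl fun k hk => ?_
      rw [hl']; simp only [hk, if_true]
    · intro k _ hk
      rw [hl']; simp only [hk, if_false, zero_smul]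
  have h2 : ∑ k ∈ fixed m, l' k • w k = l' (Sum.inr 0) • w (Sum.inr 0) + l' (Sum.inr 1) • w (Sum.inr 1) := by
    unfold fixed
    rw [Finset.sum_map, Fin.sum_univ_two]
    rfl
  have h3 : l' (Sum.inr 0) • w (Sum.inr 0) + l' (Sum.inr 1) • w (Sum.inr 1) =
      ext1 (l' (Sum.inr 1) • ((‖c‖)⁻¹ • c)) (l' (Sum.inr 0)) := by
    have e0 : w (Sum.inr 0) = ext1 0 1 := rfl
    have e1 : w (Sum.inr 1) = ext1 ((‖c‖)⁻¹ • c) 0 := rfl
    rw [e0, e1]
    ext j
    refine Fin.lastCases ?_ (fun j => ?_) j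
    · simp [ext1]
    · simp [ext1]
  have h4 : ‖∑ k ∈ T, l k • w k‖ ^ 2 = l' (Sum.inr 1) ^ 2 + l' (Sum.inr 0) ^ 2 := by
    rw [h1, h2, h3, norm_sq_ext1, norm_smul, norm_smul, norm_inv, norm_norm,
      inv_mul_cancel₀ (norm_ne_zero_iff.2 hc), mul_one, Real.norm_eq_abs, sq_abs]
  have h5 : l i = l' i := by
    rw [hl']; simp only [hi, if_true]
  rw [h5]
  refine abs_le_of_sq_le_sq ?_ (norm_nonneg _)
  rw [h4]
  obtain ⟨k, rfl⟩ := mem_fixed.1 (hTf hi)
  fin_cases k
  · simp only [Fin.zero_eta, Fin.isValue]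
    nlinarith [sq_nonneg (l' (Sum.inr 1))]
  · simp only [Fin.mk_one, Fin.isValue]
    nlinarith [sq_nonneg (l' (Sum.inr 0))]

/-- If `S` is not `θ / (2 (n+1) R)`-independent and the norms are at most `R`, then `dst(i, S \ {i}) < θ` for
some random index `i ∈ S` (contrapositive of `ind_of_fixed` with `N = n + 1`, `F = fixed m`). For each
`i` the probability is at most `(√(n+1) θ) ^ (n + 1 - (|S| - 1))` by `dst_tail` and `measure_le_of_section`
(with `measurable_dst`). -/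
theorem ind_prob {m n : ℕ} (ν : Fin m → Fin (n + 1) → Measure ℝ)
    [∀ i j, IsProbabilityMeasure (ν i j)] (hν : ∀ i j, SB (ν i j)) {c : Pt n} (hc : c ≠ 0)
    (S : Finset (Idx m)) (hS : S.card ≤ n + 1) {θ R : ℝ} (hR : 1 ≤ R) (hθ : 0 < θ)
    (hθR : θ ≤ (n + 1 : ℕ) * R) :
    (Measure.pi fun i => Measure.pi (ν i)) {ω | (∀ i ∈ rnd m, ‖famE (fixv c) ω i‖ ≤ R) ∧
      ¬ Ind (famE (fixv c) ω) S (θ / (2 * (n + 1 : ℕ) * R))} ≤
      ((n + 1 : ℕ) : ℝ≥0∞) * ENNReal.ofReal (√(n + 1 : ℕ) * θ) ^ (n + 2 - S.card) := by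
  classical
  set μ := Measure.pi fun i => Measure.pi (ν i) with hμ
  have hsub : {ω : Fin m → Fin (n + 1) → ℝ | (∀ i ∈ rnd m, ‖famE (fixv c) ω i‖ ≤ R) ∧
      ¬ Ind (famE (fixv c) ω) S (θ / (2 * (n + 1 : ℕ) * R))} ⊆
      ⋃ i ∈ S \ fixed m, {ω | dst (famE (fixv c) ω) i (S.erase i) ≤ θ} := by
    rintro ω ⟨hω1, hω2⟩
    by_contra hcon
    apply hω2
    refine ind_of_fixed (F := fixed m) hS hR hθ hθR (ind_fixv hc ω S) ?_ ?_
    · intro i hi
      apply hω1
      rw [Finset.mem_sdiff] at hi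
      rw [mem_rnd]
      rcases i with i | i
      · exact ⟨i, rfl⟩
      · exact absurd (mem_fixed.2 ⟨i, rfl⟩) hi.2
    · intro i hi
      by_contra hlt
      push Not at hlt
      apply hcon
      rw [Set.mem_iUnion₂]
      exact ⟨i, hi, hlt.le⟩
  refine (measure_mono hsub).trans ?_
  refine (measure_biUnion_finset_le _ _).trans ?_
  have hterm : ∀ i ∈ S \ fixed m, μ {ω | dst (famE (fixv c) ω) i (S.erase i) ≤ θ} ≤
      ENNReal.ofReal (√(n + 1 : ℕ) * θ) ^ (n + 2 - S.card) := by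
    intro i hi
    rw [Finset.mem_sdiff] at hi
    rcases i with a | i
    · have hcard : n + 2 - S.card = (n + 1) - (S.erase (Sum.inl a)).card := by
        rw [Finset.card_erase_of_mem hi.1]
        have : 1 ≤ S.card := Finset.card_pos.2 ⟨_, hi.1⟩
        omega
      rw [hcard]
      refine measure_le_of_section (fun i => Measure.pi (ν i)) a
        (B := {ω | dst (famE (fixv c) ω) (Sum.inl a) (S.erase (Sum.inl a)) ≤ θ}) ?_ ?_
      · exact measurableSet_le (measurable_dst _ _ _) measurable_const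
      · intro ω
        exact dst_tail (ν a) (hν a) (fixv c) ω a (S.erase (Sum.inl a)) (Finset.notMem_erase _ _) hθ.le
    · exact absurd (mem_fixed.2 ⟨i, rfl⟩) hi.2
  refine (Finset.sum_le_sum hterm).trans ?_
  rw [Finset.sum_const, nsmul_eq_mul]
  gcongr
  exact (Finset.card_le_card Finset.sdiff_subset).trans hS

end Pool.Agent.Lib.MP_ab1b6f_lc
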