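import Mathlib
import Pool.Agent.Lib.MP_ab1b6f_lc.SmallBall
import Pool.Agent.Lib.MP_ab1b6f_lc.Fub
import Pool.Agent.Lib.MP_ab1b6f_lc.Fam

/-!
# The norms of the rows  (JOB NormProb)
-/

open scoped ENNReal
open MeasureTheory ProbabilityTheory

namespace Pool.Agent.Lib.MP_ab1b6f_lc

/-- The norms of the rows: if all `|ω i j - μ i j| ≤ t` then `‖row i‖ ≤ √(n+1) (M + t)`; union bound with
`gaussian_tail` over the `m (n + 1)` entries (`Measure.pi` of a section set: `measure_le_of_section`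
twice, or `Measure.pi` marginals). -/
theorem norm_prob {m n : ℕ} (μ : Fin m → Fin (n + 1) → ℝ) (f : Fin 2 → Pt (n + 1)) {M t R : ℝ}
    (hM : ∀ i j, |μ i j| ≤ M) (ht : 0 ≤ t) (hR : √(n + 1 : ℕ) * (M + t) ≤ R) :
    (Measure.pi fun i => Measure.pi fun j => gaussianReal (μ i j) 1)
      {ω | ∃ i ∈ rnd m, R < ‖famE f ω i‖} ≤
      (m : ℝ≥0∞) * ((n + 1 : ℕ) : ℝ≥0∞) * ENNReal.ofReal (4 * Real.exp (-t)) := by
  have hsub : {ω : Fin m → Fin (n + 1) → ℝ | ∃ i ∈ rnd m, R < ‖famE f ω i‖} ⊆
      ⋃ i : Fin m, ⋃ j : Fin (n + 1), {ω | t < |ω i j - μ i j|} := by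
    intro ω hω
    obtain ⟨k, hk, hk2⟩ := hω
    obtain ⟨i, rfl⟩ := mem_rnd.1 hk
    by_contra hcon
    simp only [Set.mem_iUnion, Set.mem_ofPred_eq, not_exists, not_lt] at hcon
    have h1 : ‖famE f ω (Sum.inl i)‖ ^ 2 ≤ (√(n + 1 : ℕ) * (M + t)) ^ 2 := by
      rw [EuclideanSpace.norm_sq_eq, mul_pow, Real.sq_sqrt (by positivity)]
      have h2 : ∀ j ∈ (Finset.univ : Finset (Fin (n + 1))),
          ‖famE f ω (Sum.inl i) j‖ ^ 2 ≤ (M + t) ^ 2 := by
        intro j _
        have h3 : famE f ω (Sum.inl i) j = ω i j := rfl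
        rw [h3, Real.norm_eq_abs]
        have h4 : |ω i j| ≤ M + t := by
          have h5 : ω i j = μ i j + (ω i j - μ i j) := by ring
          rw [h5]
          exact (abs_add_le _ _).trans (add_le_add (hM i j) (hcon i j))
        exact pow_le_pow_left₀ (abs_nonneg _) h4 2
      have h6 := Finset.sum_le_card_nsmul _ _ _ h2
      simpa using h6
    have hM0 : 0 ≤ M := (abs_nonneg _).trans (hM i 0)
    have h7 : ‖famE f ω (Sum.inl i)‖ ≤ √(n + 1 : ℕ) * (M + t) :=
      le_of_sq_le_sq h1 (by positivity)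
    exact absurd hk2 (not_lt.2 (h7.trans hR))
  have hsec : ∀ (i : Fin m) (j : Fin (n + 1)),
      (Measure.pi fun i => Measure.pi fun j => gaussianReal (μ i j) 1)
        {ω | t < |ω i j - μ i j|} ≤ ENNReal.ofReal (4 * Real.exp (-t)) := by
    intro i j
    have hB : MeasurableSet {ω : Fin m → Fin (n + 1) → ℝ | t < |ω i j - μ i j|} := by
      apply measurableSet_lt measurable_const
      fun_prop
    refine measure_le_of_section _ i hB fun ω => ?_
    have hB2 : MeasurableSet {y : Fin (n + 1) → ℝ | t < |y j - μ i j|} := by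
      apply measurableSet_lt measurable_const
      fun_prop
    have e1 : {y | Function.update ω i y ∈ {ω : Fin m → Fin (n + 1) → ℝ | t < |ω i j - μ i j|}} =
        {y : Fin (n + 1) → ℝ | t < |y j - μ i j|} := by
      ext y
      simp
    rw [e1]
    refine measure_le_of_section _ j hB2 fun y => ?_
    have e2 : {z | Function.update y j z ∈ {y : Fin (n + 1) → ℝ | t < |y j - μ i j|}} =
        {z : ℝ | t < |z - μ i j|} := by
      ext z
      simp
    rw [e2]
    exact gaussian_tail _ _ ht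
  refine (measure_mono hsub).trans ?_
  refine (measure_iUnion_fintype_le _ _).trans ?_
  refine (Finset.sum_le_sum fun i _ => (measure_iUnion_fintype_le _ _).trans
    (Finset.sum_le_sum fun j _ => hsec i j)).trans ?_
  simp [mul_assoc]

end Pool.Agent.Lib.MP_ab1b6f_lc
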