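import Mathlib

/-!
# Numerical estimates for the parameters
-/

open scoped ENNReal

namespace Pool.Agent.Lib.MP_ab1b6f_lc

/-- The conditions on the parameters. -/
structure Par (m n q : ℕ) (b : ℝ) : Prop where
  hn : 1 ≤ n
  hq : 1 ≤ q
  hnq : n ≤ q ^ 4
  hq4 : q ^ 2 + q ≤ 4 * n
  hb3 : 3 ≤ b
  hbn : (n : ℝ) + 2 ≤ b
  hbm : (m : ℝ) + 2 ≤ b

variable {m n q : ℕ} {b : ℝ}

theorem Par.one_le (h : Par m n q b) : 1 ≤ b := by linarith [h.hb3]

theorem Par.pos (h : Par m n q b) : 0 < b := by linarith [h.hb3]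

theorem Par.pow_le (h : Par m n q b) {i j : ℕ} (hij : i ≤ j) : b ^ i ≤ b ^ j :=
  pow_le_pow_right₀ h.one_le hij

theorem Par.m3 (h : Par m n q b) : ((m + 3 : ℕ) : ℝ) ≤ b ^ 2 := by
  have := h.hbm; have := h.hb3
  push_cast
  nlinarith

theorem Par.n1 (h : Par m n q b) : ((n + 1 : ℕ) : ℝ) ≤ b := by
  have := h.hbn
  push_cast
  linarith

/-- the norms of the rows -/
theorem Par.norm_bound (h : Par m n q b) : √(n + 1 : ℕ) * (b + b ^ 3) ≤ b ^ 4 := by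
  have hb := h.hb3
  have h0 := h.pos
  have h1 := h.n1
  have h2 : √((n + 1 : ℕ) : ℝ) ≤ √b := Real.sqrt_le_sqrt h1
  have h3 : √b * (b + b ^ 3) ≤ b ^ 4 := by
    have hs : 0 ≤ √b := Real.sqrt_nonneg b
    have hsq : √b * √b = b := Real.mul_self_sqrt h0.le
    have h4 : 17 / 10 ≤ √b := by
      apply Real.le_sqrt_of_sq_le; norm_num; linarith
    -- b ^ 4 = √b * (√b * b ^ 3)
    have h5 : b ^ 4 = √b * (√b * b ^ 3) := by
      rw [← mul_assoc, hsq]; ring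
    rw [h5]
    apply mul_le_mul_of_nonneg_left _ hs
    nlinarith [pow_pos h0 3, mul_pos h0 h0, sq_nonneg (b - 3)]
  exact (mul_le_mul_of_nonneg_right h2 (by positivity)).trans h3

theorem Par.exp_bound (h : Par m n q b) :
    (m : ℝ) * (n + 1 : ℕ) * (4 * Real.exp (-b ^ 3)) ≤ 1 / b ^ (n + 2) := by
  have hb := h.hb3
  have h0 := h.pos
  have h1 := h.n1
  have hm : (m : ℝ) ≤ b := by linarith [h.hbm]
  have hnb : (n : ℝ) ≤ b - 2 := by linarith [h.hbn]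
  have hbe : b ≤ Real.exp (b - 1) := by
    have := Real.add_one_le_exp (b - 1)
    linarith
  have hpow : b ^ (n + 6) ≤ Real.exp (b ^ 3) := by
    calc b ^ (n + 6) ≤ Real.exp (b - 1) ^ (n + 6) := pow_le_pow_left₀ h0.le hbe _
      _ = Real.exp ((n + 6 : ℕ) * (b - 1)) := by rw [← Real.exp_nat_mul]
      _ ≤ Real.exp (b ^ 3) := by
          apply Real.exp_le_exp.2
          push_cast
          have : ((n : ℝ) + 6) * (b - 1) ≤ (b + 4) * (b - 1) := by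
            apply mul_le_mul_of_nonneg_right <;> linarith
          nlinarith [mul_pos h0 h0, sq_nonneg (b - 3), mul_nonneg (mul_nonneg h0.le h0.le) (by linarith : (0:ℝ) ≤ b - 3)]
  rw [Real.exp_neg]
  rw [le_div_iff₀ (by positivity)]
  have hexp : 0 < Real.exp (b ^ 3) := Real.exp_pos _
  have h4 : (m : ℝ) * (n + 1 : ℕ) * 4 * b ^ (n + 2) ≤ b ^ (n + 6) := by
    have h5 : (m : ℝ) * (n + 1 : ℕ) ≤ b * b := mul_le_mul hm h1 (by positivity) h0.le
    have h6 : (4 : ℝ) ≤ b * b := by nlinarith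
    calc (m : ℝ) * (n + 1 : ℕ) * 4 * b ^ (n + 2) ≤ (b * b) * (b * b) * b ^ (n + 2) := by
          apply mul_le_mul_of_nonneg_right _ (by positivity)
          exact mul_le_mul h5 h6 (by norm_num) (by positivity)
      _ = b ^ (n + 6) := by ring
  calc (m : ℝ) * (n + 1 : ℕ) * (4 * (Real.exp (b ^ 3))⁻¹) * b ^ (n + 2)
      = ((m : ℝ) * (n + 1 : ℕ) * 4 * b ^ (n + 2)) * (Real.exp (b ^ 3))⁻¹ := by ring
    _ ≤ Real.exp (b ^ 3) * (Real.exp (b ^ 3))⁻¹ := by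
        apply mul_le_mul_of_nonneg_right (h4.trans hpow) (by positivity)
    _ = 1 := mul_inv_cancel₀ hexp.ne'

/-- `√(n+1) * 2 (n+1) b^4 ≤ b^7` -/
theorem Par.coef (h : Par m n q b) : √(n + 1 : ℕ) * (2 * (n + 1 : ℕ) * b ^ 4) ≤ b ^ 7 := by
  have hb := h.hb3
  have h0 := h.pos
  have h1 := h.n1
  have h1' : (1 : ℝ) ≤ ((n + 1 : ℕ) : ℝ) := by exact_mod_cast Nat.succ_le_succ (Nat.zero_le n)
  have h2 : √((n + 1 : ℕ) : ℝ) ≤ b := by
    apply Real.sqrt_le_iff.2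
    constructor
    · exact h0.le
    · nlinarith
  calc √(n + 1 : ℕ) * (2 * (n + 1 : ℕ) * b ^ 4) ≤ b * (b * b * b ^ 4) := by
        apply mul_le_mul h2 _ (by positivity) h0.le
        apply mul_le_mul_of_nonneg_right _ (by positivity)
        nlinarith
    _ = b ^ 7 := by ring

/-- the estimate for small sets -/
theorem Par.glob (h : Par m n q b) {s : ℕ} (hs : n + 1 ≤ s + 2 * q + 2) (hs2 : s + q ≤ n + 1) :
    ((m + 3 : ℕ) : ℝ) ^ (n + 1) * ((n + 1 : ℕ) * (√(n + 1 : ℕ) *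
      (2 * (n + 1 : ℕ) * b ^ 4 * (b ^ ((n + 1 - s) * (100 * q ^ 2)) / b ^ (1000 * q ^ 3)))) ^
        (n + 2 - s)) ≤ 1 / b ^ (n + 2) := by
  have hb := h.hb3
  have h0 := h.pos
  have h1 := h.one_le
  -- y ≤ 1 / b ^ (593 q ^ 3)
  have hy : √(n + 1 : ℕ) *
      (2 * (n + 1 : ℕ) * b ^ 4 * (b ^ ((n + 1 - s) * (100 * q ^ 2)) / b ^ (1000 * q ^ 3))) ≤
      1 / b ^ (593 * q ^ 3) := by
    have e1 : (n + 1 - s) * (100 * q ^ 2) ≤ 400 * q ^ 3 := by
      have : n + 1 - s ≤ 2 * q + 2 := by omega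
      have h2 : 2 * q + 2 ≤ 4 * q := by have := h.hq; omega
      calc (n + 1 - s) * (100 * q ^ 2) ≤ (4 * q) * (100 * q ^ 2) := Nat.mul_le_mul_right _ (this.trans h2)
        _ = 400 * q ^ 3 := by ring
    have e2 : √(n + 1 : ℕ) *
      (2 * (n + 1 : ℕ) * b ^ 4 * (b ^ ((n + 1 - s) * (100 * q ^ 2)) / b ^ (1000 * q ^ 3))) =
      (√(n + 1 : ℕ) * (2 * (n + 1 : ℕ) * b ^ 4)) * b ^ ((n + 1 - s) * (100 * q ^ 2)) /
        b ^ (1000 * q ^ 3) := by ring
    rw [e2, div_le_div_iff₀ (by positivity) (by positivity), one_mul]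
    calc (√(n + 1 : ℕ) * (2 * (n + 1 : ℕ) * b ^ 4)) * b ^ ((n + 1 - s) * (100 * q ^ 2)) *
          b ^ (593 * q ^ 3) ≤ b ^ 7 * b ^ (400 * q ^ 3) * b ^ (593 * q ^ 3) := by
          apply mul_le_mul_of_nonneg_right _ (by positivity)
          exact mul_le_mul h.coef (h.pow_le e1) (by positivity) (by positivity)
      _ = b ^ (7 + 400 * q ^ 3 + 593 * q ^ 3) := by rw [← pow_add, ← pow_add]
      _ ≤ b ^ (1000 * q ^ 3) := by
          apply h.pow_le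
          have : 1 ≤ q ^ 3 := Nat.one_le_pow _ _ h.hq
          omega
  have hy0 : 0 ≤ √(n + 1 : ℕ) *
      (2 * (n + 1 : ℕ) * b ^ 4 * (b ^ ((n + 1 - s) * (100 * q ^ 2)) / b ^ (1000 * q ^ 3))) := by
    positivity
  have hle1 : 1 / b ^ (593 * q ^ 3) ≤ 1 := by
    rw [div_le_one (by positivity)]
    exact one_le_pow₀ h1
  have hpow : (√(n + 1 : ℕ) *
      (2 * (n + 1 : ℕ) * b ^ 4 * (b ^ ((n + 1 - s) * (100 * q ^ 2)) / b ^ (1000 * q ^ 3)))) ^
        (n + 2 - s) ≤ 1 / b ^ (593 * n) := by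
    calc _ ≤ (1 / b ^ (593 * q ^ 3)) ^ (n + 2 - s) := pow_le_pow_left₀ hy0 hy _
      _ ≤ (1 / b ^ (593 * q ^ 3)) ^ q := pow_le_pow_of_le_one (by positivity) hle1 (by omega)
      _ = 1 / b ^ (593 * q ^ 4) := by rw [div_pow, one_pow, ← pow_mul]; ring_nf
      _ ≤ 1 / b ^ (593 * n) := by
          apply one_div_le_one_div_of_le (by positivity)
          exact h.pow_le (Nat.mul_le_mul_left _ h.hnq)
  calc _ ≤ (b ^ 2) ^ (n + 1) * (b * (1 / b ^ (593 * n))) := by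
        apply mul_le_mul (pow_le_pow_left₀ (by positivity) h.m3 _) _ (by positivity) (by positivity)
        exact mul_le_mul h.n1 hpow (by positivity) h0.le
    _ = b ^ (2 * (n + 1) + 1) / b ^ (593 * n) := by rw [← pow_mul, pow_succ]; ring
    _ ≤ 1 / b ^ (n + 2) := by
        rw [div_le_div_iff₀ (by positivity) (by positivity), one_mul, ← pow_add]
        apply h.pow_le
        have := h.hn
        omega

/-- the estimate for sets of size `n + 1` -/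
theorem Par.full (h : Par m n q b) :
    ((m + 3 : ℕ) : ℝ) ^ (n + 1) * ((n + 1 : ℕ) * (√(n + 1 : ℕ) *
      (2 * (n + 1 : ℕ) * b ^ 4 * (1 / b ^ (1000 * q ^ 3 + 3 * n + 20))))) ≤ 1 / b ^ (n + 2) := by
  have hb := h.hb3
  have h0 := h.pos
  have h1 := h.one_le
  have e1 : ((m + 3 : ℕ) : ℝ) ^ (n + 1) * ((n + 1 : ℕ) * (√(n + 1 : ℕ) *
      (2 * (n + 1 : ℕ) * b ^ 4 * (1 / b ^ (1000 * q ^ 3 + 3 * n + 20))))) =
      ((m + 3 : ℕ) : ℝ) ^ (n + 1) * ((n + 1 : ℕ) * (√(n + 1 : ℕ) *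
      (2 * (n + 1 : ℕ) * b ^ 4))) / b ^ (1000 * q ^ 3 + 3 * n + 20) := by ring
  rw [e1, div_le_div_iff₀ (by positivity) (by positivity), one_mul]
  calc _ ≤ (b ^ 2) ^ (n + 1) * (b * b ^ 7) * b ^ (n + 2) := by
        apply mul_le_mul_of_nonneg_right _ (by positivity)
        apply mul_le_mul (pow_le_pow_left₀ (by positivity) h.m3 _) _ (by positivity) (by positivity)
        exact mul_le_mul h.n1 h.coef (by positivity) h0.le
    _ = b ^ (2 * (n + 1) + 8 + (n + 2)) := by rw [← pow_mul]; ring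
    _ ≤ b ^ (1000 * q ^ 3 + 3 * n + 20) := by
        apply h.pow_le
        omega

/-- the base of the percolation estimate -/
theorem Par.perc_base (h : Par m n q b) :
    √(2 * b ^ 4 / b ^ (100 * q ^ 2)) * ((m : ℝ) * (n + 3 + q ^ 2 + q : ℕ) *
      ((n + 4 + q ^ 2 + q : ℕ) : ℝ) ^ ((q + 1) ^ 2) * (5 * (n + 1 : ℕ))) ≤ 1 / b ^ (33 * q ^ 2) := by
  have hb := h.hb3
  have h0 := h.pos
  have h1 := h.one_le
  have hq := h.hq
  have hq2 : q ≤ q ^ 2 := by nlinarith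
  have hroot : √(2 * b ^ 4 / b ^ (100 * q ^ 2)) ≤ b ^ 3 / b ^ (50 * q ^ 2) := by
    apply Real.sqrt_le_iff.2
    refine ⟨by positivity, ?_⟩
    rw [div_pow, ← pow_mul, ← pow_mul, show 50 * q ^ 2 * 2 = 100 * q ^ 2 by ring]
    apply div_le_div_of_nonneg_right _ (by positivity)
    have : (2 : ℝ) ≤ b ^ 2 := by nlinarith
    calc 2 * b ^ 4 ≤ b ^ 2 * b ^ 4 := mul_le_mul_of_nonneg_right this (by positivity)
      _ = b ^ (3 * 2) := by ring
  have hn4 : ((n + 4 + q ^ 2 + q : ℕ) : ℝ) ≤ b ^ 2 := by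
    have h4 : ((q ^ 2 + q : ℕ) : ℝ) ≤ ((4 * n : ℕ) : ℝ) := by exact_mod_cast h.hq4
    push_cast at h4 ⊢
    have h5 := h.hbn
    have h6 : (1 : ℝ) ≤ n := by exact_mod_cast h.hn
    nlinarith
  have hn3 : ((n + 3 + q ^ 2 + q : ℕ) : ℝ) ≤ b ^ 2 := by
    refine le_trans ?_ hn4
    exact_mod_cast (by omega : n + 3 + q ^ 2 + q ≤ n + 4 + q ^ 2 + q)
  have hm : (m : ℝ) ≤ b := by linarith [h.hbm]
  have h5n : 5 * ((n + 1 : ℕ) : ℝ) ≤ b ^ 3 := by
    have := h.n1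
    nlinarith [mul_pos h0 h0]
  have hA : (m : ℝ) * (n + 3 + q ^ 2 + q : ℕ) *
      ((n + 4 + q ^ 2 + q : ℕ) : ℝ) ^ ((q + 1) ^ 2) * (5 * (n + 1 : ℕ)) ≤
      b * b ^ 2 * (b ^ 2) ^ ((q + 1) ^ 2) * b ^ 3 := by
    apply mul_le_mul _ h5n (by positivity) (by positivity)
    apply mul_le_mul _ (pow_le_pow_left₀ (by positivity) hn4 _) (by positivity) (by positivity)
    exact mul_le_mul hm hn3 (by positivity) h0.le
  calc _ ≤ b ^ 3 / b ^ (50 * q ^ 2) * (b * b ^ 2 * (b ^ 2) ^ ((q + 1) ^ 2) * b ^ 3) :=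
        mul_le_mul hroot hA (by positivity) (by positivity)
    _ = b ^ (9 + 2 * (q + 1) ^ 2) / b ^ (50 * q ^ 2) := by
        rw [← pow_mul, pow_add]; ring
    _ ≤ 1 / b ^ (33 * q ^ 2) := by
        rw [div_le_div_iff₀ (by positivity) (by positivity), one_mul, ← pow_add]
        apply h.pow_le
        have : (q + 1) ^ 2 ≤ 4 * q ^ 2 := by nlinarith
        have h9 : 9 ≤ 9 * q ^ 2 := by nlinarith
        omega

/-- the percolation estimate -/
theorem Par.perc (h : Par m n q b) {B : ℝ} (hB0 : 0 ≤ B) (hB : B ≤ 1 / b ^ (33 * q ^ 2)) :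
    ((m + 3 : ℕ) : ℝ) ^ (n + 2) * ∑ k ∈ Finset.Icc (q ^ 2 + 1) (q ^ 2 + q + 1), B ^ k ≤
      1 / b ^ (n + 2) := by
  have hb := h.hb3
  have h0 := h.pos
  have h1 := h.one_le
  have hq := h.hq
  have hle1 : 1 / b ^ (33 * q ^ 2) ≤ 1 := by
    rw [div_le_one (by positivity)]
    exact one_le_pow₀ h1
  have hterm : ∀ k ∈ Finset.Icc (q ^ 2 + 1) (q ^ 2 + q + 1), B ^ k ≤ 1 / b ^ (33 * n) := by
    intro k hk
    rw [Finset.mem_Icc] at hk
    calc B ^ k ≤ (1 / b ^ (33 * q ^ 2)) ^ k := pow_le_pow_left₀ hB0 hB _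
      _ ≤ (1 / b ^ (33 * q ^ 2)) ^ (q ^ 2) := pow_le_pow_of_le_one (by positivity) hle1 (by omega)
      _ = 1 / b ^ (33 * q ^ 4) := by rw [div_pow, one_pow, ← pow_mul]; ring_nf
      _ ≤ 1 / b ^ (33 * n) := by
          apply one_div_le_one_div_of_le (by positivity)
          exact h.pow_le (Nat.mul_le_mul_left _ h.hnq)
  have hcard : ((Finset.Icc (q ^ 2 + 1) (q ^ 2 + q + 1)).card : ℝ) ≤ b ^ 2 := by
    rw [Nat.card_Icc]
    have e : q ^ 2 + q + 1 + 1 - (q ^ 2 + 1) = q + 1 := by omega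
    rw [e]
    have h4 : ((q ^ 2 + q : ℕ) : ℝ) ≤ ((4 * n : ℕ) : ℝ) := by exact_mod_cast h.hq4
    push_cast at h4 ⊢
    have h5 := h.hbn
    have h6 : (1 : ℝ) ≤ q := by exact_mod_cast hq
    nlinarith
  calc _ ≤ (b ^ 2) ^ (n + 2) * (b ^ 2 * (1 / b ^ (33 * n))) := by
        apply mul_le_mul (pow_le_pow_left₀ (by positivity) h.m3 _) _
          (Finset.sum_nonneg fun k _ => pow_nonneg hB0 k) (by positivity)
        calc _ ≤ ∑ k ∈ Finset.Icc (q ^ 2 + 1) (q ^ 2 + q + 1), 1 / b ^ (33 * n) :=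
              Finset.sum_le_sum hterm
          _ = (Finset.Icc (q ^ 2 + 1) (q ^ 2 + q + 1)).card * (1 / b ^ (33 * n)) := by
              rw [Finset.sum_const, nsmul_eq_mul]
          _ ≤ _ := mul_le_mul_of_nonneg_right hcard (by positivity)
    _ = b ^ (2 * (n + 2) + 2) / b ^ (33 * n) := by rw [← pow_mul, pow_add]; ring
    _ ≤ 1 / b ^ (n + 2) := by
        rw [div_le_div_iff₀ (by positivity) (by positivity), one_mul, ← pow_add]
        apply h.pow_le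
        have := h.hn
        omega

end Pool.Agent.Lib.MP_ab1b6f_lc
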