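import Mathlib
import Pool.Agent.Lib.MP_ab1b6f_lc.Core

/-!
# A majorant for the inverse square root of the product of distances  (JOB ReachG)
-/

open scoped ENNReal

namespace Pool.Agent.Lib.MP_ab1b6f_lc

variable {ι V : Type*} [DecidableEq ι] [NormedAddCommGroup V] [NormedSpace ℝ V]

/-- The possible sets `W` in a step of `Reach` from the set `U`. -/
def choices (Q n : ℕ) (U : Finset ι) : Finset (Finset ι) :=
  U.powerset.filter fun W => (U \ W).card ≤ Q ∧ W.card ≤ n

/-- Sum over all ways to reach `U` in `k` steps of the product of the `dst ^ (-1/2)`. -/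
noncomputable def G (w : ι → V) (rnd : Finset ι) (Q n : ℕ) : ℕ → Finset ι → ℝ≥0∞
  | 0, _ => 1
  | k + 1, U => ∑ a ∈ U.filter (· ∈ rnd), ∑ W ∈ choices Q n (U.erase a),
      G w rnd Q n k (U.erase a) * (ENNReal.ofReal (dst w a W)) ^ (-1 / 2 : ℝ)

/-- Induction on `Reach`: the term `(a, W)` of the sum (`insert a U` erased at `a` is `U`), and
`(p * D) ^ (-1/2) = p ^ (-1/2) * D ^ (-1/2)` in `[0, ∞]` for finite `p, D ≥ 0` (both sides are `∞` if `p D = 0`). -/
theorem Reach.le_G {w : ι → V} {rnd S0 : Finset ι} {Q n k : ℕ} {U : Finset ι} {p : ℝ}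
    (h : Reach w rnd S0 Q n k U p) :
    (ENNReal.ofReal p) ^ (-1 / 2 : ℝ) ≤ G w rnd Q n k U := by
  induction h with
  | zero => simp [G]
  | @succ k U p a W h ha haU hW hQ hn ih =>
    have h1 : a ∈ (insert a U).filter (· ∈ rnd) :=
      Finset.mem_filter.mpr ⟨Finset.mem_insert_self a U, ha⟩
    have h2 : (insert a U).erase a = U := Finset.erase_insert haU
    have h3 : W ∈ choices Q n ((insert a U).erase a) := by
      rw [h2]
      exact Finset.mem_filter.mpr ⟨Finset.mem_powerset.mpr hW, hQ, hn⟩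
    have h4 : (ENNReal.ofReal (p * dst w a W)) ^ (-1 / 2 : ℝ) =
        (ENNReal.ofReal p) ^ (-1 / 2 : ℝ) * (ENNReal.ofReal (dst w a W)) ^ (-1 / 2 : ℝ) := by
      rw [ENNReal.ofReal_mul h.nonneg, ENNReal.mul_rpow_of_ne_top ENNReal.ofReal_ne_top
        ENNReal.ofReal_ne_top]
    rw [h4]
    calc (ENNReal.ofReal p) ^ (-1 / 2 : ℝ) * (ENNReal.ofReal (dst w a W)) ^ (-1 / 2 : ℝ)
        ≤ G w rnd Q n k U * (ENNReal.ofReal (dst w a W)) ^ (-1 / 2 : ℝ) := by
          gcongr
      _ = G w rnd Q n k ((insert a U).erase a) *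
          (ENNReal.ofReal (dst w a W)) ^ (-1 / 2 : ℝ) := by rw [h2]
      _ ≤ ∑ W ∈ choices Q n ((insert a U).erase a), G w rnd Q n k ((insert a U).erase a) *
          (ENNReal.ofReal (dst w a W)) ^ (-1 / 2 : ℝ) :=
          Finset.single_le_sum (f := fun W => G w rnd Q n k ((insert a U).erase a) *
            (ENNReal.ofReal (dst w a W)) ^ (-1 / 2 : ℝ)) (fun _ _ => zero_le) h3
      _ ≤ ∑ a' ∈ (insert a U).filter (· ∈ rnd), ∑ W ∈ choices Q n ((insert a U).erase a'),
          G w rnd Q n k ((insert a U).erase a') *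
          (ENNReal.ofReal (dst w a' W)) ^ (-1 / 2 : ℝ) :=
          Finset.single_le_sum (f := fun a' => ∑ W ∈ choices Q n ((insert a U).erase a'),
            G w rnd Q n k ((insert a U).erase a') *
            (ENNReal.ofReal (dst w a' W)) ^ (-1 / 2 : ℝ)) (fun _ _ => zero_le) h1
      _ = G w rnd Q n (k + 1) (insert a U) := rfl

omit [DecidableEq ι] in
private theorem ReachG_dst_congr {w w' : ι → V} {a : ι} {W : Finset ι} (ha : w a = w' a)
    (hW : ∀ k ∈ W, w k = w' k) : dst w a W = dst w' a W := by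
  unfold dst
  refine iInf_congr fun l => ?_
  rw [ha, Finset.sum_congr rfl fun k hk => by rw [hW k hk]]

/-- `G w rnd Q n k U` depends only on the vectors `w k`, `k ∈ U` (use `dst_congr` of MeasDst, or reprove
it: the infima are over equal functions). -/
theorem G_congr {w w' : ι → V} {rnd : Finset ι} {Q n : ℕ} (k : ℕ) {U : Finset ι}
    (h : ∀ i ∈ U, w i = w' i) : G w rnd Q n k U = G w' rnd Q n k U := by
  induction k generalizing U with
  | zero => rfl
  | succ k ih =>
    unfold G
    refine Finset.sum_congr rfl fun a ha => Finset.sum_congr rfl fun W hW => ?_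
    have haU : a ∈ U := (Finset.mem_filter.mp ha).1
    have hWU : W ⊆ U.erase a := Finset.mem_powerset.mp (Finset.mem_filter.mp hW).1
    rw [ih fun i hi => h i (Finset.mem_of_mem_erase hi),
      ReachG_dst_congr (h a haU) fun i hi => h i (Finset.mem_of_mem_erase (hWU hi))]

/-- The number of choices: complements of sets with at most `Q` elements. -/
theorem card_choices_le (Q n : ℕ) (U : Finset ι) : (choices Q n U).card ≤ (U.card + 1) ^ Q := by
  classical
  have h1 : choices Q n U ⊆ (Finset.univ : Finset (Fin Q → Option {x // x ∈ U})).image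
      fun f => U.filter fun x => ∀ (i : Fin Q) (y : {x // x ∈ U}), f i = some y → x ≠ y := by
    intro W hW
    obtain ⟨hWU, hQ, -⟩ := Finset.mem_filter.mp hW
    rw [Finset.mem_powerset] at hWU
    set T := U \ W with hT
    rw [Finset.mem_image]
    refine ⟨fun i => if h : (i : ℕ) < T.card then
      some ⟨(T.equivFin.symm ⟨i, h⟩ : T), (Finset.mem_sdiff.mp (T.equivFin.symm ⟨i, h⟩).2).1⟩
      else none, Finset.mem_univ _, ?_⟩
    ext x
    rw [Finset.mem_filter]
    constructor
    · rintro ⟨hxU, hx⟩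
      by_contra hxW
      have hxT : x ∈ T := Finset.mem_sdiff.mpr ⟨hxU, hxW⟩
      set j := T.equivFin ⟨x, hxT⟩ with hj
      have hjQ : (j : ℕ) < Q := lt_of_lt_of_le j.2 hQ
      refine hx ⟨j, hjQ⟩ ⟨x, hxU⟩ ?_ rfl
      have hjT : (j : ℕ) < T.card := j.2
      simp only [hjT, dif_pos]
      congr 1
      apply Subtype.ext
      change ((T.equivFin.symm ⟨(j : ℕ), hjT⟩ : T) : ι) = x
      have : (⟨(j : ℕ), hjT⟩ : Fin T.card) = j := rfl
      rw [this, hj, Equiv.symm_apply_apply]
    · intro hxW
      refine ⟨hWU hxW, ?_⟩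
      intro i y hy hxy
      simp only at hy
      by_cases hi : (i : ℕ) < T.card
      · rw [dif_pos hi] at hy
        have h2 : (y : ι) = (T.equivFin.symm ⟨i, hi⟩ : T) := by
          have := Option.some.inj hy
          rw [← this]
        have h3 := (Finset.mem_sdiff.mp (T.equivFin.symm ⟨i, hi⟩).2).2
        rw [← h2, ← hxy] at h3
        exact h3 hxW
      · rw [dif_neg hi] at hy
        exact absurd hy (by simp)
  refine (Finset.card_le_card h1).trans (Finset.card_image_le.trans ?_)
  rw [Finset.card_univ, Fintype.card_fun, Fintype.card_option, Fintype.card_coe, Fintype.card_fin]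

/-- A set reached from `S0` in `k` steps is `S0 ∪ T` for a subset `T` of `rnd` with `k` elements
(`T = U \ S0`). -/
theorem Reach.exists_eq_union {w : ι → V} {rnd S0 : Finset ι} {Q n k : ℕ} {U : Finset ι} {p : ℝ}
    (h : Reach w rnd S0 Q n k U p) : ∃ T ∈ rnd.powersetCard k, U = S0 ∪ T := by
  induction h with
  | zero => exact ⟨∅, by simp, by simp⟩
  | @succ k U p a W h ha haU hW hQ hn ih =>
    obtain ⟨T, hT, hUT⟩ := ih
    rw [Finset.mem_powersetCard] at hT
    have haT : a ∉ T := by
      intro h1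
      apply haU
      rw [hUT]
      exact Finset.mem_union_right _ h1
    refine ⟨insert a T, ?_, ?_⟩
    · rw [Finset.mem_powersetCard]
      refine ⟨Finset.insert_subset ha hT.1, ?_⟩
      rw [Finset.card_insert_of_notMem haT, hT.2]
    · rw [hUT, Finset.union_insert]

end Pool.Agent.Lib.MP_ab1b6f_lc
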