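import Mathlib
import Pool.Agent.Lib.MP_ab1b6f_lc.DstProb
import Pool.Agent.Lib.MP_ab1b6f_lc.MeasDst
import Pool.Agent.Lib.MP_ab1b6f_lc.ReachG

/-!
# Expectation of the majorant  (JOB GProb)
-/

open scoped ENNReal
open MeasureTheory ProbabilityTheory

namespace Pool.Agent.Lib.MP_ab1b6f_lc

/-- Finite sums and products of measurable functions (`measurable_dst`). -/
theorem measurable_G {m n : ℕ} (f : Fin 2 → Pt (n + 1)) (Q k : ℕ) (U : Finset (Idx m)) :
    Measurable fun ω : Fin m → Fin (n + 1) → ℝ => G (famE f ω) (rnd m) Q n k U := by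
  induction k generalizing U with
  | zero =>
    unfold G
    exact measurable_const
  | succ k ih =>
    unfold G
    refine Finset.measurable_sum _ fun a _ => Finset.measurable_sum _ fun W _ => ?_
    exact (ih (U.erase a)).mul ((measurable_dst f a W).ennreal_ofReal.pow_const _)

private theorem GProb_term {m n : ℕ} (ν : Fin m → Fin (n + 1) → Measure ℝ)
    [∀ i j, IsProbabilityMeasure (ν i j)] (hν : ∀ i j, SB (ν i j)) (f : Fin 2 → Pt (n + 1))
    (Q k : ℕ) (U : Finset (Idx m)) (a : Idx m) (ha : a ∈ rnd m) (W : Finset (Idx m))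
    (hW : W ∈ choices Q n (U.erase a)) :
    ∫⁻ ω, G (famE f ω) (rnd m) Q n k (U.erase a) *
      (ENNReal.ofReal (dst (famE f ω) a W)) ^ (-1 / 2 : ℝ)
        ∂(Measure.pi fun i => Measure.pi (ν i)) ≤
      5 * ((n + 1 : ℕ) : ℝ≥0∞) * ∫⁻ ω, G (famE f ω) (rnd m) Q n k (U.erase a)
        ∂(Measure.pi fun i => Measure.pi (ν i)) := by
  obtain ⟨i, rfl⟩ := mem_rnd.mp ha
  obtain ⟨hWU, -, hWn⟩ := Finset.mem_filter.mp hW
  rw [Finset.mem_powerset] at hWU
  refine lintegral_mul_le (fun i => Measure.pi (ν i)) i (measurable_G f Q k _)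
    ((measurable_dst f (Sum.inl i) W).ennreal_ofReal.pow_const _) ?_ ?_
  · intro ω y
    refine G_congr k fun j hj => ?_
    exact famE_update f ω i y (Finset.ne_of_mem_erase hj)
  · intro ω
    refine dst_expect (ν i) (hν i) f ω i W ?_ (by omega)
    intro h
    exact Finset.notMem_erase _ _ (hWU h)

/-- Induction on `k`. `∫ G_{k+1}(U)` is a sum over `a = inl i ∈ U` and `W ∈ choices Q n (U \ {a})` of
`∫ G_k(U \ {a}) * dst(a, W)^(-1/2)`; the first factor does not depend on the coordinate `i` (`G_congr`,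
`famE_update`), so `lintegral_mul_le` and `dst_expect` bound it by `5 (n+1) ∫ G_k(U \ {a})`. The number of
terms is at most `|U| (|U| + 1) ^ Q` (`card_choices_le`; `|U \ {a}| + 1 ≤ |U| + 1`). -/
theorem lintegral_G_le {m n : ℕ} (ν : Fin m → Fin (n + 1) → Measure ℝ)
    [∀ i j, IsProbabilityMeasure (ν i j)] (hν : ∀ i j, SB (ν i j)) (f : Fin 2 → Pt (n + 1))
    (Q k : ℕ) (U : Finset (Idx m)) :
    ∫⁻ ω, G (famE f ω) (rnd m) Q n k U ∂(Measure.pi fun i => Measure.pi (ν i)) ≤
      ((U.card : ℝ≥0∞) * ((U.card : ℝ≥0∞) + 1) ^ Q * (5 * ((n + 1 : ℕ) : ℝ≥0∞))) ^ k := by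
  induction k generalizing U with
  | zero =>
    unfold G
    rw [lintegral_one, measure_univ, pow_zero]
  | succ k ih =>
    have hG : ∀ ω : Fin m → Fin (n + 1) → ℝ, G (famE f ω) (rnd m) Q n (k + 1) U =
        ∑ a ∈ U.filter (· ∈ rnd m), ∑ W ∈ choices Q n (U.erase a),
          G (famE f ω) (rnd m) Q n k (U.erase a) *
            (ENNReal.ofReal (dst (famE f ω) a W)) ^ (-1 / 2 : ℝ) := fun ω => rfl
    simp_rw [hG]
    have hmeas : ∀ (a : Idx m) (W : Finset (Idx m)), Measurable fun ω : Fin m → Fin (n + 1) → ℝ =>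
        G (famE f ω) (rnd m) Q n k (U.erase a) *
          (ENNReal.ofReal (dst (famE f ω) a W)) ^ (-1 / 2 : ℝ) := fun a W =>
      (measurable_G f Q k (U.erase a)).mul ((measurable_dst f a W).ennreal_ofReal.pow_const _)
    have hm1 : ∀ a ∈ U.filter (· ∈ rnd m), Measurable fun ω : Fin m → Fin (n + 1) → ℝ =>
        ∑ W ∈ choices Q n (U.erase a), G (famE f ω) (rnd m) Q n k (U.erase a) *
          (ENNReal.ofReal (dst (famE f ω) a W)) ^ (-1 / 2 : ℝ) := fun a _ =>
      Finset.measurable_sum _ fun W _ => hmeas a W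
    rw [lintegral_finsetSum _ hm1]
    set C : ℝ≥0∞ := 5 * ((n + 1 : ℕ) : ℝ≥0∞) with hC
    set A : ℝ≥0∞ := (U.card : ℝ≥0∞) * ((U.card : ℝ≥0∞) + 1) ^ Q * C with hA
    have hterm : ∀ a ∈ U.filter (· ∈ rnd m),
        ∫⁻ ω, ∑ W ∈ choices Q n (U.erase a), G (famE f ω) (rnd m) Q n k (U.erase a) *
            (ENNReal.ofReal (dst (famE f ω) a W)) ^ (-1 / 2 : ℝ)
            ∂(Measure.pi fun i => Measure.pi (ν i)) ≤
          ((U.card : ℝ≥0∞) + 1) ^ Q * C * A ^ k := by
      intro a ha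
      rw [lintegral_finsetSum _ fun W _ => hmeas a W]
      have hIH : ∫⁻ ω, G (famE f ω) (rnd m) Q n k (U.erase a)
          ∂(Measure.pi fun i => Measure.pi (ν i)) ≤ A ^ k := by
        refine (ih (U.erase a)).trans ?_
        have h1 : ((U.erase a).card : ℝ≥0∞) ≤ (U.card : ℝ≥0∞) := by
          exact_mod_cast Finset.card_erase_le
        rw [hA]
        gcongr
      calc ∑ W ∈ choices Q n (U.erase a), ∫⁻ ω, G (famE f ω) (rnd m) Q n k (U.erase a) *
            (ENNReal.ofReal (dst (famE f ω) a W)) ^ (-1 / 2 : ℝ)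
            ∂(Measure.pi fun i => Measure.pi (ν i))
          ≤ ∑ W ∈ choices Q n (U.erase a), C * A ^ k := by
            refine Finset.sum_le_sum fun W hW => ?_
            refine (GProb_term ν hν f Q k U a (Finset.mem_filter.mp ha).2 W hW).trans ?_
            gcongr
        _ = ((choices Q n (U.erase a)).card : ℝ≥0∞) * (C * A ^ k) := by
            rw [Finset.sum_const, nsmul_eq_mul]
        _ ≤ ((U.card : ℝ≥0∞) + 1) ^ Q * (C * A ^ k) := by
            have h1 : (choices Q n (U.erase a)).card ≤ (U.card + 1) ^ Q := by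
              refine (card_choices_le Q n _).trans ?_
              exact Nat.pow_le_pow_left (Nat.succ_le_succ Finset.card_erase_le) Q
            have h2 : ((choices Q n (U.erase a)).card : ℝ≥0∞) ≤ ((U.card : ℝ≥0∞) + 1) ^ Q := by
              exact_mod_cast h1
            gcongr
        _ = ((U.card : ℝ≥0∞) + 1) ^ Q * C * A ^ k := by ring
    refine (Finset.sum_le_sum hterm).trans ?_
    rw [Finset.sum_const, nsmul_eq_mul]
    have h1 : ((U.filter (· ∈ rnd m)).card : ℝ≥0∞) ≤ (U.card : ℝ≥0∞) := by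
      exact_mod_cast Finset.card_filter_le _ _
    calc ((U.filter (· ∈ rnd m)).card : ℝ≥0∞) * (((U.card : ℝ≥0∞) + 1) ^ Q * C * A ^ k)
        ≤ (U.card : ℝ≥0∞) * (((U.card : ℝ≥0∞) + 1) ^ Q * C * A ^ k) := by gcongr
      _ = A ^ (k + 1) := by
        rw [pow_succ]
        nth_rewrite 3 [hA]
        ring

end Pool.Agent.Lib.MP_ab1b6f_lc
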