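import Mathlib
import Pool.Agent.Lib.MP_ab1b6f_lc.GProb
import Pool.Agent.Lib.MP_ab1b6f_lc.Count

/-!
# The union bound for reachable sets  (JOB PercProb)
-/

open scoped ENNReal
open MeasureTheory ProbabilityTheory

namespace Pool.Agent.Lib.MP_ab1b6f_lc

private theorem PercProb_anti {x y : ℝ≥0∞} (h : x ≤ y) : y ^ (-1 / 2 : ℝ) ≤ x ^ (-1 / 2 : ℝ) := by
  have h1 : (-1 / 2 : ℝ) = -(1 / 2) := by norm_num
  rw [h1, ENNReal.rpow_neg, ENNReal.rpow_neg, ENNReal.inv_le_inv]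
  exact ENNReal.rpow_le_rpow h (by norm_num)

private theorem PercProb_pow {τ : ℝ} (hτ : 0 < τ) (k : ℕ) :
    (ENNReal.ofReal (τ ^ k)) ^ (-1 / 2 : ℝ) = (ENNReal.ofReal (√τ) ^ k)⁻¹ := by
  have h1 : (-1 / 2 : ℝ) = -(1 / 2) := by norm_num
  rw [h1, ENNReal.rpow_neg]
  congr 1
  rw [ENNReal.ofReal_rpow_of_pos (pow_pos hτ k), ← ENNReal.ofReal_pow (Real.sqrt_nonneg τ)]
  congr 1
  rw [Real.sqrt_eq_rpow, ← Real.rpow_natCast, ← Real.rpow_natCast, ← Real.rpow_mul hτ.le,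
    ← Real.rpow_mul hτ.le]
  congr 1
  ring

/-- For fixed `S0`, `k`, and `U = S0 ∪ T` (`Reach.exists_eq_union`, at most `m ^ k` sets `T`,
`|U| ≤ n + 2 + k ≤ n + 3 + X + δ`): if `p (b^κ)^k ≤ (2R)^k` then `p ≤ τ^k`, `τ = 2R / b^κ`, so
`G ≥ p^(-1/2) ≥ τ^(-k/2) = (ofReal √τ)⁻¹ ^ k` by `Reach.le_G`; Markov's inequality
(`mul_meas_ge_le_lintegral`) and `lintegral_G_le` bound the probability by
`(√τ |U| (|U|+1)^Q 5(n+1))^k`. The number of sets `S0` is at most `(m + 3) ^ (n + 2)` by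
`card_small_subsets` (`A = univ`, with `m + 2` elements). -/
theorem perc_prob {m n : ℕ} (ν : Fin m → Fin (n + 1) → Measure ℝ)
    [∀ i j, IsProbabilityMeasure (ν i j)] (hν : ∀ i j, SB (ν i j)) (f : Fin 2 → Pt (n + 1))
    (X δ Q κ : ℕ) {b R : ℝ} (hb : 1 ≤ b) (hR : 1 ≤ R) :
    (Measure.pi fun i => Measure.pi (ν i)) {ω | ∃ S0 : Finset (Idx m), S0.card ≤ n + 2 ∧
      ∃ (k : ℕ) (U : Finset (Idx m)) (p : ℝ), X < k ∧ k ≤ X + δ + 1 ∧
        Reach (famE f ω) (rnd m) S0 Q n k U p ∧ p * (b ^ κ) ^ k ≤ (2 * R) ^ k} ≤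
      ((m + 3 : ℕ) : ℝ≥0∞) ^ (n + 2) * ∑ k ∈ Finset.Icc (X + 1) (X + δ + 1),
        (ENNReal.ofReal (√(2 * R / b ^ κ)) * ((m : ℝ≥0∞) * ((n + 3 + X + δ : ℕ) : ℝ≥0∞) *
          ((n + 4 + X + δ : ℕ) : ℝ≥0∞) ^ Q * (5 * ((n + 1 : ℕ) : ℝ≥0∞)))) ^ k := by
  classical
  set μ : Measure (Fin m → Fin (n + 1) → ℝ) := Measure.pi fun i => Measure.pi (ν i) with hμ
  set τ : ℝ := 2 * R / b ^ κ with hτdef
  have hbκ : 0 < b ^ κ := pow_pos (by linarith) κ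
  have hτ : 0 < τ := div_pos (by linarith) hbκ
  set s : ℝ≥0∞ := ENNReal.ofReal (√τ) with hs
  have hs0 : s ≠ 0 := by
    rw [hs, Ne, ENNReal.ofReal_eq_zero, not_le]
    exact Real.sqrt_pos.mpr hτ
  have hst : s ≠ ⊤ := ENNReal.ofReal_ne_top
  set small : Finset (Finset (Idx m)) :=
    (Finset.univ : Finset (Idx m)).powerset.filter (fun E => E.card ≤ n + 2) with hsmall
  set A : ℕ → ℝ≥0∞ := fun k => (s * ((m : ℝ≥0∞) * ((n + 3 + X + δ : ℕ) : ℝ≥0∞) *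
          ((n + 4 + X + δ : ℕ) : ℝ≥0∞) ^ Q * (5 * ((n + 1 : ℕ) : ℝ≥0∞)))) ^ k with hA
  -- the events
  set Ev : Finset (Idx m) → ℕ → Finset (Idx m) → Set (Fin m → Fin (n + 1) → ℝ) :=
    fun S0 k T => {ω | (s ^ k)⁻¹ ≤ G (famE f ω) (rnd m) Q n k (S0 ∪ T)} with hEv
  have hsub : {ω | ∃ S0 : Finset (Idx m), S0.card ≤ n + 2 ∧
      ∃ (k : ℕ) (U : Finset (Idx m)) (p : ℝ), X < k ∧ k ≤ X + δ + 1 ∧
        Reach (famE f ω) (rnd m) S0 Q n k U p ∧ p * (b ^ κ) ^ k ≤ (2 * R) ^ k} ⊆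
      ⋃ S0 ∈ small, ⋃ k ∈ Finset.Icc (X + 1) (X + δ + 1), ⋃ T ∈ (rnd m).powersetCard k,
        Ev S0 k T := by
    rintro ω ⟨S0, hS0, k, U, p, hXk, hkX, hreach, hp⟩
    obtain ⟨T, hT, hUT⟩ := hreach.exists_eq_union
    simp only [Set.mem_iUnion]
    refine ⟨S0, ?_, k, ?_, T, hT, ?_⟩
    · rw [hsmall, Finset.mem_filter]
      exact ⟨Finset.mem_powerset.mpr (Finset.subset_univ _), hS0⟩
    · rw [Finset.mem_Icc]
      omega
    · change (s ^ k)⁻¹ ≤ G (famE f ω) (rnd m) Q n k (S0 ∪ T)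
      rw [← hUT]
      refine le_trans ?_ hreach.le_G
      rw [hs, ← PercProb_pow hτ k]
      apply PercProb_anti
      apply ENNReal.ofReal_le_ofReal
      rw [hτdef, div_pow, le_div_iff₀ (pow_pos hbκ k)]
      exact hp
  -- the probability of one event
  have hone : ∀ S0 ∈ small, ∀ k ∈ Finset.Icc (X + 1) (X + δ + 1),
      ∀ T ∈ (rnd m).powersetCard k, μ (Ev S0 k T) ≤
        (s * (((n + 3 + X + δ : ℕ) : ℝ≥0∞) * ((n + 4 + X + δ : ℕ) : ℝ≥0∞) ^ Q *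
          (5 * ((n + 1 : ℕ) : ℝ≥0∞)))) ^ k := by
    intro S0 hS0 k hk T hT
    rw [hsmall, Finset.mem_filter] at hS0
    rw [Finset.mem_Icc] at hk
    rw [Finset.mem_powersetCard] at hT
    have hcard : (S0 ∪ T).card ≤ n + 3 + X + δ := by
      refine (Finset.card_union_le _ _).trans ?_
      omega
    have hmark := meas_ge_le_lintegral_div (μ := μ) (measurable_G f Q k (S0 ∪ T)).aemeasurable
      (ε := (s ^ k)⁻¹) (ENNReal.inv_ne_zero.mpr (ENNReal.pow_ne_top hst))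
      (ENNReal.inv_ne_top.mpr (pow_ne_zero _ hs0))
    refine hmark.trans ?_
    rw [div_eq_mul_inv, inv_inv, mul_comm, mul_pow]
    have hint := lintegral_G_le ν hν f Q k (S0 ∪ T)
    have hc1 : ((S0 ∪ T).card : ℝ≥0∞) ≤ ((n + 3 + X + δ : ℕ) : ℝ≥0∞) := by
      exact_mod_cast hcard
    have hc2 : ((S0 ∪ T).card : ℝ≥0∞) + 1 ≤ ((n + 4 + X + δ : ℕ) : ℝ≥0∞) := by
      have : (S0 ∪ T).card + 1 ≤ n + 4 + X + δ := by omega
      exact_mod_cast this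
    refine mul_le_mul_right (hint.trans ?_) _
    gcongr
  -- the sum over T
  have hT : ∀ S0 ∈ small, ∀ k ∈ Finset.Icc (X + 1) (X + δ + 1),
      μ (⋃ T ∈ (rnd m).powersetCard k, Ev S0 k T) ≤ A k := by
    intro S0 hS0 k hk
    refine (measure_biUnion_finset_le _ _).trans ?_
    refine (Finset.sum_le_sum fun T hT => hone S0 hS0 k hk T hT).trans ?_
    rw [Finset.sum_const, nsmul_eq_mul, Finset.card_powersetCard]
    have hrnd : (rnd m).card = m := by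
      rw [rnd, Finset.card_map, Finset.card_univ, Fintype.card_fin]
    rw [hrnd]
    have hch : ((m.choose k : ℕ) : ℝ≥0∞) ≤ (m : ℝ≥0∞) ^ k := by
      exact_mod_cast Nat.choose_le_pow m k
    refine (mul_le_mul_left hch _).trans (le_of_eq ?_)
    rw [hA, ← mul_pow]
    congr 1
    ring
  refine (measure_mono hsub).trans ((measure_biUnion_finset_le _ _).trans ?_)
  have hS : ∀ S0 ∈ small, μ (⋃ k ∈ Finset.Icc (X + 1) (X + δ + 1),
      ⋃ T ∈ (rnd m).powersetCard k, Ev S0 k T) ≤ ∑ k ∈ Finset.Icc (X + 1) (X + δ + 1), A k := by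
    intro S0 hS0
    refine (measure_biUnion_finset_le _ _).trans ?_
    exact Finset.sum_le_sum fun k hk => hT S0 hS0 k hk
  refine (Finset.sum_le_sum hS).trans ?_
  rw [Finset.sum_const, nsmul_eq_mul]
  have hcs : small.card ≤ (m + 3) ^ (n + 2) := by
    have h1 := card_small_subsets (Finset.univ : Finset (Idx m)) (n + 2)
    have h2 : (Finset.univ : Finset (Idx m)).card = m + 2 := by
      rw [Finset.card_univ, Fintype.card_sum, Fintype.card_fin, Fintype.card_fin]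
    rw [h2] at h1
    exact h1
  have hcs' : (small.card : ℝ≥0∞) ≤ ((m + 3 : ℕ) : ℝ≥0∞) ^ (n + 2) := by
    exact_mod_cast hcs
  exact mul_le_mul_left hcs' _

end Pool.Agent.Lib.MP_ab1b6f_lc
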