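import Mathlib
import Pool.Agent.Lib.MP_ab1b6f_lc.Params
import Pool.Agent.Lib.MP_ab1b6f_lc.PercProb
import Pool.Agent.Lib.MP_ab1b6f_lc.IndProb
import Pool.Agent.Lib.MP_ab1b6f_lc.NormProb
import Pool.Agent.Lib.MP_ab1b6f_lc.Walk
import Pool.Agent.Lib.MP_ab1b6f_lc.Prog

/-!
# The probability of the good event
-/

open scoped ENNReal
open MeasureTheory ProbabilityTheory

namespace Pool.Agent.Lib.MP_ab1b6f_lc

variable {m n q : ℕ} {b : ℝ}

/-- The good event. -/
def GoodEv (c : Pt n) (q : ℕ) (b : ℝ) (D : Data m n) : Prop :=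
  WalkEv (fam D c) (rnd m) n q (q ^ 2) ((q + 1) ^ 2) (1000 * q ^ 3) (100 * q ^ 2) b (b ^ 4) ∧
    GeoEv D c (th b (n + 1) (1000 * q ^ 3) (100 * q ^ 2) (n + 1))
      (1 / b ^ (1000 * q ^ 3 + 3 * n + 20)) (b ^ 4)

/-- Number of sets of indices with at most `r` elements. -/
theorem card_sets_le (r : ℕ) :
    ((Finset.univ : Finset (Finset (Idx m))).filter (fun S => S.card ≤ r)).card ≤ (m + 3) ^ r := by
  have h := card_small_subsets (Finset.univ : Finset (Idx m)) r
  have h1 : (Finset.univ : Finset (Idx m)).powerset = Finset.univ := Finset.powerset_univ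
  rw [h1] at h
  refine h.trans (le_of_eq ?_)
  simp

/-- union bound for badly conditioned sets in a family `T` of sets. -/
theorem sets_prob (μ : Fin m → Fin (n + 1) → ℝ) {c : Pt n} (hc : c ≠ 0) (hb : 1 ≤ b)
    (T : Finset (Finset (Idx m))) (hT : ∀ S ∈ T, S.card ≤ n + 1) (t : ℕ → ℝ) {B : ℝ}
    (ht : ∀ S ∈ T, 0 < t S.card) (ht1 : ∀ S ∈ T, t S.card ≤ 1 / 2)
    (hB : ∀ S ∈ T, ((n + 1 : ℕ) : ℝ) * (√(n + 1 : ℕ) * (2 * (n + 1 : ℕ) * b ^ 4 * t S.card)) ^
      (n + 2 - S.card) ≤ B) :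
    (Measure.pi fun i => Measure.pi fun j => gaussianReal (μ i j) 1)
      {ω | (∀ i ∈ rnd m, ‖famE (fixv c) ω i‖ ≤ b ^ 4) ∧
        ∃ S ∈ T, ¬ Ind (famE (fixv c) ω) S (t S.card)} ≤ ENNReal.ofReal (T.card * B) := by
  have hsub : {ω | (∀ i ∈ rnd m, ‖famE (fixv c) ω i‖ ≤ b ^ 4) ∧
        ∃ S ∈ T, ¬ Ind (famE (fixv c) ω) S (t S.card)} ⊆
      ⋃ S ∈ T, {ω : Fin m → Fin (n + 1) → ℝ | (∀ i ∈ rnd m, ‖famE (fixv c) ω i‖ ≤ b ^ 4) ∧
        ¬ Ind (famE (fixv c) ω) S (t S.card)} := by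
    rintro ω ⟨h1, S, hS, h2⟩
    simp only [Set.mem_iUnion]
    exact ⟨S, hS, h1, h2⟩
  have hb4 : (1 : ℝ) ≤ b ^ 4 := one_le_pow₀ hb
  have hb0 : 0 < b := by linarith
  have hterm : ∀ S ∈ T, (Measure.pi fun i => Measure.pi fun j => gaussianReal (μ i j) 1)
      {ω | (∀ i ∈ rnd m, ‖famE (fixv c) ω i‖ ≤ b ^ 4) ∧
        ¬ Ind (famE (fixv c) ω) S (t S.card)} ≤ ENNReal.ofReal B := by
    intro S hS
    have hn1 : (0 : ℝ) < ((n + 1 : ℕ) : ℝ) := by positivity
    have hk := ind_prob (fun i j => gaussianReal (μ i j) 1) (fun i j => gaussian_SB _) hc S (hT S hS)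
      (θ := 2 * (n + 1 : ℕ) * b ^ 4 * t S.card) (R := b ^ 4) hb4
      (by have := ht S hS; positivity)
      (by
        have h1 := ht1 S hS
        have h2 : 0 < ((n + 1 : ℕ) : ℝ) * b ^ 4 := by positivity
        nlinarith)
    have e : 2 * ((n + 1 : ℕ) : ℝ) * b ^ 4 * t S.card / (2 * (n + 1 : ℕ) * b ^ 4) = t S.card := by
      field_simp
    rw [e] at hk
    refine hk.trans ?_
    refine le_trans (le_of_eq ?_) (ENNReal.ofReal_le_ofReal (hB S hS))
    have := ht S hS
    rw [ENNReal.ofReal_mul (p := ((n + 1 : ℕ) : ℝ)) (by positivity), ENNReal.ofReal_natCast,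
      ENNReal.ofReal_pow (by positivity)]
  calc _ ≤ _ := measure_mono hsub
    _ ≤ ∑ S ∈ T, (Measure.pi fun i => Measure.pi fun j => gaussianReal (μ i j) 1)
      {ω | (∀ i ∈ rnd m, ‖famE (fixv c) ω i‖ ≤ b ^ 4) ∧
        ¬ Ind (famE (fixv c) ω) S (t S.card)} := measure_biUnion_finset_le _ _
    _ ≤ ∑ S ∈ T, ENNReal.ofReal B := Finset.sum_le_sum hterm
    _ = ENNReal.ofReal (T.card * B) := by
        rw [Finset.sum_const, nsmul_eq_mul, ENNReal.ofReal_mul (by positivity),
          ENNReal.ofReal_natCast]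

theorem event_prob (h : Par m n q b) {c : Pt n} (hc : c ≠ 0) (μ : Fin m → Fin (n + 1) → ℝ)
    (hμ : ∀ i j, |μ i j| ≤ b) :
    (Measure.pi fun i => Measure.pi fun j => gaussianReal (μ i j) 1)
      {D : Data m n | ¬ GoodEv c q b D} ≤ ENNReal.ofReal (1 / b ^ n) := by
  classical
  have hb := h.hb3
  have h0 := h.pos
  have h1 := h.one_le
  have hq := h.hq
  have hb4 : (1 : ℝ) ≤ b ^ 4 := one_le_pow₀ h1
  set P := (Measure.pi fun i => Measure.pi fun j => gaussianReal (μ i j) 1 :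
    Measure (Fin m → Fin (n + 1) → ℝ)) with hP
  set E1 : Set (Data m n) := {ω | ∃ i ∈ rnd m, b ^ 4 < ‖famE (fixv c) ω i‖} with hE1
  set T2 := (Finset.univ : Finset (Finset (Idx m))).filter
    (fun S => n + 1 ≤ S.card + 2 * q + 2 ∧ S.card + q ≤ n + 1) with hT2
  set T3 := (Finset.univ : Finset (Finset (Idx m))).filter (fun S => S.card = n + 1) with hT3
  set t2 : ℕ → ℝ := fun s => th b (n + 1) (1000 * q ^ 3) (100 * q ^ 2) s with ht2
  set E2 : Set (Data m n) := {ω | (∀ i ∈ rnd m, ‖famE (fixv c) ω i‖ ≤ b ^ 4) ∧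
        ∃ S ∈ T2, ¬ Ind (famE (fixv c) ω) S (t2 S.card)} with hE2
  set E3 : Set (Data m n) := {ω | (∀ i ∈ rnd m, ‖famE (fixv c) ω i‖ ≤ b ^ 4) ∧
        ∃ S ∈ T3, ¬ Ind (famE (fixv c) ω) S (1 / b ^ (1000 * q ^ 3 + 3 * n + 20))} with hE3
  set E4 : Set (Data m n) := {ω | ∃ S0 : Finset (Idx m), S0.card ≤ n + 2 ∧
      ∃ (k : ℕ) (U : Finset (Idx m)) (p : ℝ), q ^ 2 < k ∧ k ≤ q ^ 2 + q + 1 ∧
        Reach (famE (fixv c) ω) (rnd m) S0 ((q + 1) ^ 2) n k U p ∧
          p * (b ^ (100 * q ^ 2)) ^ k ≤ (2 * b ^ 4) ^ k} with hE4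
  have hcover : {D : Data m n | ¬ GoodEv c q b D} ⊆ E1 ∪ (E2 ∪ (E3 ∪ E4)) := by
    intro D hD
    by_contra hcon
    simp only [Set.mem_union, not_or] at hcon
    obtain ⟨n1, n2, n3, n4⟩ := hcon
    have hnorm : ∀ i ∈ rnd m, ‖famE (fixv c) D i‖ ≤ b ^ 4 := by
      intro i hi
      by_contra hlt
      exact n1 ⟨i, hi, not_le.1 hlt⟩
    apply hD
    refine ⟨⟨hnorm, ?_, ?_⟩, ⟨?_, ?_⟩⟩
    · intro S hS1 hS2
      by_contra hbad
      exact n2 ⟨hnorm, S, Finset.mem_filter.2 ⟨Finset.mem_univ _, hS1, hS2⟩, hbad⟩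
    · intro S0 hS0 k U p hk1 hk2 hr
      by_contra hle
      exact n4 ⟨S0, hS0, k, U, p, hk1, hk2, hr, not_lt.1 hle⟩
    · intro i
      exact hnorm _ (mem_rnd.2 ⟨i, rfl⟩)
    · intro S hS
      by_contra hbad
      exact n3 ⟨hnorm, S, Finset.mem_filter.2 ⟨Finset.mem_univ _, hS⟩, hbad⟩
  have hcardle : ∀ T : Finset (Finset (Idx m)), (∀ S ∈ T, S.card ≤ n + 1) →
      (T.card : ℝ) ≤ ((m + 3 : ℕ) : ℝ) ^ (n + 1) := by
    intro T hT
    have hsub : T ⊆ (Finset.univ : Finset (Finset (Idx m))).filter (fun S => S.card ≤ n + 1) :=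
      fun S hS => Finset.mem_filter.2 ⟨Finset.mem_univ _, hT S hS⟩
    have := (Finset.card_le_card hsub).trans (card_sets_le (n + 1))
    exact_mod_cast this
  have p1 : P E1 ≤ ENNReal.ofReal (1 / b ^ (n + 2)) := by
    have := norm_prob μ (fixv c) (M := b) (t := b ^ 3) (R := b ^ 4) hμ (by positivity) h.norm_bound
    refine this.trans ?_
    refine le_trans (le_of_eq ?_) (ENNReal.ofReal_le_ofReal h.exp_bound)
    rw [ENNReal.ofReal_mul (p := (m : ℝ) * ((n + 1 : ℕ) : ℝ)) (by positivity),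
      ENNReal.ofReal_mul (p := (m : ℝ)) (by positivity),
      ENNReal.ofReal_natCast, ENNReal.ofReal_natCast]
  have p2 : P E2 ≤ ENNReal.ofReal (1 / b ^ (n + 2)) := by
    have hcardT : ∀ S ∈ T2, n + 1 ≤ S.card + 2 * q + 2 ∧ S.card + q ≤ n + 1 := by
      intro S hS
      exact (Finset.mem_filter.1 hS).2
    by_cases hT : T2.Nonempty
    · have := sets_prob (b := b) μ hc h1 T2 (fun S hS => by have := hcardT S hS; omega) t2
        (B := 1 / b ^ (n + 2) / ((m + 3 : ℕ) : ℝ) ^ (n + 1))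
        (fun S hS => by simp only [ht2, th]; positivity)
        (fun S hS => by
          have hs := hcardT S hS
          simp only [ht2, th]
          rw [div_le_div_iff₀ (by positivity) (by norm_num), one_mul]
          have e1 : (n + 1 - S.card) * (100 * q ^ 2) ≤ 400 * q ^ 3 := by
            have ha : n + 1 - S.card ≤ 4 * q := by omega
            calc (n + 1 - S.card) * (100 * q ^ 2) ≤ (4 * q) * (100 * q ^ 2) :=
                  Nat.mul_le_mul_right _ ha
              _ = 400 * q ^ 3 := by ring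
          calc b ^ ((n + 1 - S.card) * (100 * q ^ 2)) * 2 ≤ b ^ (400 * q ^ 3) * b ^ 1 := by
                apply mul_le_mul (h.pow_le e1) _ (by norm_num) (by positivity)
                rw [pow_one]; linarith
            _ = b ^ (400 * q ^ 3 + 1) := by rw [pow_add]
            _ ≤ b ^ (1000 * q ^ 3) := by
                apply h.pow_le
                have : 1 ≤ q ^ 3 := Nat.one_le_pow _ _ h.hq
                omega)
        (fun S hS => by
          have hs := hcardT S hS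
          rw [le_div_iff₀ (by positivity), mul_comm]
          exact h.glob hs.1 hs.2)
      refine this.trans (ENNReal.ofReal_le_ofReal ?_)
      have hc2 := hcardle T2 (fun S hS => by have := hcardT S hS; omega)
      have hm3 : (0 : ℝ) < ((m + 3 : ℕ) : ℝ) ^ (n + 1) := by positivity
      calc (T2.card : ℝ) * (1 / b ^ (n + 2) / ((m + 3 : ℕ) : ℝ) ^ (n + 1)) ≤
            ((m + 3 : ℕ) : ℝ) ^ (n + 1) * (1 / b ^ (n + 2) / ((m + 3 : ℕ) : ℝ) ^ (n + 1)) :=
            mul_le_mul_of_nonneg_right hc2 (by positivity)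
        _ = 1 / b ^ (n + 2) := by field_simp
    · have : E2 = ∅ := by
        ext ω
        simp only [hE2, Set.mem_ofPred_eq, Set.mem_empty_iff_false, iff_false, not_and, not_exists]
        intro _ S hS
        exact absurd ⟨S, hS⟩ hT
      rw [this]; simp
  have p3 : P E3 ≤ ENNReal.ofReal (1 / b ^ (n + 2)) := by
    have hcardT : ∀ S ∈ T3, S.card = n + 1 := fun S hS => (Finset.mem_filter.1 hS).2
    have := sets_prob (b := b) μ hc h1 T3 (fun S hS => (hcardT S hS).le)
        (fun _ => 1 / b ^ (1000 * q ^ 3 + 3 * n + 20))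
        (B := 1 / b ^ (n + 2) / ((m + 3 : ℕ) : ℝ) ^ (n + 1))
        (fun S hS => by positivity)
        (fun S hS => by
          rw [div_le_div_iff₀ (by positivity) (by norm_num), one_mul, one_mul]
          calc (2 : ℝ) ≤ b ^ 1 := by rw [pow_one]; linarith
            _ ≤ _ := by apply h.pow_le; omega)
        (fun S hS => by
          rw [hcardT S hS, show n + 2 - (n + 1) = 1 by omega, pow_one,
            le_div_iff₀ (by positivity), mul_comm]
          exact h.full)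
    refine this.trans (ENNReal.ofReal_le_ofReal ?_)
    have hc2 := hcardle T3 (fun S hS => (hcardT S hS).le)
    calc (T3.card : ℝ) * (1 / b ^ (n + 2) / ((m + 3 : ℕ) : ℝ) ^ (n + 1)) ≤
          ((m + 3 : ℕ) : ℝ) ^ (n + 1) * (1 / b ^ (n + 2) / ((m + 3 : ℕ) : ℝ) ^ (n + 1)) :=
          mul_le_mul_of_nonneg_right hc2 (by positivity)
      _ = 1 / b ^ (n + 2) := by field_simp
  have p4 : P E4 ≤ ENNReal.ofReal (1 / b ^ (n + 2)) := by
    have := perc_prob (fun i j => gaussianReal (μ i j) 1) (fun i j => gaussian_SB _) (fixv c)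
      (q ^ 2) q ((q + 1) ^ 2) (100 * q ^ 2) (b := b) (R := b ^ 4) h1 hb4
    refine this.trans ?_
    refine le_trans (le_of_eq ?_) (ENNReal.ofReal_le_ofReal (h.perc (B := _) ?_ h.perc_base))
    · rw [ENNReal.ofReal_mul (by positivity), ENNReal.ofReal_pow (by positivity),
        ENNReal.ofReal_natCast, ENNReal.ofReal_sum_of_nonneg (fun k _ => by positivity)]
      congr 1
      apply Finset.sum_congr rfl
      intro k _
      rw [ENNReal.ofReal_pow (by positivity)]
      congr 1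
      rw [ENNReal.ofReal_mul (by positivity), ENNReal.ofReal_mul (by positivity),
        ENNReal.ofReal_mul (by positivity), ENNReal.ofReal_mul (by positivity),
        ENNReal.ofReal_mul (by positivity), ENNReal.ofReal_pow (by positivity)]
      simp only [ENNReal.ofReal_natCast]
      norm_num
    · positivity
  calc P {D : Data m n | ¬ GoodEv c q b D} ≤ P (E1 ∪ (E2 ∪ (E3 ∪ E4))) := measure_mono hcover
    _ ≤ P E1 + (P E2 + (P E3 + P E4)) :=
        (measure_union_le _ _).trans (add_le_add le_rfl ((measure_union_le _ _).trans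
          (add_le_add le_rfl (measure_union_le _ _))))
    _ ≤ ENNReal.ofReal (1 / b ^ (n + 2)) + (ENNReal.ofReal (1 / b ^ (n + 2)) +
        (ENNReal.ofReal (1 / b ^ (n + 2)) + ENNReal.ofReal (1 / b ^ (n + 2)))) :=
        add_le_add p1 (add_le_add p2 (add_le_add p3 p4))
    _ = ENNReal.ofReal (4 * (1 / b ^ (n + 2))) := by
        rw [← ENNReal.ofReal_add (by positivity) (by positivity),
          ← ENNReal.ofReal_add (by positivity) (by positivity),
          ← ENNReal.ofReal_add (by positivity) (by positivity)]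
        congr 1; ring
    _ ≤ ENNReal.ofReal (1 / b ^ n) := by
        apply ENNReal.ofReal_le_ofReal
        rw [pow_add, mul_one_div, div_le_div_iff₀ (by positivity) (by positivity), one_mul]
        have : (4 : ℝ) ≤ b ^ 2 := by nlinarith
        nlinarith [pow_pos h0 n]

end Pool.Agent.Lib.MP_ab1b6f_lc
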