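import Mathlib
import Pool.Agent.Lib.MP_ab1b6f_lc.Defs

/-!
# Scaling to unit variance  (JOB Scale)
-/

open scoped ENNReal NNReal
open MeasureTheory ProbabilityTheory

namespace Pool.Agent.Lib.MP_ab1b6f_lc

/-- Dividing all constraints by `s > 0` does not change the polyhedron. -/
theorem poly_scale {m n : ℕ} (D : Data m n) {s : ℝ} (hs : 0 < s) :
    poly (fun i j => D i j / s) = poly D := by
  have key : ∀ (i : Fin m) (x : Pt n), lhs (fun i j => D i j / s) i x = lhs D i x / s := by
    intro i x
    unfold lhs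
    rw [Finset.sum_div]
    refine Finset.sum_congr rfl fun j _ => ?_
    ring
  ext x
  simp only [poly, Set.mem_ofPred_eq]
  refine forall_congr' fun i => ?_
  rw [key]
  exact div_le_div_iff_of_pos_right hs

/-- `Measure.pi_map_pi` twice and `gaussianReal_map_div_const`. -/
theorem law_scale {m n : ℕ} (Dbar : Data m n) {σ : ℝ≥0} (hσ : 0 < σ) :
    (law Dbar σ).map (fun D i j => D i j / (σ : ℝ)) =
      Measure.pi fun i => Measure.pi fun j => gaussianReal (Dbar i j / (σ : ℝ)) 1 := by
  have h1 : ∀ i j, (gaussianReal (Dbar i j) (σ ^ 2)).map (fun x : ℝ => x / (σ : ℝ)) =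
      gaussianReal (Dbar i j / (σ : ℝ)) 1 := by
    intro i j
    rw [gaussianReal_map_div_const]
    congr 1
    have h5 : NNReal.mk ((σ : ℝ) ^ 2) (sq_nonneg _) = σ ^ 2 := by
      apply NNReal.eq
      push_cast
      rfl
    rw [h5]
    exact div_self (pow_ne_zero 2 hσ.ne')
  have hm : Measurable fun x : ℝ => x / (σ : ℝ) := measurable_id.div_const _
  have h2 : ∀ i, (Measure.pi fun j => gaussianReal (Dbar i j) (σ ^ 2)).map
      (fun (x : Fin (n + 1) → ℝ) j => x j / (σ : ℝ)) =
      Measure.pi fun j => gaussianReal (Dbar i j / (σ : ℝ)) 1 := by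
    intro i
    have : ∀ j, SigmaFinite ((gaussianReal (Dbar i j) (σ ^ 2)).map fun x : ℝ => x / (σ : ℝ)) := by
      intro j
      rw [h1]
      infer_instance
    rw [Measure.pi_map_pi (fun j => hm.aemeasurable)]
    simp only [h1]
  have : ∀ i, SigmaFinite ((Measure.pi fun j => gaussianReal (Dbar i j) (σ ^ 2)).map
      (fun (x : Fin (n + 1) → ℝ) j => x j / (σ : ℝ))) := by
    intro i
    rw [h2]
    infer_instance
  unfold law
  have h3 := Measure.pi_map_pi (μ := fun i : Fin m => Measure.pi fun j => gaussianReal (Dbar i j) (σ ^ 2))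
    (f := fun _ => fun (x : Fin (n + 1) → ℝ) j => x j / (σ : ℝ))
    (fun i => (measurable_pi_lambda _ fun j => hm.comp (measurable_pi_apply j)).aemeasurable)
  rw [h3]
  simp only [h2]

end Pool.Agent.Lib.MP_ab1b6f_lc
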