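import Mathlib
import Pool.Agent.Lib.MP_ab1b6f_lc.EventProb
import Pool.Agent.Lib.MP_ab1b6f_lc.Det
import Pool.Agent.Lib.MP_ab1b6f_lc.Scale

/-!
# The final bound
-/

open scoped ENNReal NNReal
open MeasureTheory ProbabilityTheory

namespace Pool.Agent.Lib.MP_ab1b6f_lc

variable {m n q : ℕ} {b : ℝ}

/-- The deterministic bound in terms of `b`. -/
theorem good_bound (h : Par m n q b) {D : Data m n} {c : Pt n} (hc : c ≠ 0)
    (hD : GoodEv c q b D) {p : Pt n → Pt n → ℝ≥0∞} (hp : Rule (poly D) c p) (v : Pt n) :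
    pathLen p v ≤ ENNReal.ofReal (b ^ (3100 * q ^ 3)) := by
  have hb := h.hb3
  have h0 := h.pos
  have h1 := h.one_le
  have hq := h.hq
  have hcn : 0 < ‖c‖ := norm_pos_iff.2 hc
  have hK0 : 1 ≤ q ^ 3 := Nat.one_le_pow _ _ h.hq
  have hth : th b (n + 1) (1000 * q ^ 3) (100 * q ^ 2) (n + 1) = 1 / b ^ (1000 * q ^ 3) := by
    simp [th]
  have hdet := det_bound (D := D) hc hp h.hn (δ := q) (X := q ^ 2) (Q := (q + 1) ^ 2)
    (K := 1000 * q ^ 3) (κ := 100 * q ^ 2) (b := b) (R := b ^ 4)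
    (θ := 1 / b ^ (1000 * q ^ 3 + 3 * n + 20)) h1 (one_le_pow₀ h1) hq
    (by
      have : (2 * q + 2) ≤ 4 * q := by omega
      calc (2 * q + 2) * (100 * q ^ 2) ≤ (4 * q) * (100 * q ^ 2) := Nat.mul_le_mul_right _ this
        _ = 400 * q ^ 3 := by ring
        _ ≤ 1000 * q ^ 3 := by omega)
    (by ring_nf; omega) (by positivity)
    (by
      rw [hth]
      apply one_div_le_one_div_of_le (by positivity)
      apply h.pow_le; omega)
    (by
      rw [hth]
      apply one_div_le_one_div_of_le (by norm_num)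
      calc (2 : ℝ) ≤ b ^ 1 := by rw [pow_one]; linarith
        _ ≤ _ := by apply h.pow_le; omega)
    hD.1 hD.2 v
  refine hdet.trans ?_
  rw [hth]
  -- bound for the number of bad bases
  have hn4 : ((n + 3 + q ^ 2 : ℕ) : ℝ) ≤ b ^ 2 := by
    have h4 : ((q ^ 2 + q : ℕ) : ℝ) ≤ ((4 * n : ℕ) : ℝ) := by exact_mod_cast h.hq4
    push_cast at h4 ⊢
    have h5 := h.hbn
    have h6 : (1 : ℝ) ≤ n := by exact_mod_cast h.hn
    have h7 : (0 : ℝ) ≤ q := by positivity
    nlinarith
  have hL : (((n + 3 + q ^ 2) ^ (q ^ 2 + q) * (m + 3) ^ q * (m + 2) : ℕ) : ℝ) ≤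
      b ^ (7 * q ^ 3) := by
    have e1 : (((n + 3 + q ^ 2) ^ (q ^ 2 + q) * (m + 3) ^ q * (m + 2) : ℕ) : ℝ) =
        ((n + 3 + q ^ 2 : ℕ) : ℝ) ^ (q ^ 2 + q) * ((m + 3 : ℕ) : ℝ) ^ q * ((m : ℝ) + 2) := by
      push_cast; ring
    rw [e1]
    calc _ ≤ (b ^ 2) ^ (q ^ 2 + q) * (b ^ 2) ^ q * b := by
          apply mul_le_mul _ h.hbm (by positivity) (by positivity)
          exact mul_le_mul (pow_le_pow_left₀ (by positivity) hn4 _)
            (pow_le_pow_left₀ (by positivity) h.m3 _) (by positivity) (by positivity)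
      _ = b ^ (2 * (q ^ 2 + q) + 2 * q + 1) := by
          rw [← pow_mul, ← pow_mul, ← pow_add, ← pow_succ]
      _ ≤ b ^ (7 * q ^ 3) := by
          apply h.pow_le
          have h2 : q ^ 2 ≤ q ^ 3 := Nat.pow_le_pow_right h.hq (by norm_num)
          have h3 : q ≤ q ^ 3 := by
            calc q = q ^ 1 := (pow_one q).symm
              _ ≤ q ^ 3 := Nat.pow_le_pow_right h.hq (by norm_num)
          omega
  -- bound for the potential
  set K := 1000 * q ^ 3 with hK
  set K3 := 1000 * q ^ 3 + 3 * n + 20 with hK3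
  have hphi : phi (1 / b ^ K * (1 / b ^ K3) * ‖c‖ / b ^ 4) ((1 / b ^ K) ^ 3 / (n * (b ^ 4) ^ 2)) n
      (2 * ‖c‖ / (1 / b ^ K3)) ≤ b ^ (3000 * q ^ 3 + 24) := by
    have hn1 : (1 : ℝ) ≤ n := by exact_mod_cast h.hn
    have hnpos : (0 : ℝ) < n := by linarith
    have hd : 0 < 1 / b ^ K * (1 / b ^ K3) * ‖c‖ / b ^ 4 := by positivity
    have hΔ : 2 * ‖c‖ / (1 / b ^ K3) / (1 / b ^ K * (1 / b ^ K3) * ‖c‖ / b ^ 4) =
        2 * b ^ (4 + 2 * K3 + K) := by
      have key : ∀ a k : ℝ, 0 < a → 0 < k →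
          2 * ‖c‖ / (1 / k) / (1 / a * (1 / k) * ‖c‖ / b ^ 4) = 2 * (b ^ 4 * (k * k) * a) := by
        intro a k ha hk
        field_simp
      have e4 : b ^ (4 + 2 * K3 + K) = b ^ 4 * (b ^ K3 * b ^ K3) * b ^ K := by
        rw [← pow_add b K3 K3, ← pow_add, ← pow_add, two_mul]
      rw [key _ _ (by positivity) (by positivity), e4]
    have hlog : Real.log (2 * ‖c‖ / (1 / b ^ K3) / (1 / b ^ K * (1 / b ^ K3) * ‖c‖ / b ^ 4)) ≤
        (5 + 2 * K3 + K : ℕ) * b := by
      rw [hΔ]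
      calc Real.log (2 * b ^ (4 + 2 * K3 + K)) ≤ Real.log (b ^ (5 + 2 * K3 + K)) := by
            apply Real.log_le_log (by positivity)
            rw [show 5 + 2 * K3 + K = (4 + 2 * K3 + K) + 1 by ring, pow_succ, mul_comm]
            apply mul_le_mul_of_nonneg_left _ (by positivity)
            linarith
        _ = (5 + 2 * K3 + K : ℕ) * Real.log b := by rw [Real.log_pow]
        _ ≤ (5 + 2 * K3 + K : ℕ) * b := by
            apply mul_le_mul_of_nonneg_left _ (by positivity)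
            have := Real.log_le_sub_one_of_pos h0
            linarith
    have hcoef : (n : ℝ) / ((1 / b ^ K) ^ 3 / (n * (b ^ 4) ^ 2)) = n * n * b ^ (8 + 3 * K) := by
      rw [pow_add, mul_comm 3 K, pow_mul]
      field_simp
      ring
    have hqb : (q : ℝ) ≤ b := by
      have h4 : ((q ^ 2 + q : ℕ) : ℝ) ≤ ((4 * n : ℕ) : ℝ) := by exact_mod_cast h.hq4
      push_cast at h4
      have h5 := h.hbn
      have h7 : (0 : ℝ) ≤ q := by positivity
      nlinarith
    have hsum : ((5 + 2 * K3 + K : ℕ) : ℝ) ≤ b ^ 12 := by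
      have e : 5 + 2 * K3 + K = 3000 * q ^ 3 + (6 * n + 45) := by rw [hK3, hK]; ring
      rw [e]
      push_cast
      have hq3 : (q : ℝ) ^ 3 ≤ b ^ 3 := pow_le_pow_left₀ (by positivity) hqb 3
      have h8 : (3000 : ℝ) ≤ b ^ 8 := by
        calc (3000 : ℝ) ≤ 3 ^ 8 := by norm_num
          _ ≤ b ^ 8 := pow_le_pow_left₀ (by norm_num) hb 8
      have h11 : 3000 * (q : ℝ) ^ 3 ≤ b ^ 11 := by
        calc 3000 * (q : ℝ) ^ 3 ≤ b ^ 8 * b ^ 3 :=
              mul_le_mul h8 hq3 (by positivity) (by positivity)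
          _ = b ^ 11 := by ring
      have h6n : 6 * (n : ℝ) + 45 ≤ b ^ 4 := by
        have h5 := h.hbn
        have h9 : 27 ≤ b ^ 3 := by
          calc (27 : ℝ) = 3 ^ 3 := by norm_num
            _ ≤ b ^ 3 := pow_le_pow_left₀ (by norm_num) hb 3
        have h10 : b ^ 4 = b ^ 3 * b := by ring
        rw [h10]
        nlinarith
      have h411 : b ^ 4 ≤ b ^ 11 := h.pow_le (by norm_num)
      have h12 : b ^ 12 = b ^ 11 * b := by ring
      rw [h12]
      have : 0 < b ^ 11 := by positivity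
      nlinarith
    unfold phi
    split_ifs with hc1 hc2
    · positivity
    · exact one_le_pow₀ h1
    · rw [hcoef]
      have hnb : (n : ℝ) ≤ b := by linarith [h.hbn]
      have hmain : (n : ℝ) * n * b ^ (8 + 3 * K) *
          Real.log (2 * ‖c‖ / (1 / b ^ K3) / (1 / b ^ K * (1 / b ^ K3) * ‖c‖ / b ^ 4)) ≤
          b ^ (3000 * q ^ 3 + 23) := by
        calc _ ≤ (n : ℝ) * n * b ^ (8 + 3 * K) * ((5 + 2 * K3 + K : ℕ) * b) :=
              mul_le_mul_of_nonneg_left hlog (by positivity)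
          _ ≤ b * b * b ^ (8 + 3 * K) * (b ^ 12 * b) := by
              apply mul_le_mul _ (mul_le_mul_of_nonneg_right hsum h0.le) (by positivity)
                (by positivity)
              apply mul_le_mul_of_nonneg_right _ (by positivity)
              exact mul_le_mul hnb hnb hnpos.le h0.le
          _ = b ^ (3000 * q ^ 3 + 23) := by
              rw [hK]; ring
      have h2 : (2 : ℝ) ≤ b ^ (3000 * q ^ 3 + 23) := by
        calc (2 : ℝ) ≤ b ^ 1 := by rw [pow_one]; linarith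
          _ ≤ _ := by apply h.pow_le; omega
      have h3 : b ^ (3000 * q ^ 3 + 24) = b ^ (3000 * q ^ 3 + 23) * b := by rw [← pow_succ]
      rw [h3]
      nlinarith
  set Lr : ℝ := (((n + 3 + q ^ 2) ^ (q ^ 2 + q) * (m + 3) ^ q * (m + 2) : ℕ) : ℝ) with hLr
  have hLr0 : 0 ≤ Lr := by rw [hLr]; positivity
  have hcast : (((n + 3 + q ^ 2) ^ (q ^ 2 + q) * (m + 3) ^ q * (m + 2) : ℕ) : ℝ≥0∞) =
      ENNReal.ofReal Lr := by rw [hLr, ENNReal.ofReal_natCast]
  rw [hcast]
  have e2 : ENNReal.ofReal Lr + 2 = ENNReal.ofReal (Lr + 2) := by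
    rw [ENNReal.ofReal_add hLr0 (by norm_num)]; norm_num
  have e3 : ENNReal.ofReal Lr + 1 = ENNReal.ofReal (Lr + 1) := by
    rw [ENNReal.ofReal_add hLr0 (by norm_num)]; norm_num
  rw [e2, e3, ← ENNReal.ofReal_mul (by positivity)]
  have hphi0 : 0 ≤ phi (1 / b ^ K * (1 / b ^ K3) * ‖c‖ / b ^ 4)
      ((1 / b ^ K) ^ 3 / (n * (b ^ 4) ^ 2)) n (2 * ‖c‖ / (1 / b ^ K3)) := by
    have hnpos : (0 : ℝ) < n := by exact_mod_cast h.hn
    exact phi_nonneg (by positivity) (by positivity) _ _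
  rw [← ENNReal.ofReal_add (mul_nonneg (by linarith) hphi0) (by linarith)]
  apply ENNReal.ofReal_le_ofReal
  have hb7 : 1 ≤ b ^ (7 * q ^ 3) := one_le_pow₀ h1
  have hL2 : Lr + 2 ≤ b ^ (7 * q ^ 3 + 1) := by
    rw [pow_succ]
    nlinarith
  set ph := phi (1 / b ^ K * (1 / b ^ K3) * ‖c‖ / b ^ 4)
      ((1 / b ^ K) ^ 3 / (n * (b ^ 4) ^ 2)) n (2 * ‖c‖ / (1 / b ^ K3)) with hph
  calc (Lr + 2) * ph + (Lr + 1) ≤
      b ^ (7 * q ^ 3 + 1) * b ^ (3000 * q ^ 3 + 24) + b ^ (7 * q ^ 3 + 1) := by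
        apply add_le_add
        · exact mul_le_mul hL2 hphi hphi0 (by positivity)
        · linarith
    _ ≤ b ^ (7 * q ^ 3 + 1) * b ^ (3000 * q ^ 3 + 24) * b := by
        have h3 : 1 ≤ b ^ (3000 * q ^ 3 + 24) := one_le_pow₀ h1
        have h4 : 0 < b ^ (7 * q ^ 3 + 1) := by positivity
        have h5 : b ^ (7 * q ^ 3 + 1) ≤ b ^ (7 * q ^ 3 + 1) * b ^ (3000 * q ^ 3 + 24) := by
          nlinarith
        nlinarith [mul_pos h4 (lt_of_lt_of_le one_pos h3)]
    _ = b ^ (3007 * q ^ 3 + 26) := by ring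
    _ ≤ b ^ (3100 * q ^ 3) := by
        apply h.pow_le
        omega

/-- No improving neighbour at all: the path has no step. -/
theorem pathLen_eq_zero {P : Set (Pt n)} {c : Pt n} {p : Pt n → Pt n → ℝ≥0∞} (hp : Rule P c p)
    (h : ∀ v w, ¬ BetterNbr P c v w) (v : Pt n) : pathLen p v = 0 := by
  have hz : ∀ v w, p v w = 0 := fun v w => by
    by_contra hne
    exact h v w (hp.nbr hne)
  have hs : ∀ k v, steps p k v = 0 := by
    intro k v
    cases k with
    | zero => rfl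
    | succ k => simp [steps, hz]
  simp [pathLen, hs]

/-- Choice of `q`. -/
theorem exists_q (n : ℕ) (hn : 1 ≤ n) : ∃ q : ℕ, 1 ≤ q ∧ n ≤ q ^ 4 ∧ q ^ 2 + q ≤ 4 * n ∧
    q ^ 4 ≤ 16 * n := by
  classical
  have hex : ∃ q : ℕ, n ≤ q ^ 4 := ⟨n, by
    calc n = n ^ 1 := (pow_one n).symm
      _ ≤ n ^ 4 := Nat.pow_le_pow_right hn (by norm_num)⟩
  set q := Nat.find hex with hq
  have h1 : n ≤ q ^ 4 := Nat.find_spec hex
  have hq1 : 1 ≤ q := by
    rcases Nat.eq_zero_or_pos q with h | h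
    · rw [h] at h1; simp at h1; omega
    · exact h
  have h2 : (q - 1) ^ 4 < n := by
    have := Nat.find_min hex (m := q - 1) (by omega)
    exact not_le.1 this
  obtain ⟨r, hr⟩ : ∃ r, q = r + 1 := ⟨q - 1, by omega⟩
  rw [hr] at h1 h2
  simp only [Nat.add_sub_cancel] at h2
  refine ⟨r + 1, by omega, h1, ?_, ?_⟩
  · rcases Nat.eq_zero_or_pos r with h | h
    · subst h; omega
    · have h3 : r ≤ r ^ 2 := by nlinarith
      have h4 : r ^ 2 ≤ r ^ 4 := Nat.pow_le_pow_right h (by norm_num)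
      nlinarith
  · rcases Nat.eq_zero_or_pos r with h | h
    · subst h; omega
    · have h3 : (r + 1) ^ 4 ≤ (2 * r) ^ 4 := Nat.pow_le_pow_left (by omega) 4
      have h4 : (2 * r) ^ 4 = 16 * r ^ 4 := by ring
      omega

/-- The main theorem. -/
theorem main : ∃ C : ℝ, ∀ (m n : ℕ) (σ : ℝ≥0) (Dbar : Data m n) (c : Pt n), 0 < σ →
    ∑ i, ∑ j, Dbar i j ^ 2 ≤ 1 →
    ∃ g : Data m n → ℝ≥0∞, Measurable g ∧
      (∀ (D : Data m n) (p : Pt n → Pt n → ℝ≥0∞) (v : Pt n),
        (Greedy (poly D) c p ∨ Steepest (poly D) c p ∨ Random (poly D) c p) → pathLen p v ≤ g D) ∧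
      ∫⁻ D, g D ∂(law Dbar σ) ≤
        ENNReal.ofReal (((m + n + 2) * (1 + 1 / (σ : ℝ))) ^ (C * (n : ℝ) ^ (3 / 4 : ℝ))) := by
  refine ⟨24808, ?_⟩
  intro m n σ Dbar c hσ hD
  by_cases hcase : n = 0 ∨ c = 0
  · refine ⟨0, measurable_const, ?_, by simp⟩
    intro D p v hp
    rw [pathLen_eq_zero hp]
    · exact le_rfl
    · intro v w hb
      rcases hcase with h | h
      · subst h
        exact hb.1 (Subsingleton.elim v w)
      · have := hb.2.2.2.2
        rw [h] at this
        simp at this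
  push Not at hcase
  obtain ⟨hn0, hc⟩ := hcase
  have hn : 1 ≤ n := Nat.one_le_iff_ne_zero.2 hn0
  obtain ⟨q, hq1, hnq, hq4, hq16⟩ := exists_q n hn
  have hσr : (0 : ℝ) < σ := by exact_mod_cast hσ
  set b : ℝ := (m + n + 2) * (1 + 1 / (σ : ℝ)) with hb
  have hinv : 0 < 1 / (σ : ℝ) := by positivity
  have hmn : (3 : ℝ) ≤ m + n + 2 := by
    have : (1 : ℝ) ≤ n := by exact_mod_cast hn
    have : (0 : ℝ) ≤ m := by positivity
    linarith
  have hbmn : (m : ℝ) + n + 2 ≤ b := by
    rw [hb]; nlinarith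
  have hpar : Par m n q b := by
    refine ⟨hn, hq1, hnq, hq4, by linarith, ?_, ?_⟩
    · have : (0 : ℝ) ≤ m := by positivity
      linarith
    · have : (0 : ℝ) ≤ n := by positivity
      linarith
  have h0 := hpar.pos
  have h1 := hpar.one_le
  set T : Data m n → Data m n := fun D i j => D i j / (σ : ℝ) with hT
  have hTm : Measurable T := by
    rw [hT]
    fun_prop
  set P := (Measure.pi fun i => Measure.pi fun j => gaussianReal (Dbar i j / (σ : ℝ)) 1 :
    Measure (Data m n)) with hP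
  have hmap : (law Dbar σ).map T = P := law_scale Dbar hσ
  have hprob := event_prob hpar hc (fun i j => Dbar i j / (σ : ℝ)) (fun i j => by
    have h2 : Dbar i j ^ 2 ≤ 1 := by
      refine le_trans ?_ hD
      calc Dbar i j ^ 2 ≤ ∑ j, Dbar i j ^ 2 :=
            Finset.single_le_sum (f := fun j => Dbar i j ^ 2) (fun j _ => sq_nonneg _)
              (Finset.mem_univ j)
        _ ≤ _ := Finset.single_le_sum (f := fun i => ∑ j, Dbar i j ^ 2)
              (fun i _ => Finset.sum_nonneg fun j _ => sq_nonneg _) (Finset.mem_univ i)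
    have h3 : |Dbar i j| ≤ 1 := by
      rw [← abs_one]; exact sq_le_sq.1 (by simpa using h2)
    rw [abs_div, abs_of_pos hσr, div_le_iff₀ hσr]
    have h4 : 1 ≤ b * σ := by
      rw [hb]
      have : (1 + 1 / (σ : ℝ)) * σ = σ + 1 := by field_simp
      rw [mul_assoc, this]
      nlinarith
    linarith)
  rw [← hP] at hprob
  set E : Set (Data m n) := {D | ¬ GoodEv c q b D} with hE
  set E' := toMeasurable P E with hE'
  have hE'm : MeasurableSet E' := measurableSet_toMeasurable _ _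
  have hE'P : P E' ≤ ENNReal.ofReal (1 / b ^ n) := by rw [hE', measure_toMeasurable]; exact hprob
  set g : Data m n → ℝ≥0∞ := fun D => ENNReal.ofReal (b ^ (3100 * q ^ 3)) +
    (T ⁻¹' E').indicator (fun _ => (m : ℝ≥0∞) ^ n) D with hg
  have hEm : MeasurableSet (T ⁻¹' E') := hTm hE'm
  refine ⟨g, ?_, ?_, ?_⟩
  · exact (measurable_const : Measurable fun _ : Data m n =>
      ENNReal.ofReal (b ^ (3100 * q ^ 3))).add ((measurable_const : Measurable fun _ : Data m n =>
        (m : ℝ≥0∞) ^ n).indicator hEm)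
  · intro D p v hp
    have hpT : Rule (poly (T D)) c p := by
      have : poly (T D) = poly D := poly_scale D hσr
      rw [this]; exact hp
    by_cases hDE : T D ∈ E'
    · have h2 := pathLen_trivial hpT v
      refine h2.trans ?_
      have hmem : D ∈ T ⁻¹' E' := hDE
      simp only [hg]
      rw [Set.indicator_of_mem hmem]
      exact le_add_self
    · have hgood : GoodEv c q b (T D) := by
        by_contra hbad
        exact hDE (subset_toMeasurable P E hbad)
      refine (good_bound hpar hc hgood hpT v).trans ?_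
      simp only [hg]
      exact le_self_add
  · have hprobL : IsProbabilityMeasure (law Dbar σ) := by unfold law; infer_instance
    have hmeas : (law Dbar σ) (T ⁻¹' E') = P E' := by
      rw [← hmap, Measure.map_apply hTm hE'm]
    calc ∫⁻ D, g D ∂(law Dbar σ) = ENNReal.ofReal (b ^ (3100 * q ^ 3)) +
          (m : ℝ≥0∞) ^ n * P E' := by
          simp only [hg]
          rw [lintegral_add_left measurable_const, lintegral_const, measure_univ, mul_one,
            lintegral_indicator_const hEm, hmeas]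
      _ ≤ ENNReal.ofReal (b ^ (3100 * q ^ 3)) + ENNReal.ofReal 1 := by
          apply add_le_add le_rfl
          calc (m : ℝ≥0∞) ^ n * P E' ≤ ENNReal.ofReal (b ^ n) * ENNReal.ofReal (1 / b ^ n) := by
                apply mul_le_mul' _ hE'P
                rw [ENNReal.ofReal_pow h0.le]
                apply pow_le_pow_left'
                rw [← ENNReal.ofReal_natCast]
                apply ENNReal.ofReal_le_ofReal
                linarith [hpar.hbm]
            _ = ENNReal.ofReal 1 := by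
                rw [← ENNReal.ofReal_mul (by positivity), mul_one_div, div_self (by positivity)]
      _ = ENNReal.ofReal (b ^ (3100 * q ^ 3) + 1) := by
          rw [← ENNReal.ofReal_add (by positivity) (by norm_num)]
      _ ≤ ENNReal.ofReal (b ^ (24808 * (n : ℝ) ^ (3 / 4 : ℝ))) := by
          apply ENNReal.ofReal_le_ofReal
          have hstep : b ^ (3100 * q ^ 3) + 1 ≤ b ^ (3101 * q ^ 3) := by
            have h2 : 1 ≤ b ^ (3100 * q ^ 3) := one_le_pow₀ h1
            calc b ^ (3100 * q ^ 3) + 1 ≤ b ^ (3100 * q ^ 3) * b := by nlinarith [hpar.hb3]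
              _ = b ^ (3100 * q ^ 3 + 1) := (pow_succ _ _).symm
              _ ≤ b ^ (3101 * q ^ 3) := by
                  apply hpar.pow_le
                  have : 1 ≤ q ^ 3 := Nat.one_le_pow _ _ hq1
                  omega
          refine hstep.trans ?_
          rw [← Real.rpow_natCast]
          apply Real.rpow_le_rpow_of_exponent_le h1
          push_cast
          have hnpos : (0 : ℝ) < n := by exact_mod_cast hn
          have hq' : (q : ℝ) ≤ 2 * (n : ℝ) ^ (1 / 4 : ℝ) := by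
            have h4 : (q : ℝ) ^ 4 ≤ 16 * n := by exact_mod_cast hq16
            have h5 : ((2 * (n : ℝ) ^ (1 / 4 : ℝ)) : ℝ) ^ 4 = 16 * n := by
              rw [mul_pow, ← Real.rpow_natCast ((n : ℝ) ^ (1 / 4 : ℝ)) 4, ← Real.rpow_mul hnpos.le]
              norm_num
            have h6 : (q : ℝ) ^ 4 ≤ (2 * (n : ℝ) ^ (1 / 4 : ℝ)) ^ 4 := by rw [h5]; exact h4
            exact le_of_pow_le_pow_left₀ (by norm_num) (by positivity) h6
          have hq3 : (q : ℝ) ^ 3 ≤ 8 * (n : ℝ) ^ (3 / 4 : ℝ) := by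
            calc (q : ℝ) ^ 3 ≤ (2 * (n : ℝ) ^ (1 / 4 : ℝ)) ^ 3 :=
                  pow_le_pow_left₀ (by positivity) hq' 3
              _ = 8 * (n : ℝ) ^ (3 / 4 : ℝ) := by
                  rw [mul_pow, ← Real.rpow_natCast ((n : ℝ) ^ (1 / 4 : ℝ)) 3,
                    ← Real.rpow_mul hnpos.le]
                  norm_num
          linarith

end Pool.Agent.Lib.MP_ab1b6f_lc
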